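import Mathlib

/-!
# LCB, part A: the arithmetic identity for the lcm of blocks
-/

set_option autoImplicit false

namespace LCB

open Finset ArithmeticFunction

/-- The signed indicator of the block comparison for the modulus `d`. -/
noncomputable def X (d k n : ℕ) : ℝ :=
  (if n % d < k % d then 1 else 0) - (if d ≤ n % d + k % d then 1 else 0)

theorem X_eq {d k n : ℕ} (hd : 0 < d) (hk : k ≤ n) :
    X d k n = 2 * ((n / d : ℕ) : ℝ) - ((n + k) / d : ℕ) - ((n - k) / d : ℕ) := by
  obtain ⟨m, rfl⟩ : ∃ m, n = m + k := ⟨n - k, by omega⟩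
  have h1 : (m + k + k) / d = (m + k) / d + k / d + if d ≤ (m + k) % d + k % d then 1 else 0 :=
    Nat.add_div hd
  have h2 : (m + k) / d = m / d + k / d + if d ≤ m % d + k % d then 1 else 0 := Nat.add_div hd
  have h3 : (m + k) % d < k % d ↔ d ≤ m % d + k % d := by
    have hm := Nat.mod_lt m hd
    have hk' := Nat.mod_lt k hd
    constructor
    · intro h
      by_contra hlt
      push Not at hlt
      rw [Nat.add_mod_of_add_mod_lt hlt] at h
      omega
    · intro h
      have := Nat.add_mod_add_of_le_add_mod h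
      omega
  unfold X
  rw [h1]
  have e : m + k - k = m := by omega
  rw [e]
  simp only [h3]
  have h2' : ((m + k) / d : ℕ) = ((m / d : ℕ) : ℝ) + ((k / d : ℕ) : ℝ) +
      (if d ≤ m % d + k % d then (1 : ℝ) else 0) := by
    rw [h2]; push_cast; rfl
  push_cast
  rw [h2']
  ring

theorem log_eq_sum {m B : ℕ} (hm : 0 < m) (hB : m ≤ B) :
    Real.log m = ∑ d ∈ Icc 1 B, Λ d * (if d ∣ m then (1 : ℝ) else 0) := by
  rw [← vonMangoldt_sum]
  have h : m.divisors = (Icc 1 B).filter (fun d => d ∣ m) := by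
    ext d
    simp only [Nat.mem_divisors, mem_filter, mem_Icc]
    constructor
    · rintro ⟨h1, h2⟩
      exact ⟨⟨Nat.pos_of_dvd_of_pos h1 hm, (Nat.le_of_dvd hm h1).trans hB⟩, h1⟩
    · rintro ⟨_, h1⟩
      exact ⟨h1, by omega⟩
  rw [h, sum_filter]
  refine sum_congr rfl fun d _ => ?_
  split_ifs <;> simp

theorem log_factorial_eq {n B : ℕ} (hB : n ≤ B) :
    Real.log (n.factorial : ℝ) = ∑ d ∈ Icc 1 B, Λ d * ((n / d : ℕ) : ℝ) := by
  induction n with
  | zero => simp
  | succ n ih =>
    have h1 : ((n + 1).factorial : ℝ) = ((n + 1 : ℕ) : ℝ) * (n.factorial : ℝ) := by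
      rw [Nat.factorial_succ]; push_cast; ring
    rw [h1, Real.log_mul (by positivity) (by positivity), ih (by omega), log_eq_sum (Nat.succ_pos n) hB,
      ← sum_add_distrib]
    refine sum_congr rfl fun d _ => ?_
    rw [Nat.succ_div]
    split_ifs <;> push_cast <;> ring

theorem pp_dvd_lcm {p a : ℕ} (hp : p.Prime) {S : Finset ℕ} (hS : ∀ s ∈ S, 0 < s) (ha : 0 < a)
    (h : p ^ a ∣ S.lcm id) : ∃ s ∈ S, p ^ a ∣ s := by
  induction S using Finset.induction_on with
  | empty =>
    rw [Finset.lcm_empty] at h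
    have := Nat.dvd_one.1 h
    have h2 : 1 < p ^ a := Nat.one_lt_pow (by omega) hp.one_lt
    omega
  | insert x S hx ih =>
    rw [Finset.lcm_insert, id] at h
    have hx0 : x ≠ 0 := (hS x (mem_insert_self x S)).ne'
    have hL : S.lcm id ≠ 0 := by
      rw [Ne, Finset.lcm_eq_zero_iff]
      rintro ⟨y, hy, hy0⟩
      have := hS y (mem_insert_of_mem hy)
      simp only [id] at hy0
      omega
    have hl : (lcm x (S.lcm id)) = Nat.lcm x (S.lcm id) := rfl
    rw [hl, hp.pow_dvd_iff_le_factorization (Nat.lcm_ne_zero hx0 hL), Nat.factorization_lcm hx0 hL,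
      Finsupp.sup_apply, le_sup_iff] at h
    rcases h with h | h
    · exact ⟨x, mem_insert_self x S, (hp.pow_dvd_iff_le_factorization hx0).2 h⟩
    · obtain ⟨s, hs, hs'⟩ := ih (fun s hs => hS s (mem_insert_of_mem hs)) ((hp.pow_dvd_iff_le_factorization hL).2 h)
      exact ⟨s, mem_insert_of_mem hs, hs'⟩

open scoped Classical in
/-- The indicator that `d` divides an element of `S`. -/
noncomputable def ex (S : Finset ℕ) (d : ℕ) : ℝ := if ∃ s ∈ S, d ∣ s then 1 else 0

open scoped Classical in
theorem log_lcm_eq {S : Finset ℕ} {B : ℕ} (hS : ∀ s ∈ S, 0 < s ∧ s ≤ B) :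
    Real.log ((S.lcm id : ℕ) : ℝ) = ∑ d ∈ Icc 1 B, Λ d * ex S d := by
  unfold ex
  have h0 : S.lcm id ≠ 0 := by
    rw [Ne, Finset.lcm_eq_zero_iff]
    rintro ⟨y, hy, hy0⟩
    have := (hS y hy).1
    simp only [id] at hy0
    omega
  rw [← vonMangoldt_sum]
  have e1 : ∑ d ∈ Icc 1 B, Λ d * (if ∃ s ∈ S, d ∣ s then (1 : ℝ) else 0) =
      ∑ d ∈ (Icc 1 B).filter (fun d => ∃ s ∈ S, d ∣ s), Λ d := by
    rw [sum_filter]
    refine sum_congr rfl fun d _ => ?_
    split_ifs <;> simp
  rw [e1]
  symm
  refine sum_subset ?_ ?_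
  · intro d hd
    rw [mem_filter, mem_Icc] at hd
    obtain ⟨_, s, hs, hds⟩ := hd
    rw [Nat.mem_divisors]
    exact ⟨hds.trans (Finset.dvd_lcm (f := id) hs), h0⟩
  · intro d hd hd'
    rw [Nat.mem_divisors] at hd
    by_contra hne
    have hpp := vonMangoldt_ne_zero_iff.1 hne
    rw [isPrimePow_nat_iff] at hpp
    obtain ⟨p, a, hp, ha, rfl⟩ := hpp
    obtain ⟨s, hs, hs'⟩ := pp_dvd_lcm hp (fun s hs => (hS s hs).1) ha hd.1
    apply hd'
    rw [mem_filter, mem_Icc]
    exact ⟨⟨Nat.pos_of_dvd_of_pos hs' (hS s hs).1, (Nat.le_of_dvd (hS s hs).1 hs').trans (hS s hs).2⟩, s, hs, hs'⟩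

theorem ind_diff {d k n : ℕ} (hd : 0 < d) (hkn : k ≤ n) :
    ex (Icc (n + 1) (n + k)) d - ex (Icc (n - k + 1) n) d =
      - X d k n + (if d ≤ k then X d k n else 0) := by
  unfold ex
  have hn := Nat.mod_lt n hd
  have hdm := Nat.div_add_mod n d
  by_cases h : d ≤ k
  · have h1 : ∃ s ∈ Icc (n + 1) (n + k), d ∣ s := by
      refine ⟨d * (n / d) + d, ?_, ⟨n / d + 1, by ring⟩⟩
      rw [mem_Icc]
      omega
    have h2 : ∃ s ∈ Icc (n - k + 1) n, d ∣ s := by
      refine ⟨d * (n / d), ?_, ⟨n / d, rfl⟩⟩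
      rw [mem_Icc]
      omega
    rw [if_pos h1, if_pos h2, if_pos h]
    ring
  · push Not at h
    have hkd : k % d = k := Nat.mod_eq_of_lt h
    have h1 : (∃ s ∈ Icc (n + 1) (n + k), d ∣ s) ↔ d ≤ n % d + k := by
      constructor
      · rintro ⟨s, hs, c, rfl⟩
        rw [mem_Icc] at hs
        by_contra hlt
        push Not at hlt
        have h3 : n / d < c := by
          by_contra hc
          push Not at hc
          have := Nat.mul_le_mul_left d hc
          omega
        have h4 := Nat.mul_le_mul_left d (Nat.succ_le_of_lt h3)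
        rw [Nat.mul_succ] at h4
        omega
      · intro h3
        refine ⟨d * (n / d) + d, ?_, ⟨n / d + 1, by ring⟩⟩
        rw [mem_Icc]
        omega
    have h2 : (∃ s ∈ Icc (n - k + 1) n, d ∣ s) ↔ n % d < k := by
      constructor
      · rintro ⟨s, hs, c, rfl⟩
        rw [mem_Icc] at hs
        by_contra hlt
        push Not at hlt
        have h3 : n / d < c := by
          by_contra hc
          push Not at hc
          have := Nat.mul_le_mul_left d hc
          omega
        have h4 := Nat.mul_le_mul_left d (Nat.succ_le_of_lt h3)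
        rw [Nat.mul_succ] at h4
        omega
      · intro h3
        refine ⟨d * (n / d), ?_, ⟨n / d, rfl⟩⟩
        rw [mem_Icc]
        omega
    rw [if_neg (by omega : ¬ d ≤ k)]
    unfold X
    rw [hkd]
    simp only [h1, h2]
    ring

/-- The main identity. -/
theorem block_identity {k n : ℕ} (hk : 1 ≤ k) (hkn : k ≤ n) :
    Real.log (((Icc (n + 1) (n + k)).lcm id : ℕ) : ℝ) - Real.log (((Icc (n - k + 1) n).lcm id : ℕ) : ℝ) =
      (Real.log ((n + k).factorial : ℝ) + Real.log ((n - k).factorial : ℝ) - 2 * Real.log (n.factorial : ℝ)) +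
        ∑ d ∈ Icc 1 k, Λ d * X d k n := by
  rw [log_lcm_eq (S := Icc (n + 1) (n + k)) (B := n + k) (fun s hs => by rw [mem_Icc] at hs; omega),
    log_lcm_eq (S := Icc (n - k + 1) n) (B := n + k) (fun s hs => by rw [mem_Icc] at hs; omega),
    log_factorial_eq (n := n + k) (B := n + k) le_rfl, log_factorial_eq (n := n - k) (B := n + k) (by omega),
    log_factorial_eq (n := n) (B := n + k) (by omega)]
  have e1 : ∑ d ∈ Icc 1 k, Λ d * X d k n = ∑ d ∈ Icc 1 (n + k), Λ d * (if d ≤ k then X d k n else 0) := by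
    have : Icc 1 k = (Icc 1 (n + k)).filter (fun d => d ≤ k) := by
      ext d; simp only [mem_Icc, mem_filter]; omega
    rw [this, sum_filter]
    refine sum_congr rfl fun d _ => ?_
    split_ifs <;> simp
  rw [e1, mul_sum, ← sum_sub_distrib, ← sum_add_distrib, ← sum_sub_distrib, ← sum_add_distrib]
  refine sum_congr rfl fun d hd => ?_
  rw [mem_Icc] at hd
  rw [← mul_sub, ind_diff hd.1 hkn]
  nth_rewrite 1 [X_eq hd.1 hkn]
  ring

theorem fact_pos {k n : ℕ} (hk : 1 ≤ k) (hkn : k ≤ n) :
    0 < Real.log ((n + k).factorial : ℝ) + Real.log ((n - k).factorial : ℝ) - 2 * Real.log (n.factorial : ℝ) := by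
  obtain ⟨m, rfl⟩ : ∃ m, n = m + k := ⟨n - k, by omega⟩
  have e : m + k - k = m := by omega
  rw [e]
  -- (m+2k)! m! > (m+k)!^2
  have h1 : (m + k).factorial ^ 2 < (m + k + k).factorial * m.factorial := by
    induction k with
    | zero => omega
    | succ k ih =>
      rcases Nat.eq_zero_or_pos k with rfl | hk0
      · have a1 : (m + (0 + 1)).factorial = (m + 1) * m.factorial := by
          rw [zero_add]; exact Nat.factorial_succ m
        have a2 : (m + (0 + 1) + (0 + 1)).factorial = (m + 2) * ((m + 1) * m.factorial) := by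
          have : m + (0 + 1) + (0 + 1) = (m + 1) + 1 := by omega
          rw [this, Nat.factorial_succ, Nat.factorial_succ]
        rw [a1, a2]
        have := Nat.factorial_pos m
        nlinarith [mul_pos (Nat.succ_pos m) (mul_pos this this)]
      · have ih' := ih hk0 (by omega) (by omega)
        have a1 : (m + (k + 1)).factorial = (m + k + 1) * (m + k).factorial := by
          have : m + (k + 1) = (m + k) + 1 := by omega
          rw [this, Nat.factorial_succ]
        have a2 : (m + (k + 1) + (k + 1)).factorial = (m + k + k + 2) * ((m + k + k + 1) * (m + k + k).factorial) := by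
          have : m + (k + 1) + (k + 1) = (m + k + k + 1) + 1 := by omega
          rw [this, Nat.factorial_succ, Nat.factorial_succ]
        rw [a1, a2]
        calc ((m + k + 1) * (m + k).factorial) ^ 2 = (m + k + 1) ^ 2 * (m + k).factorial ^ 2 := by ring
          _ < (m + k + 1) ^ 2 * ((m + k + k).factorial * m.factorial) :=
              Nat.mul_lt_mul_of_pos_left ih' (by positivity)
          _ ≤ ((m + k + k + 2) * (m + k + k + 1)) * ((m + k + k).factorial * m.factorial) := by
              refine Nat.mul_le_mul_right _ ?_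
              nlinarith
          _ = _ := by ring
  have h2 : ((m + k).factorial : ℝ) ^ 2 < ((m + k + k).factorial : ℝ) * (m.factorial : ℝ) := by exact_mod_cast h1
  have h3 := Real.log_lt_log (by positivity) h2
  rw [Real.log_pow, Real.log_mul (by positivity) (by positivity)] at h3
  push_cast at h3
  linarith

theorem lcm_lt_of_nonneg {k n : ℕ} (hk : 1 ≤ k) (hkn : k ≤ n) (h : 0 ≤ ∑ d ∈ Icc 1 k, Λ d * X d k n) :
    (Icc (n - k + 1) n).lcm id < (Icc (n + 1) (n + k)).lcm id := by
  have h1 := block_identity hk hkn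
  have h2 := fact_pos hk hkn
  have h3 : Real.log (((Icc (n - k + 1) n).lcm id : ℕ) : ℝ) < Real.log (((Icc (n + 1) (n + k)).lcm id : ℕ) : ℝ) := by
    linarith
  by_contra hcon
  push Not at hcon
  have h5 : (0 : ℝ) < (((Icc (n + 1) (n + k)).lcm id : ℕ) : ℝ) := by
    have : (Icc (n + 1) (n + k)).lcm id ≠ 0 := by
      rw [Ne, Finset.lcm_eq_zero_iff]
      rintro ⟨y, hy, hy0⟩
      rw [mem_Icc] at hy
      simp only [id] at hy0
      omega
    exact_mod_cast Nat.pos_of_ne_zero this
  have h6 := Real.log_le_log h5 (by exact_mod_cast hcon : (((Icc (n + 1) (n + k)).lcm id : ℕ) : ℝ) ≤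
    (((Icc (n - k + 1) n).lcm id : ℕ) : ℝ))
  linarith

theorem X_abs_le (d k n : ℕ) : |X d k n| ≤ 1 := by
  unfold X
  split_ifs <;> norm_num

end LCB
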