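import Mathlib

/-!
# LCB, part C: averages of periodic functions
-/

set_option autoImplicit false

namespace LCB

open Finset Function

/-- The average over `0, …, Q - 1`. -/
noncomputable def av (Q : ℕ) (f : ℕ → ℝ) : ℝ := (∑ m ∈ range Q, f m) / Q

theorem av_add (Q : ℕ) (f g : ℕ → ℝ) : av Q (fun m => f m + g m) = av Q f + av Q g := by
  unfold av; rw [sum_add_distrib, add_div]

theorem av_sub (Q : ℕ) (f g : ℕ → ℝ) : av Q (fun m => f m - g m) = av Q f - av Q g := by
  unfold av; rw [sum_sub_distrib, sub_div]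

theorem av_mul_left (Q : ℕ) (c : ℝ) (f : ℕ → ℝ) : av Q (fun m => c * f m) = c * av Q f := by
  unfold av; rw [← mul_sum, mul_div_assoc]

theorem av_mul_right (Q : ℕ) (c : ℝ) (f : ℕ → ℝ) : av Q (fun m => f m * c) = av Q f * c := by
  unfold av; rw [← sum_mul]; ring

theorem av_neg (Q : ℕ) (f : ℕ → ℝ) : av Q (fun m => - f m) = - av Q f := by
  unfold av; rw [sum_neg_distrib, neg_div]

theorem av_sum {ι : Type} (Q : ℕ) (s : Finset ι) (f : ι → ℕ → ℝ) :
    av Q (fun m => ∑ i ∈ s, f i m) = ∑ i ∈ s, av Q (f i) := by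
  unfold av; rw [sum_comm, sum_div]

theorem av_const {Q : ℕ} (hQ : 0 < Q) (c : ℝ) : av Q (fun _ => c) = c := by
  unfold av
  rw [sum_const, card_range, nsmul_eq_mul]
  field_simp

theorem av_mono (Q : ℕ) {f g : ℕ → ℝ} (h : ∀ m, f m ≤ g m) : av Q f ≤ av Q g := by
  unfold av
  gcongr with m _
  exact h m

theorem av_nonneg (Q : ℕ) {f : ℕ → ℝ} (h : ∀ m, 0 ≤ f m) : 0 ≤ av Q f := by
  unfold av
  exact div_nonneg (sum_nonneg fun m _ => h m) (Nat.cast_nonneg _)

theorem av_congr (Q : ℕ) {f g : ℕ → ℝ} (h : ∀ m < Q, f m = g m) : av Q f = av Q g := by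
  unfold av
  rw [sum_congr rfl fun m hm => h m (mem_range.1 hm)]

theorem av_abs_le {Q : ℕ} (hQ : 0 < Q) {f : ℕ → ℝ} {b : ℝ} (h : ∀ m, |f m| ≤ b) : |av Q f| ≤ b := by
  rw [abs_le]
  constructor
  · rw [← av_const hQ (-b)]
    exact av_mono Q fun m => (abs_le.1 (h m)).1
  · rw [← av_const hQ b]
    exact av_mono Q fun m => (abs_le.1 (h m)).2

theorem av_refl (Q : ℕ) (f : ℕ → ℝ) : av Q (fun m => f (Q - 1 - m)) = av Q f := by
  unfold av
  rw [sum_range_reflect]

theorem av_cs (Q : ℕ) (f g : ℕ → ℝ) : (av Q (fun m => f m * g m)) ^ 2 ≤ av Q (fun m => f m ^ 2) * av Q (fun m => g m ^ 2) := by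
  unfold av
  rw [div_pow, div_mul_div_comm, ← sq]
  have := sum_mul_sq_le_sq_mul_sq (range Q) f g
  gcongr

theorem sum_per {f : ℕ → ℝ} {q : ℕ} (h : Periodic f q) (t : ℕ) :
    ∑ m ∈ range (q * t), f m = t * ∑ m ∈ range q, f m := by
  induction t with
  | zero => simp
  | succ t ih =>
    rw [Nat.mul_succ, sum_range_add, ih]
    have : ∀ m ∈ range q, f (q * t + m) = f m := by
      intro m _
      have h1 := h.nat_mul t m
      rw [add_comm, mul_comm q t]
      exact_mod_cast h1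
    rw [sum_congr rfl this]
    push_cast
    ring

theorem sum_shift {f : ℕ → ℝ} {q : ℕ} (h : Periodic f q) (a : ℕ) :
    ∑ m ∈ range q, f (a + m) = ∑ m ∈ range q, f m := by
  induction a with
  | zero => simp
  | succ a ih =>
    rw [← ih]
    have h1 := sum_range_succ' (fun m => f (a + m)) q
    have h2 := sum_range_succ (fun m => f (a + m)) q
    have h3 : f (a + q) = f (a + 0) := by rw [add_zero]; exact h a
    have h4 : ∑ m ∈ range q, f (a + (m + 1)) = ∑ m ∈ range q, f (a + 1 + m) := by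
      refine sum_congr rfl fun m _ => ?_
      congr 1
      ring
    rw [h2, h3] at h1
    rw [← h4]
    linarith

theorem av_of_dvd {f : ℕ → ℝ} {q Q : ℕ} (h : Periodic f q) (hq : q ∣ Q) (hQ : 0 < Q) : av Q f = av q f := by
  obtain ⟨t, rfl⟩ := hq
  have hq0 : 0 < q := Nat.pos_of_mul_pos_right hQ
  have ht0 : 0 < t := Nat.pos_of_mul_pos_left hQ
  unfold av
  rw [sum_per h]
  have : (0 : ℝ) < q := by exact_mod_cast hq0
  have : (0 : ℝ) < t := by exact_mod_cast ht0
  push_cast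
  field_simp

theorem per_mod {f : ℕ → ℝ} {q : ℕ} (h : Periodic f q) (m : ℕ) : f (m % q) = f m := h.map_mod_nat m

theorem av_indep {f g : ℕ → ℝ} {q1 q2 : ℕ} (h1 : Periodic f q1) (h2 : Periodic g q2) (hc : Nat.Coprime q1 q2)
    (hq1 : 0 < q1) (hq2 : 0 < q2) : av (q1 * q2) (fun m => f m * g m) = av q1 f * av q2 g := by
  unfold av
  have e : ∑ m ∈ range (q1 * q2), f m * g m = ∑ x ∈ range q1 ×ˢ range q2, f x.1 * g x.2 := by
    have hmaps : Set.MapsTo (fun m => (m % q1, m % q2)) (range (q1 * q2) : Finset ℕ) (range q1 ×ˢ range q2 : Finset (ℕ × ℕ)) := by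
      intro m _
      simp only [coe_product, Set.mem_prod, mem_coe, mem_range]
      exact ⟨Nat.mod_lt _ hq1, Nat.mod_lt _ hq2⟩
    have hinj : Set.InjOn (fun m => (m % q1, m % q2)) (range (q1 * q2) : Finset ℕ) := by
      intro m hm m' hm' hmm
      simp only [coe_range, Set.mem_Iio] at hm hm'
      rw [Prod.mk.injEq] at hmm
      have h3 : m ≡ m' [MOD q1 * q2] := (Nat.modEq_and_modEq_iff_modEq_mul hc).1 ⟨hmm.1, hmm.2⟩
      have h4 : m % (q1 * q2) = m' % (q1 * q2) := h3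
      rwa [Nat.mod_eq_of_lt hm, Nat.mod_eq_of_lt hm'] at h4
    have hsurj : Set.SurjOn (fun m => (m % q1, m % q2)) (range (q1 * q2) : Finset ℕ) (range q1 ×ˢ range q2 : Finset (ℕ × ℕ)) := by
      refine surjOn_of_injOn_of_card_le _ hmaps hinj ?_
      rw [card_product, card_range, card_range, card_range]
    refine sum_nbij (fun m => (m % q1, m % q2)) (fun m hm => ?_) hinj hsurj (fun m _ => ?_)
    · exact hmaps hm
    · change f m * g m = f (m % q1) * g (m % q2)
      rw [per_mod h1, per_mod h2]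
  rw [e, sum_product]
  simp only
  rw [div_mul_div_comm, ← sum_mul_sum]
  push_cast
  rfl

theorem per_of_dvd {f : ℕ → ℝ} {q Q : ℕ} (h : Periodic f q) (hq : q ∣ Q) : Periodic f Q := by
  obtain ⟨t, rfl⟩ := hq
  intro m
  have h1 := h.nat_mul t m
  rw [mul_comm q t]
  exact_mod_cast h1

theorem per_mul {f g : ℕ → ℝ} {q : ℕ} (h1 : Periodic f q) (h2 : Periodic g q) : Periodic (fun m => f m * g m) q := by
  intro m
  change f (m + q) * g (m + q) = f m * g m
  rw [h1 m, h2 m]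

theorem per_add {f g : ℕ → ℝ} {q : ℕ} (h1 : Periodic f q) (h2 : Periodic g q) : Periodic (fun m => f m + g m) q := by
  intro m
  change f (m + q) + g (m + q) = f m + g m
  rw [h1 m, h2 m]

theorem per_sum {ι : Type} {s : Finset ι} {f : ι → ℕ → ℝ} {q : ℕ} (h : ∀ i ∈ s, Periodic (f i) q) :
    Periodic (fun m => ∑ i ∈ s, f i m) q := by
  intro m
  change ∑ i ∈ s, f i (m + q) = ∑ i ∈ s, f i m
  exact sum_congr rfl fun i hi => h i hi m

theorem per_prod {ι : Type} {s : Finset ι} {f : ι → ℕ → ℝ} {q : ℕ} (h : ∀ i ∈ s, Periodic (f i) q) :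
    Periodic (fun m => ∏ i ∈ s, f i m) q := by
  intro m
  change ∏ i ∈ s, f i (m + q) = ∏ i ∈ s, f i m
  exact prod_congr rfl fun i hi => h i hi m

theorem per_comp {f : ℕ → ℝ} {q : ℕ} (h : Periodic f q) (F : ℝ → ℝ) : Periodic (fun m => F (f m)) q := by
  intro m
  change F (f (m + q)) = F (f m)
  rw [h m]

/-- Independence for several coprime moduli. -/
theorem av_prod {ι : Type} [DecidableEq ι] {s : Finset ι} {q : ι → ℕ} {f : ι → ℕ → ℝ} (hf : ∀ i ∈ s, Periodic (f i) (q i))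
    (hq : ∀ i ∈ s, 0 < q i) (hc : ∀ i ∈ s, ∀ j ∈ s, i ≠ j → Nat.Coprime (q i) (q j)) :
    av (∏ i ∈ s, q i) (fun m => ∏ i ∈ s, f i m) = ∏ i ∈ s, av (q i) (f i) := by
  induction s using Finset.induction_on with
  | empty =>
    simp only [prod_empty]
    exact av_const one_pos 1
  | insert a s ha ih =>
    rw [prod_insert ha, prod_insert ha]
    have h1 : ∀ m, ∏ i ∈ insert a s, f i m = f a m * ∏ i ∈ s, f i m := fun m => prod_insert ha
    simp only [h1]
    have hcop : Nat.Coprime (q a) (∏ i ∈ s, q i) := by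
      refine Nat.Coprime.prod_right fun i hi => ?_
      exact hc a (mem_insert_self a s) i (mem_insert_of_mem hi) (fun h => ha (h ▸ hi))
    have hper : Periodic (fun m => ∏ i ∈ s, f i m) (∏ i ∈ s, q i) := by
      refine per_prod fun i hi => per_of_dvd (hf i (mem_insert_of_mem hi)) (dvd_prod_of_mem q hi)
    rw [av_indep (hf a (mem_insert_self a s)) hper hcop (hq a (mem_insert_self a s))
      (prod_pos fun i hi => hq i (mem_insert_of_mem hi)),
      ih (fun i hi => hf i (mem_insert_of_mem hi)) (fun i hi => hq i (mem_insert_of_mem hi))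
        (fun i hi j hj => hc i (mem_insert_of_mem hi) j (mem_insert_of_mem hj))]

/-- Independence, with a common period `Q`. -/
theorem av_prod' {ι : Type} [DecidableEq ι] {s : Finset ι} {q : ι → ℕ} {f : ι → ℕ → ℝ} {Q : ℕ} (hQ : 0 < Q)
    (hf : ∀ i ∈ s, Periodic (f i) (q i)) (hqQ : ∀ i ∈ s, q i ∣ Q)
    (hc : ∀ i ∈ s, ∀ j ∈ s, i ≠ j → Nat.Coprime (q i) (q j)) :
    av Q (fun m => ∏ i ∈ s, f i m) = ∏ i ∈ s, av Q (f i) := by
  have hq : ∀ i ∈ s, 0 < q i := fun i hi => Nat.pos_of_dvd_of_pos (hqQ i hi) hQ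
  have hdvd : (∏ i ∈ s, q i) ∣ Q := by
    refine Finset.prod_dvd_of_isRelPrime ?_ hqQ
    intro i hi j hj hij
    exact Nat.coprime_iff_isRelPrime.1 (hc i hi j hj hij)
  have hper : Periodic (fun m => ∏ i ∈ s, f i m) (∏ i ∈ s, q i) :=
    per_prod fun i hi => per_of_dvd (hf i hi) (dvd_prod_of_mem q hi)
  rw [av_of_dvd hper hdvd hQ, av_prod hf hq hc]
  exact prod_congr rfl fun i hi => (av_of_dvd (hf i hi) (hqQ i hi) hQ).symm

/-- Averages over intervals. -/
theorem sample {f : ℕ → ℝ} {q : ℕ} {b : ℝ} (h : Periodic f q) (hq : 0 < q) (hb : ∀ m, |f m| ≤ b) (a : ℕ) {N : ℕ} (hN : 0 < N) :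
    |(∑ m ∈ range N, f (a + m)) / N - av q f| ≤ 2 * b * q / N := by
  have hN0 : (0 : ℝ) < N := by exact_mod_cast hN
  have hq0 : (0 : ℝ) < q := by exact_mod_cast hq
  have hb0 : 0 ≤ b := (abs_nonneg _).trans (hb 0)
  set t := N / q with ht
  set r := N % q with hr
  have hNe : N = q * t + r := (Nat.div_add_mod N q).symm
  have hg : Periodic (fun m => f (a + m)) q := by
    intro m
    change f (a + (m + q)) = f (a + m)
    rw [← add_assoc]
    exact h _
  have e1 : ∑ m ∈ range N, f (a + m) = t * (q * av q f) + ∑ m ∈ range r, f (a + (q * t + m)) := by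
    rw [hNe, sum_range_add, sum_per hg, sum_shift h]
    unfold av
    rw [mul_div_cancel₀ _ hq0.ne']
  have e2 : |∑ m ∈ range r, f (a + (q * t + m))| ≤ r * b := by
    calc |∑ m ∈ range r, f (a + (q * t + m))| ≤ ∑ m ∈ range r, |f (a + (q * t + m))| := abs_sum_le_sum_abs _ _
      _ ≤ ∑ m ∈ range r, b := sum_le_sum fun m _ => hb _
      _ = r * b := by rw [sum_const, card_range, nsmul_eq_mul]
  have e3 : |av q f| ≤ b := av_abs_le hq hb
  have hrq : (r : ℝ) ≤ q := by exact_mod_cast (Nat.mod_lt N hq).le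
  have hr0 : (0 : ℝ) ≤ r := Nat.cast_nonneg _
  have e4 : (∑ m ∈ range N, f (a + m)) / N - av q f = (∑ m ∈ range r, f (a + (q * t + m)) - r * av q f) / N := by
    rw [e1]
    have : (N : ℝ) = q * t + r := by rw [hNe]; push_cast; ring
    rw [eq_div_iff hN0.ne', sub_mul, div_mul_cancel₀ _ hN0.ne', this]
    ring
  rw [e4, abs_div, abs_of_pos hN0]
  gcongr
  calc |∑ m ∈ range r, f (a + (q * t + m)) - r * av q f| ≤ |∑ m ∈ range r, f (a + (q * t + m))| + |r * av q f| := abs_sub _ _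
    _ ≤ r * b + r * b := by
        rw [abs_mul, abs_of_nonneg hr0]
        gcongr
    _ ≤ 2 * b * q := by nlinarith

/-- Sums of periodic functions with periods `≤ R` dividing `Q`; the sum of the sup norms is `a`. -/
inductive Dec (Q : ℕ) : ℝ → ℕ → (ℕ → ℝ) → Prop
  | base {a : ℝ} {R q : ℕ} {φ : ℕ → ℝ} (hq : q ∣ Q) (hR : q ≤ R) (hp : Periodic φ q) (hb : ∀ m, |φ m| ≤ a) : Dec Q a R φ
  | add {a b : ℝ} {R : ℕ} {φ ψ : ℕ → ℝ} (h1 : Dec Q a R φ) (h2 : Dec Q b R ψ) : Dec Q (a + b) R (fun m => φ m + ψ m)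

theorem Dec.periodic {Q : ℕ} {a : ℝ} {R : ℕ} {φ : ℕ → ℝ} (h : Dec Q a R φ) : Periodic φ Q := by
  induction h with
  | base hq _ hp _ => exact per_of_dvd hp hq
  | add _ _ ih1 ih2 => exact per_add ih1 ih2

theorem Dec.nonneg {Q : ℕ} {a : ℝ} {R : ℕ} {φ : ℕ → ℝ} (h : Dec Q a R φ) : 0 ≤ a := by
  induction h with
  | base _ _ _ hb => exact (abs_nonneg _).trans (hb 0)
  | add _ _ ih1 ih2 => linarith

theorem Dec.mono {Q : ℕ} {a b : ℝ} {R S : ℕ} {φ : ℕ → ℝ} (h : Dec Q a R φ) (hab : a ≤ b) (hRS : R ≤ S) : Dec Q b S φ := by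
  induction h generalizing b with
  | base hq hR hp hb => exact Dec.base hq (hR.trans hRS) hp fun m => (hb m).trans hab
  | @add a' b' R' φ' ψ' h1 h2 ih1 ih2 =>
    have h3 := ih1 (b := a') (le_refl _) hRS
    have h4 := ih2 (b := b - a') (by linarith) hRS
    have h5 := Dec.add h3 h4
    rwa [add_sub_cancel] at h5

theorem Dec.mul {Q : ℕ} {a b : ℝ} {R S : ℕ} {φ ψ : ℕ → ℝ} (h1 : Dec Q a R φ) (h2 : Dec Q b S ψ) :
    Dec Q (a * b) (R * S) (fun m => φ m * ψ m) := by
  induction h1 with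
  | @base a R q φ hq hqR hp hb =>
    have ha : 0 ≤ a := (abs_nonneg _).trans (hb 0)
    induction h2 with
    | @base b S q' ψ hq' hS hp' hb' =>
      refine Dec.base (q := Nat.lcm q q') (Nat.lcm_dvd hq hq') ?_
        (per_mul (per_of_dvd hp (Nat.dvd_lcm_left q q')) (per_of_dvd hp' (Nat.dvd_lcm_right q q'))) fun m => ?_
      · calc Nat.lcm q q' ≤ q * q' := by
              rcases Nat.eq_zero_or_pos (q * q') with h0 | h0
              · rw [h0]
                rcases Nat.mul_eq_zero.1 h0 with h | h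
                · rw [h]; simp
                · rw [h]; simp
              · exact Nat.le_of_dvd h0 (Nat.lcm_dvd_mul q q')
          _ ≤ R * S := Nat.mul_le_mul hqR hS
      · rw [abs_mul]
        exact mul_le_mul (hb m) (hb' m) (abs_nonneg _) ha
    | @add b b' S ψ ψ' _ _ ih1 ih2 =>
      have h3 := Dec.add ih1 ih2
      rw [mul_add]
      simp only [mul_add]
      exact h3
  | @add a a' R φ φ' _ _ ih1 ih2 =>
    have h3 := Dec.add ih1 ih2
    rw [add_mul]
    simp only [add_mul]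
    exact h3

theorem Dec.const (Q : ℕ) (c : ℝ) : Dec Q |c| 1 (fun _ => c) :=
  Dec.base (q := 1) (one_dvd Q) (le_refl 1) (fun _ => rfl) (fun _ => le_refl _)

theorem Dec.smul {Q : ℕ} {a : ℝ} {R : ℕ} {φ : ℕ → ℝ} (h : Dec Q a R φ) (c : ℝ) : Dec Q (|c| * a) R (fun m => c * φ m) := by
  have := Dec.mul (Dec.const Q c) h
  rwa [one_mul] at this

theorem Dec.sum {Q : ℕ} {ι : Type} {s : Finset ι} {a : ι → ℝ} {R : ℕ} (hR : 1 ≤ R) {φ : ι → ℕ → ℝ}
    (h : ∀ i ∈ s, Dec Q (a i) R (φ i)) : Dec Q (∑ i ∈ s, a i) R (fun m => ∑ i ∈ s, φ i m) := by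
  classical
  induction s using Finset.induction_on with
  | empty =>
    simp only [sum_empty]
    have := Dec.const Q 0
    rw [abs_zero] at this
    exact this.mono (le_refl _) hR
  | insert i s hi ih =>
    simp only [sum_insert hi]
    exact Dec.add (h i (mem_insert_self i s)) (ih fun j hj => h j (mem_insert_of_mem hj))

theorem Dec.prod {Q : ℕ} {ι : Type} {s : Finset ι} {a : ℝ} {R : ℕ} {φ : ι → ℕ → ℝ}
    (h : ∀ i ∈ s, Dec Q a R (φ i)) : Dec Q (a ^ s.card) (R ^ s.card) (fun m => ∏ i ∈ s, φ i m) := by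
  classical
  induction s using Finset.induction_on with
  | empty =>
    simp only [prod_empty, card_empty, pow_zero]
    have := Dec.const Q 1
    rwa [abs_one] at this
  | insert i s hi ih =>
    simp only [prod_insert hi, card_insert_of_notMem hi, pow_succ']
    exact Dec.mul (h i (mem_insert_self i s)) (ih fun j hj => h j (mem_insert_of_mem hj))

theorem Dec.pow {Q : ℕ} {a : ℝ} {R : ℕ} {φ : ℕ → ℝ} (h : Dec Q a R φ) (n : ℕ) : Dec Q (a ^ n) (R ^ n) (fun m => φ m ^ n) := by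
  have := Dec.prod (s := range n) (φ := fun _ => φ) (fun _ _ => h)
  simpa using this

theorem Dec.sample {Q : ℕ} (hQ : 0 < Q) {a : ℝ} {R : ℕ} {φ : ℕ → ℝ} (h : Dec Q a R φ) (c : ℕ) {N : ℕ} (hN : 0 < N) :
    |(∑ m ∈ range N, φ (c + m)) / N - av Q φ| ≤ 2 * a * R / N := by
  induction h with
  | @base a R q φ hq hR hp hb =>
    have hq0 : 0 < q := Nat.pos_of_dvd_of_pos hq hQ
    have ha : 0 ≤ a := (abs_nonneg _).trans (hb 0)
    rw [av_of_dvd hp hq hQ]
    refine (LCB.sample hp hq0 hb c hN).trans ?_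
    have : (q : ℝ) ≤ R := by exact_mod_cast hR
    gcongr
  | @add a b R φ ψ _ _ ih1 ih2 =>
    rw [sum_add_distrib, av_add]
    have e : (∑ m ∈ range N, φ (c + m) + ∑ m ∈ range N, ψ (c + m)) / (N : ℝ) - (av Q φ + av Q ψ) =
        ((∑ m ∈ range N, φ (c + m)) / N - av Q φ) + ((∑ m ∈ range N, ψ (c + m)) / N - av Q ψ) := by ring
    rw [e]
    refine (abs_add_le _ _).trans ?_
    have : 2 * (a + b) * R / (N : ℝ) = 2 * a * R / N + 2 * b * R / N := by ring
    rw [this]
    exact add_le_add ih1 ih2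

end LCB
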