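import Pool.Agent.LCB.Num

/-!
# LCB, part I: the drift
-/

set_option autoImplicit false

namespace LCB

open Finset Function ArithmeticFunction Filter Topology

theorem sq_mono {j J : ℕ} (hj : 2 ≤ j) (hJ : j ≤ J) : (J + 1) ^ 2 * 2 ^ j ≤ (j + 1) ^ 2 * 2 ^ J := by
  induction J, hJ using Nat.le_induction with
  | base => exact le_refl _
  | succ J hJ ih =>
    have h1 : (J + 1 + 1) ^ 2 ≤ 2 * (J + 1) ^ 2 := by
      have : 2 ≤ J := hj.trans hJ
      nlinarith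
    calc (J + 1 + 1) ^ 2 * 2 ^ j ≤ 2 * (J + 1) ^ 2 * 2 ^ j := Nat.mul_le_mul_right _ h1
      _ = 2 * ((J + 1) ^ 2 * 2 ^ j) := by ring
      _ ≤ 2 * ((j + 1) ^ 2 * 2 ^ J) := Nat.mul_le_mul_left _ ih
      _ = _ := by rw [pow_succ]; ring

theorem sum_cl {S : Finset ℕ} {ι : Type} [DecidableEq ι] (g : ℕ → ι) (f : ℕ → ℝ) :
    ∑ γ ∈ S.image g, ∑ p ∈ cl S g γ, f p = ∑ p ∈ S, f p := by
  unfold cl
  exact sum_fiberwise_of_maps_to (fun p hp => mem_image_of_mem g hp) f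

/-- The total tilted mean. -/
noncomputable def muT (c j0 K k : ℕ) : ℝ := ∑ γ ∈ (SS j0 K).image (gi c), mug (QQ j0 K) (SS j0 K) (gi c) (sg c) k γ

theorem SS_filter {j0 K k : ℕ} (hk : k ≤ K) : (SS j0 K).filter (fun p => p ≤ k) = pr (2 ^ j0) k := by
  ext p
  rw [mem_filter, mem_SS, mem_pr]
  constructor
  · rintro ⟨⟨⟨h1, _⟩, h2⟩, h3⟩
    exact ⟨⟨h1, h3⟩, h2⟩
  · rintro ⟨⟨h1, h3⟩, h2⟩
    exact ⟨⟨⟨h1, h3.trans hk⟩, h2⟩, h3⟩

theorem Yk_eq {c j0 K k : ℕ} (hk : k ≤ K) (n : ℕ) :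
    Yk (QQ j0 K) (SS j0 K) (gi c) (sg c) k n = ∑ p ∈ pr (2 ^ j0) k, Real.log p * X p k n - muT c j0 K k := by
  unfold Yk muT
  rw [sum_sub_distrib]
  congr 1
  unfold be
  rw [sum_cl (gi c) (fun p => xi k p n), ← SS_filter hk, sum_filter]
  rfl

theorem muT_ge {b j0 K k : ℕ} (hb : 0 < b) (hj0 : 2 ≤ j0) (hj : ∀ j, j0 ≤ j → b ^ 2 * (j + 1) ^ 2 ≤ 2 ^ j) (hk0 : 0 < k)
    (hk : k ≤ K) :
    (1 / 2) * (b * ((Nat.log 2 k : ℝ) + 1) / √(k : ℝ)) * ∑ p ∈ pr (2 ^ j0) k, Real.log p * tt k p ≤ muT (b ^ 2) j0 K k := by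
  have hc : 0 < b ^ 2 := by positivity
  have H := sys (K := K) hc hj
  have hk1 : (0 : ℝ) < k := by exact_mod_cast hk0
  have hsk : 0 < √(k : ℝ) := Real.sqrt_pos.2 hk1
  set J := Nat.log 2 k with hJ
  have h1 : ∑ γ ∈ (SS j0 K).image (gi (b ^ 2)), (1 / 2) * (√(sg (b ^ 2) γ : ℝ))⁻¹ *
      ∑ p ∈ cl (SS j0 K) (gi (b ^ 2)) γ, (if p ≤ k then Real.log p * tt k p else 0) ≤ muT (b ^ 2) j0 K k :=
    sum_le_sum fun γ hγ => H.mug_ge k hγ
  refine le_trans ?_ h1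
  have h2 : ∑ γ ∈ (SS j0 K).image (gi (b ^ 2)), (1 / 2) * (√(sg (b ^ 2) γ : ℝ))⁻¹ *
      ∑ p ∈ cl (SS j0 K) (gi (b ^ 2)) γ, (if p ≤ k then Real.log p * tt k p else 0) =
      ∑ p ∈ SS j0 K, (1 / 2) * (√(sg (b ^ 2) (gi (b ^ 2) p) : ℝ))⁻¹ * (if p ≤ k then Real.log p * tt k p else 0) := by
    rw [← sum_cl (gi (b ^ 2))]
    refine sum_congr rfl fun γ _ => ?_
    rw [mul_sum]
    refine sum_congr rfl fun p hp => ?_
    rw [(mem_cl.1 hp).2]
  rw [h2, ← SS_filter hk, sum_filter, mul_sum]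
  refine sum_le_sum fun p hp => ?_
  by_cases hpk : p ≤ k
  · rw [if_pos hpk]
    have hp2 := (mem_SS.1 hp).2
    have h3 : 0 ≤ Real.log p * tt k p := mul_nonneg (Real.log_nonneg (by exact_mod_cast hp2.one_lt.le)) (tt_nonneg k p)
    refine mul_le_mul_of_nonneg_right ?_ h3
    have h4 : sg (b ^ 2) (gi (b ^ 2) p) = ss (b ^ 2) (Nat.log 2 p) := rfl
    rw [h4]
    set j := Nat.log 2 p with hjp
    have hjj0 : j0 ≤ j := log_SS hp
    have hjJ : j ≤ J := Nat.log_mono_right hpk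
    have hs : 0 < ss (b ^ 2) j := ss_pos hc (hj j hjj0)
    have hs1 : (0 : ℝ) < ss (b ^ 2) j := by exact_mod_cast hs
    have h5 : ss (b ^ 2) j * (b ^ 2 * (J + 1) ^ 2) ≤ k := by
      have a1 := ss_mul_le (b ^ 2) j
      have a2 := sq_mono (hj0.trans hjj0) hjJ
      have a3 : ss (b ^ 2) j * (b ^ 2 * (J + 1) ^ 2) * 2 ^ j ≤ 2 ^ J * 2 ^ j := by
        calc ss (b ^ 2) j * (b ^ 2 * (J + 1) ^ 2) * 2 ^ j = ss (b ^ 2) j * b ^ 2 * ((J + 1) ^ 2 * 2 ^ j) := by ring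
          _ ≤ ss (b ^ 2) j * b ^ 2 * ((j + 1) ^ 2 * 2 ^ J) := Nat.mul_le_mul_left _ a2
          _ = ss (b ^ 2) j * (b ^ 2 * (j + 1) ^ 2) * 2 ^ J := by ring
          _ ≤ 2 ^ j * 2 ^ J := Nat.mul_le_mul_right _ a1
          _ = _ := by ring
      have a4 := Nat.le_of_mul_le_mul_right a3 (by positivity)
      exact a4.trans (Nat.pow_log_le_self 2 hk0.ne')
    have h6 : (b : ℝ) * ((J : ℝ) + 1) * √(ss (b ^ 2) j : ℝ) ≤ √(k : ℝ) := by
      apply Real.le_sqrt_of_sq_le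
      rw [mul_pow, Real.sq_sqrt hs1.le]
      have : ((ss (b ^ 2) j * (b ^ 2 * (J + 1) ^ 2) : ℕ) : ℝ) ≤ (k : ℝ) := by exact_mod_cast h5
      push_cast at this
      refine le_trans (le_of_eq ?_) this
      ring
    have h7 : (b : ℝ) * ((J : ℝ) + 1) / √(k : ℝ) ≤ (√(ss (b ^ 2) j : ℝ))⁻¹ := by
      rw [← one_div, div_le_div_iff₀ hsk (Real.sqrt_pos.2 hs1), one_mul]
      exact h6
    gcongr
  · rw [if_neg hpk, mul_zero, mul_zero]

theorem sum_tt_ge {y k : ℕ} (hyk : y ≤ k) :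
    ∑ d ∈ Icc 1 k, Λ d * tt k d - (1 / 4) * Chebyshev.theta (y : ℝ) - (1 / 4) * (Chebyshev.psi (k : ℝ) - Chebyshev.theta (k : ℝ)) ≤
      ∑ p ∈ pr y k, Real.log p * tt k p := by
  have e0 : Icc 1 k = Ioc 0 k := by ext d; simp only [mem_Icc, mem_Ioc]; omega
  have h1 : ∑ d ∈ Icc 1 k, Λ d * tt k d = ∑ d ∈ (Ioc 0 k).filter Nat.Prime, Λ d * tt k d +
      ∑ d ∈ (Ioc 0 k).filter (fun d => ¬ d.Prime), Λ d * tt k d := by
    rw [e0, sum_filter_add_sum_filter_not]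
  have h2 : ∑ d ∈ (Ioc 0 k).filter (fun d => ¬ d.Prime), Λ d * tt k d ≤
      (1 / 4) * (Chebyshev.psi (k : ℝ) - Chebyshev.theta (k : ℝ)) := by
    rw [Chebyshev.psi_sub_theta_eq_sum_not_prime, Nat.floor_natCast, mul_sum]
    refine sum_le_sum fun d _ => ?_
    have a1 := tt_le k d
    have a2 := vonMangoldt_nonneg (n := d)
    nlinarith
  have h3 : ∑ d ∈ (Ioc 0 k).filter Nat.Prime, Λ d * tt k d = ∑ d ∈ (Ioc 0 y).filter Nat.Prime, Λ d * tt k d +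
      ∑ d ∈ pr y k, Λ d * tt k d := by
    rw [← sum_union]
    · congr 1
      ext d
      rw [mem_union, mem_pr, mem_filter, mem_filter, mem_Ioc, mem_Ioc]
      constructor
      · rintro ⟨h4, h5⟩
        rcases le_or_gt d y with h6 | h6
        · exact Or.inl ⟨⟨h4.1, h6⟩, h5⟩
        · exact Or.inr ⟨⟨h6, h4.2⟩, h5⟩
      · rintro (⟨h4, h5⟩ | ⟨h4, h5⟩)
        · exact ⟨⟨h4.1, h4.2.trans hyk⟩, h5⟩
        · exact ⟨⟨h5.pos, h4.2⟩, h5⟩
    · rw [disjoint_left]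
      intro d hd hd'
      rw [mem_filter, mem_Ioc] at hd
      rw [mem_pr] at hd'
      omega
  have h4 : ∑ d ∈ (Ioc 0 y).filter Nat.Prime, Λ d * tt k d ≤ (1 / 4) * Chebyshev.theta (y : ℝ) := by
    unfold Chebyshev.theta
    rw [Nat.floor_natCast, mul_sum]
    refine sum_le_sum fun d hd => ?_
    rw [mem_filter] at hd
    rw [vonMangoldt_apply_prime hd.2]
    have a1 := tt_le k d
    have a2 : 0 ≤ Real.log d := Real.log_nonneg (by exact_mod_cast hd.2.one_lt.le)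
    nlinarith
  have h5 : ∑ d ∈ pr y k, Λ d * tt k d = ∑ p ∈ pr y k, Real.log p * tt k p := by
    refine sum_congr rfl fun p hp => ?_
    rw [vonMangoldt_apply_prime (mem_pr.1 hp).2]
  linarith

theorem natlog_le {k : ℕ} (hk : 1 ≤ k) : (Nat.log 2 k : ℝ) + 1 ≤ 2 * Real.log k + 1 := by
  have h1 : ((2 ^ Nat.log 2 k : ℕ) : ℝ) ≤ k := by exact_mod_cast Nat.pow_log_le_self 2 (by omega)
  push_cast at h1
  have h2 := Real.log_le_log (by positivity) h1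
  rw [Real.log_pow] at h2
  have h3 : 1 / 2 ≤ Real.log 2 := by
    have := Real.log_two_gt_d9
    linarith
  have h4 : (0 : ℝ) ≤ (Nat.log 2 k : ℝ) := Nat.cast_nonneg _
  nlinarith

theorem log_le_natlog {k : ℕ} (hk : 1 ≤ k) : Real.log k ≤ (Nat.log 2 k : ℝ) + 1 := log_le_lg (by omega)

theorem ev_two_pow (c : ℕ) : ∃ j1 : ℕ, ∀ j, j1 ≤ j → c * (j + 1) ^ 2 ≤ 2 ^ j := by
  have h1 : Tendsto (fun n : ℕ => (n : ℝ) ^ 2 / (2 : ℝ) ^ n) atTop (𝓝 0) :=
    tendsto_pow_const_div_const_pow_of_one_lt 2 (by norm_num)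
  have h2 : ∀ᶠ n : ℕ in atTop, (n : ℝ) ^ 2 / (2 : ℝ) ^ n < 1 / (2 * (c + 1)) := h1.eventually_lt_const (by positivity)
  obtain ⟨j1, hj1⟩ := eventually_atTop.1 h2
  refine ⟨j1, fun j hj => ?_⟩
  have h3 := hj1 (j + 1) (by omega)
  rw [div_lt_div_iff₀ (by positivity) (by positivity), one_mul, pow_succ (2 : ℝ) j] at h3
  have h4 : (c : ℝ) * ((j : ℝ) + 1) ^ 2 ≤ 2 ^ j := by
    push_cast at h3
    have : 0 ≤ ((j : ℝ) + 1) ^ 2 := by positivity
    nlinarith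
  exact_mod_cast h4

/-- The choice of the constants. -/
theorem constants (C1 : ℝ) (hC1 : 0 ≤ C1) : ∃ b j0 : ℕ, 0 < b ∧ 2 ≤ j0 ∧ (∀ j, j0 ≤ j → b ^ 2 * (j + 1) ^ 2 ≤ 2 ^ j) ∧
    ∀ k K : ℕ, 2 ^ j0 < k → k ≤ K →
      Real.log k + (Chebyshev.psi (k : ℝ) - Chebyshev.theta (k : ℝ)) - Chebyshev.psi ((2 ^ j0 : ℕ) : ℝ) +
        C1 * √(k : ℝ) * ((Nat.log 2 k : ℝ) + 1) ≤ muT (b ^ 2) j0 K k := by
  obtain ⟨C, hC⟩ := Chebyshev.psi_sub_theta_le_mul_sqrt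
  have hC0 : 0 ≤ C := by
    have h1 := hC 1
    rw [Real.sqrt_one, mul_one] at h1
    have h2 := Chebyshev.theta_le_psi 1
    linarith
  set b := ⌈200 * (1 + C + C1)⌉₊ with hb
  have hb1 : 200 * (1 + C + C1) ≤ b := Nat.le_ceil _
  have hb0 : 0 < b := by
    have : (0 : ℝ) < b := by nlinarith
    exact_mod_cast this
  obtain ⟨j1, hj1⟩ := ev_two_pow (b ^ 2)
  -- eventual inequalities
  have ev1 : ∀ᶠ k : ℕ in atTop, C * √(k : ℝ) ≤ (1 / 50) * k := by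
    have h1 : ∀ᶠ k : ℕ in atTop, ((50 * C) ^ 2 : ℝ) ≤ k := tendsto_natCast_atTop_atTop.eventually_ge_atTop _
    filter_upwards [h1] with k hk
    have h2 : 50 * C ≤ √(k : ℝ) := Real.le_sqrt_of_sq_le hk
    have h3 : √(k : ℝ) * √(k : ℝ) = k := Real.mul_self_sqrt (Nat.cast_nonneg k)
    have h4 := Real.sqrt_nonneg (k : ℝ)
    nlinarith
  have ev2 : ∀ᶠ k : ℕ in atTop, Real.log k + C * √(k : ℝ) + C1 * √(k : ℝ) * (2 * Real.log k + 1) ≤
      (k : ℝ) / 100 * Real.log 2 - Real.log (k + 1) := by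
    have h1 : (fun x : ℝ => Real.log x) =o[atTop] fun x => x ^ (1 / 4 : ℝ) := isLittleO_log_rpow_atTop (by norm_num)
    have h2 : ∀ᶠ x : ℝ in atTop, Real.log x ≤ x ^ (1 / 4 : ℝ) := by
      have := h1.bound (c := 1) one_pos
      filter_upwards [this, eventually_ge_atTop 1] with x hx hx1
      rw [one_mul, Real.norm_of_nonneg (Real.log_nonneg hx1), Real.norm_of_nonneg (by positivity)] at hx
      exact hx
    have h3 : ∀ᶠ k : ℕ in atTop, Real.log (k : ℝ) ≤ (k : ℝ) ^ (1 / 4 : ℝ) := tendsto_natCast_atTop_atTop.eventually h2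
    have h4 : ∀ᶠ k : ℕ in atTop, (100 * 2 * (4 + C + 3 * C1)) ≤ (k : ℝ) ^ (1 / 4 : ℝ) :=
      ((tendsto_rpow_atTop (by norm_num : (0 : ℝ) < 1 / 4)).comp tendsto_natCast_atTop_atTop).eventually_ge_atTop _
    filter_upwards [h3, h4, eventually_ge_atTop 1] with k h3 h4 hk1
    have hk0 : (1 : ℝ) ≤ k := by exact_mod_cast hk1
    set t := (k : ℝ) ^ (1 / 4 : ℝ) with ht
    have ht1 : 1 ≤ t := Real.one_le_rpow hk0 (by norm_num)
    have e1 : √(k : ℝ) = t ^ 2 := by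
      rw [ht, Real.sqrt_eq_rpow, ← Real.rpow_natCast, ← Real.rpow_mul (by positivity)]
      norm_num
    have e2 : (k : ℝ) = t ^ 4 := by
      rw [ht, ← Real.rpow_natCast, ← Real.rpow_mul (by positivity)]
      norm_num
    have h5 : Real.log ((k : ℝ) + 1) ≤ t + 1 := by
      have h6 : (k : ℝ) + 1 ≤ Real.exp 1 * k := by
        have := Real.exp_one_gt_d9
        nlinarith
      have h7 := Real.log_le_log (by positivity) h6
      rw [Real.log_mul (by positivity) (by positivity), Real.log_exp] at h7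
      linarith
    have h8 : 1 / 2 ≤ Real.log 2 := by
      have := Real.log_two_gt_d9
      linarith
    have h9 : t ^ 4 / 100 * (1 / 2) ≤ (k : ℝ) / 100 * Real.log 2 := by
      rw [e2]; gcongr
    rw [e1]
    have t2 : t ≤ t ^ 2 := by nlinarith
    have t3 : t ^ 2 ≤ t ^ 3 := by nlinarith [sq_nonneg t]
    have h10 : Real.log k + C * t ^ 2 + C1 * t ^ 2 * (2 * Real.log k + 1) + (t + 1) ≤ (4 + C + 3 * C1) * t ^ 3 := by
      have a1 : C1 * t ^ 2 * (2 * Real.log k + 1) ≤ C1 * t ^ 2 * (3 * t) := by gcongr; linarith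
      have a2 : C * t ^ 2 ≤ C * t ^ 3 := mul_le_mul_of_nonneg_left t3 hC0
      nlinarith
    have h11 : (4 + C + 3 * C1) * t ^ 3 ≤ t ^ 4 / 100 * (1 / 2) := by
      have h12 : (200 * (4 + C + 3 * C1)) * t ^ 3 ≤ t * t ^ 3 := by
        have : 0 ≤ t ^ 3 := by positivity
        have h4' : 200 * (4 + C + 3 * C1) ≤ t := by linarith
        exact mul_le_mul_of_nonneg_right h4' this
      have h13 : t * t ^ 3 = t ^ 4 := by ring
      linarith
    linarith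
  obtain ⟨k1, hk1⟩ := eventually_atTop.1 (ev1.and (ev2.and drift_ev))
  set j0 := max (max j1 2) k1 with hj0
  refine ⟨b, j0, hb0, (le_max_right j1 2).trans (le_max_left _ _), fun j hj => hj1 j ?_, ?_⟩
  · exact (le_max_left j1 2).trans ((le_max_left _ _).trans hj)
  · intro k K hk hkK
    have hk1' : k1 ≤ k := by
      have a1 : k1 ≤ j0 := le_max_right _ _
      have a2 : j0 < 2 ^ j0 := Nat.lt_two_pow_self
      omega
    obtain ⟨E1, E2, E3⟩ := hk1 k hk1'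
    have hk0 : 0 < k := lt_of_le_of_lt (Nat.zero_le _) hk
    have hkr : (0 : ℝ) < k := by exact_mod_cast hk0
    have hsk : 0 < √(k : ℝ) := Real.sqrt_pos.2 hkr
    have hjj : ∀ j, j0 ≤ j → b ^ 2 * (j + 1) ^ 2 ≤ 2 ^ j := fun j hj =>
      hj1 j ((le_max_left j1 2).trans ((le_max_left _ _).trans hj))
    have hmu := muT_ge hb0 ((le_max_right j1 2).trans (le_max_left _ _)) hjj hk0 hkK
    have hψθ : Chebyshev.psi (k : ℝ) - Chebyshev.theta (k : ℝ) ≤ C * √(k : ℝ) := hC k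
    have hψ0 : 0 ≤ Chebyshev.psi ((2 ^ j0 : ℕ) : ℝ) := Chebyshev.psi_nonneg _
    set y := 2 ^ j0 with hy
    set J := Nat.log 2 k with hJ
    have hJ0 : (0 : ℝ) ≤ (J : ℝ) := Nat.cast_nonneg _
    have hs0 : 0 ≤ ∑ p ∈ pr y k, Real.log p * tt k p := by
      refine sum_nonneg fun p hp => ?_
      exact mul_nonneg (Real.log_nonneg (by exact_mod_cast (mem_pr.1 hp).2.one_lt.le)) (tt_nonneg k p)
    have hJle := natlog_le (k := k) hk0
    have hlog := log_le_natlog (k := k) hk0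
    rw [← hJ] at hJle hlog
    rcases le_or_gt (100 * y) k with h100 | h100
    · have h1 := sum_tt_ge (y := y) (k := k) hk.le
      have h2 : Chebyshev.theta (y : ℝ) ≤ Real.log 4 * y := Chebyshev.theta_le_log4_mul_x (Nat.cast_nonneg y)
      have h3 : Real.log 4 ≤ 7 / 5 := by
        rw [show (4 : ℝ) = 2 ^ 2 by norm_num, Real.log_pow]
        have := Real.log_two_lt_d9
        push_cast
        linarith
      have h4 : (100 : ℝ) * y ≤ k := by exact_mod_cast h100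
      have h5 : (0 : ℝ) ≤ y := Nat.cast_nonneg y
      have h6 : (1 / 100) * (k : ℝ) ≤ ∑ p ∈ pr y k, Real.log p * tt k p := by
        nlinarith
      have h7 : (b : ℝ) * ((J : ℝ) + 1) * √(k : ℝ) / 200 ≤ muT (b ^ 2) j0 K k := by
        refine le_trans ?_ hmu
        have h8 : (b : ℝ) * ((J : ℝ) + 1) * √(k : ℝ) / 200 = (1 / 2) * (b * ((J : ℝ) + 1) / √(k : ℝ)) * ((1 / 100) * (k : ℝ)) := by
          have : (k : ℝ) = √(k : ℝ) * √(k : ℝ) := (Real.mul_self_sqrt hkr.le).symm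
          rw [this]
          field_simp
          rw [Real.sqrt_sq hsk.le]
          ring
        rw [h8]
        gcongr
      have h9 : (1 + C + C1) * (((J : ℝ) + 1) * √(k : ℝ)) ≤ (b : ℝ) * ((J : ℝ) + 1) * √(k : ℝ) / 200 := by
        have h10 : 0 ≤ ((J : ℝ) + 1) * √(k : ℝ) := by positivity
        nlinarith
      have h11 : Real.log k ≤ ((J : ℝ) + 1) * √(k : ℝ) := by
        have h12 : 1 ≤ √(k : ℝ) := Real.one_le_sqrt.2 (by exact_mod_cast hk0)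
        nlinarith
      have h13 : C * √(k : ℝ) ≤ C * (((J : ℝ) + 1) * √(k : ℝ)) := by
        refine mul_le_mul_of_nonneg_left ?_ hC0
        nlinarith
      nlinarith
    · have h1 : 0 ≤ muT (b ^ 2) j0 K k := le_trans (by positivity) hmu
      have h2 := Chebyshev.psi_ge y
      have h3 : (k : ℝ) / 100 ≤ y := by
        have : (k : ℝ) ≤ 100 * y := by exact_mod_cast h100.le
        linarith
      have h4 : (y : ℝ) ≤ k := by exact_mod_cast hk.le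
      have h5 : Real.log ((y : ℝ) + 1) ≤ Real.log ((k : ℝ) + 1) := Real.log_le_log (by positivity) (by linarith)
      have hl2 : 0 < Real.log 2 := Real.log_pos (by norm_num)
      have h6 : (k : ℝ) / 100 * Real.log 2 ≤ y * Real.log 2 := mul_le_mul_of_nonneg_right h3 hl2.le
      have h7 : C1 * √(k : ℝ) * ((J : ℝ) + 1) ≤ C1 * √(k : ℝ) * (2 * Real.log k + 1) := by gcongr
      linarith

end LCB
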