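import Pool.Agent.LCB.Red

/-!
# LCB, part B: lower bound for the sum of `Λ(d) t (1 - t)`, `t = {k / d}`
-/

set_option autoImplicit false

namespace LCB

open Finset ArithmeticFunction Filter Topology

theorem log_fact_le {n : ℕ} (hn : 1 ≤ n) :
    Real.log (n.factorial : ℝ) ≤ n * Real.log n - n + Real.log n + 1 := by
  induction n, hn using Nat.le_induction with
  | base => simp
  | succ n hn ih =>
    have hn0 : (0 : ℝ) < n := by exact_mod_cast hn
    have h1 : ((n + 1).factorial : ℝ) = ((n + 1 : ℕ) : ℝ) * (n.factorial : ℝ) := by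
      rw [Nat.factorial_succ]; push_cast; ring
    rw [h1, Real.log_mul (by positivity) (by positivity)]
    have h2 : 1 ≤ ((n : ℝ) + 1) * (Real.log ((n : ℝ) + 1) - Real.log n) := by
      have h3 := Real.log_le_sub_one_of_pos (x := (n : ℝ) / (n + 1)) (by positivity)
      rw [Real.log_div (by positivity) (by positivity)] at h3
      have h4 : (n : ℝ) / (n + 1) - 1 = - (1 / (n + 1)) := by field_simp; ring
      rw [h4] at h3
      have h5 : 1 / ((n : ℝ) + 1) ≤ Real.log ((n : ℝ) + 1) - Real.log n := by linarith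
      calc (1 : ℝ) = ((n : ℝ) + 1) * (1 / (n + 1)) := by field_simp
        _ ≤ _ := by gcongr
    push_cast
    nlinarith

theorem log_fact_ge {n : ℕ} (hn : 1 ≤ n) : n * Real.log n - n ≤ Real.log (n.factorial : ℝ) := by
  have h := Stirling.le_log_factorial_stirling (n := n) (by omega)
  have h1 : (0 : ℝ) ≤ Real.log n := Real.log_nonneg (by exact_mod_cast hn)
  have h2 : (0 : ℝ) ≤ Real.log (2 * Real.pi) := Real.log_nonneg (by nlinarith [Real.pi_gt_three])
  linarith

theorem log_choose_ge {v : ℕ} (hv : 1 ≤ v) :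
    (19 / 2 * Real.log 2) * v - Real.log (6 * v) - Real.log (4 * v) - 2 ≤
      Real.log (((10 * v).choose (4 * v) : ℕ) : ℝ) := by
  have hv0 : (0 : ℝ) < v := by exact_mod_cast hv
  have e1 : (((10 * v).choose (4 * v) : ℕ) : ℝ) * ((4 * v).factorial : ℝ) * ((6 * v).factorial : ℝ) =
      ((10 * v).factorial : ℝ) := by
    have := Nat.choose_mul_factorial_mul_factorial (n := 10 * v) (k := 4 * v) (by omega)
    have e : 10 * v - 4 * v = 6 * v := by omega
    rw [e] at this
    exact_mod_cast this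
  have hc : (0 : ℝ) < (((10 * v).choose (4 * v) : ℕ) : ℝ) := by
    exact_mod_cast Nat.choose_pos (by omega)
  have e2 : Real.log (((10 * v).choose (4 * v) : ℕ) : ℝ) = Real.log ((10 * v).factorial : ℝ) -
      Real.log ((4 * v).factorial : ℝ) - Real.log ((6 * v).factorial : ℝ) := by
    rw [← e1, Real.log_mul (by positivity) (by positivity), Real.log_mul (by positivity) (by positivity)]
    ring
  rw [e2]
  have h1 := log_fact_ge (n := 10 * v) (by omega)
  have h2 := log_fact_le (n := 4 * v) (by omega)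
  have h3 := log_fact_le (n := 6 * v) (by omega)
  push_cast at h1 h2 h3
  rw [Real.log_mul (by norm_num) (by positivity)] at h1
  have h2' : Real.log (4 * (v : ℝ)) = Real.log 4 + Real.log v := Real.log_mul (by norm_num) (by positivity)
  have h3' : Real.log (6 * (v : ℝ)) = Real.log 6 + Real.log v := Real.log_mul (by norm_num) (by positivity)
  rw [h2'] at h2
  rw [h3'] at h3
  rw [h2', h3']
  have h4 : 19 / 2 * Real.log 2 ≤ 10 * Real.log 10 - 6 * Real.log 6 - 4 * Real.log 4 := by
    have l10 : Real.log 10 = Real.log 2 + Real.log 5 := by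
      rw [← Real.log_mul (by norm_num) (by norm_num)]; norm_num
    have l6 : Real.log 6 = Real.log 2 + Real.log 3 := by
      rw [← Real.log_mul (by norm_num) (by norm_num)]; norm_num
    have l4 : Real.log 4 = 2 * Real.log 2 := by
      rw [show (4 : ℝ) = 2 ^ 2 by norm_num, Real.log_pow]; norm_num
    have l5 : 12 * Real.log 3 + 27 * Real.log 2 ≤ 20 * Real.log 5 := by
      have a1 : 12 * Real.log 3 = Real.log (3 ^ 12) := by rw [Real.log_pow]; norm_num
      have a2 : 27 * Real.log 2 = Real.log (2 ^ 27) := by rw [Real.log_pow]; norm_num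
      have a3 : 20 * Real.log 5 = Real.log (5 ^ 20) := by rw [Real.log_pow]; norm_num
      rw [a1, a2, a3, ← Real.log_mul (by norm_num) (by norm_num)]
      exact Real.log_le_log (by norm_num) (by norm_num)
    rw [l10, l6, l4]
    linarith
  nlinarith

/-- The Chebyshev type function. -/
theorem f_le {d k : ℕ} (hd : 1 ≤ d) (hdk : d ≤ k) :
    (((10 * k / 11) / d : ℕ) : ℝ) - ((6 * k / 11) / d : ℕ) - ((4 * k / 11) / d : ℕ) ≤
      (if 49 * d ≤ 10 * k then 1 else 0) +
        100 / 9 * ((((k % d : ℕ) : ℝ) / d) * (1 - ((k % d : ℕ) : ℝ) / d)) := by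
  have hd0 : (0 : ℝ) < d := by exact_mod_cast hd
  have hr := Nat.mod_lt k (by omega : d > 0)
  have hr' : ((k % d : ℕ) : ℝ) / d ≤ 1 := by
    rw [div_le_one hd0]; exact_mod_cast hr.le
  have hr0 : 0 ≤ ((k % d : ℕ) : ℝ) / d := by positivity
  rw [Nat.div_div_eq_div_mul, Nat.div_div_eq_div_mul, Nat.div_div_eq_div_mul]
  have hD : 0 < 11 * d := by omega
  have h1 : 10 * k / (11 * d) ≤ 6 * k / (11 * d) + 4 * k / (11 * d) + 1 := by
    have e : 10 * k = 6 * k + 4 * k := by ring
    rw [e, Nat.add_div hD]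
    split_ifs <;> omega
  have h1' : ((10 * k / (11 * d) : ℕ) : ℝ) ≤ ((6 * k / (11 * d) : ℕ) : ℝ) + ((4 * k / (11 * d) : ℕ) : ℝ) + 1 := by
    exact_mod_cast h1
  by_cases hbig : 49 * d ≤ 10 * k
  · rw [if_pos hbig]
    have : 0 ≤ 100 / 9 * ((((k % d : ℕ) : ℝ) / d) * (1 - ((k % d : ℕ) : ℝ) / d)) := by
      have : 0 ≤ 1 - ((k % d : ℕ) : ℝ) / d := by linarith
      positivity
    linarith
  · rw [if_neg hbig, zero_add]
    by_cases hmid : d ≤ 10 * (k % d) ∧ 10 * (k % d) ≤ 9 * d
    · obtain ⟨m1, m2⟩ := hmid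
      have t1 : 1 / 10 ≤ ((k % d : ℕ) : ℝ) / d := by
        rw [le_div_iff₀ hd0]
        have : (d : ℝ) ≤ 10 * ((k % d : ℕ) : ℝ) := by exact_mod_cast m1
        linarith
      have t2 : ((k % d : ℕ) : ℝ) / d ≤ 9 / 10 := by
        rw [div_le_iff₀ hd0]
        have : 10 * ((k % d : ℕ) : ℝ) ≤ 9 * (d : ℝ) := by exact_mod_cast m2
        linarith
      have : 1 ≤ 100 / 9 * ((((k % d : ℕ) : ℝ) / d) * (1 - ((k % d : ℕ) : ℝ) / d)) := by nlinarith
      linarith
    · have h2 : 10 * k / (11 * d) ≤ 6 * k / (11 * d) + 4 * k / (11 * d) := by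
        have hk := Nat.div_add_mod k d
        have hq : k / d < 5 := by
          rw [Nat.div_lt_iff_lt_mul (by omega)]
          omega
        have hq1 : 1 ≤ k / d := by
          rw [Nat.le_div_iff_mul_le (by omega)]
          omega
        set r := k % d with hrdef
        set q := k / d with hqdef
        have up : ∀ a m : ℕ, a < (m + 1) * (11 * d) → a / (11 * d) ≤ m := by
          intro a m h
          exact Nat.lt_succ_iff.1 ((Nat.div_lt_iff_lt_mul hD).2 h)
        have lo : ∀ a m : ℕ, m * (11 * d) ≤ a → m ≤ a / (11 * d) := by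
          intro a m h
          exact (Nat.le_div_iff_mul_le hD).2 h
        have fin : ∀ A B C a b c : ℕ, A ≤ a → b ≤ B → c ≤ C → a ≤ b + c → A ≤ B + C := by
          intro A B C a b c h1 h2 h3 h4
          omega
        interval_cases q
        · by_cases hs : 10 * r < d
          · exact fin _ _ _ 0 0 0 (up (10 * k) 0 (by omega)) (Nat.zero_le _) (Nat.zero_le _) (by omega)
          · exact fin _ _ _ 1 1 0 (up (10 * k) 1 (by omega)) (lo (6 * k) 1 (by omega)) (Nat.zero_le _) (by omega)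
        · by_cases hs : 10 * r < d
          · exact fin _ _ _ 1 1 0 (up (10 * k) 1 (by omega)) (lo (6 * k) 1 (by omega)) (Nat.zero_le _) (by omega)
          · exact fin _ _ _ 2 1 1 (up (10 * k) 2 (by omega)) (lo (6 * k) 1 (by omega)) (lo (4 * k) 1 (by omega)) (by omega)
        · by_cases hs : 10 * r < d
          · exact fin _ _ _ 2 1 1 (up (10 * k) 2 (by omega)) (lo (6 * k) 1 (by omega)) (lo (4 * k) 1 (by omega)) (by omega)
          · exact fin _ _ _ 3 2 1 (up (10 * k) 3 (by omega)) (lo (6 * k) 2 (by omega)) (lo (4 * k) 1 (by omega)) (by omega)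
        · by_cases hs : 10 * r < d
          · exact fin _ _ _ 3 2 1 (up (10 * k) 3 (by omega)) (lo (6 * k) 2 (by omega)) (lo (4 * k) 1 (by omega)) (by omega)
          · exfalso
            omega
      have h2' : ((10 * k / (11 * d) : ℕ) : ℝ) ≤ ((6 * k / (11 * d) : ℕ) : ℝ) + ((4 * k / (11 * d) : ℕ) : ℝ) := by
        exact_mod_cast h2
      have : 0 ≤ 100 / 9 * ((((k % d : ℕ) : ℝ) / d) * (1 - ((k % d : ℕ) : ℝ) / d)) := by
        have : 0 ≤ 1 - ((k % d : ℕ) : ℝ) / d := by linarith
        positivity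
      linarith

/-- The product `t (1 - t)`, `t = {k / d}`. -/
noncomputable def tt (k d : ℕ) : ℝ := (((k % d : ℕ) : ℝ) / d) * (1 - ((k % d : ℕ) : ℝ) / d)

theorem tt_nonneg (k d : ℕ) : 0 ≤ tt k d := by
  unfold tt
  rcases Nat.eq_zero_or_pos d with rfl | hd
  · simp
  have hd0 : (0 : ℝ) < d := by exact_mod_cast hd
  have hr' : ((k % d : ℕ) : ℝ) / d ≤ 1 := by
    rw [div_le_one hd0]; exact_mod_cast (Nat.mod_lt k hd).le
  have hr0 : 0 ≤ ((k % d : ℕ) : ℝ) / d := by positivity
  have : 0 ≤ 1 - ((k % d : ℕ) : ℝ) / d := by linarith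
  positivity

theorem tt_le (k d : ℕ) : tt k d ≤ 1 / 4 := by
  unfold tt
  nlinarith [sq_nonneg (((k % d : ℕ) : ℝ) / d - 1 / 2)]

theorem fact_diff_ge {k : ℕ} (hk : 11 ≤ k) :
    19 / 22 * Real.log 2 * k - 19 / 2 * Real.log 2 - 2 * Real.log k - 2 ≤
      Real.log ((10 * k / 11).factorial : ℝ) - Real.log ((6 * k / 11).factorial : ℝ) -
        Real.log ((4 * k / 11).factorial : ℝ) := by
  set v := k / 11 with hv
  have hv1 : 1 ≤ v := by omega
  have hv2 : 6 * v ≤ 6 * k / 11 := by omega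
  have hv3 : 4 * v ≤ 4 * k / 11 := by omega
  have hA : 6 * k / 11 + 4 * k / 11 ≤ 10 * k / 11 := by omega
  set B := 6 * k / 11 with hB
  set C := 4 * k / 11 with hC
  have h1 : ((B + C).choose C : ℝ) * (C.factorial : ℝ) * (B.factorial : ℝ) = ((B + C).factorial : ℝ) := by
    have := Nat.choose_mul_factorial_mul_factorial (n := B + C) (k := C) (by omega)
    have e : B + C - C = B := by omega
    rw [e] at this
    exact_mod_cast this
  have h2 : (10 * v).choose (4 * v) ≤ (B + C).choose C := by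
    calc (10 * v).choose (4 * v) ≤ (B + 4 * v).choose (4 * v) := Nat.choose_le_choose _ (by omega)
      _ = (B + 4 * v).choose B := by rw [Nat.choose_symm_add]
      _ ≤ (B + C).choose B := Nat.choose_le_choose _ (by omega)
      _ = (B + C).choose C := by rw [Nat.choose_symm_add]
  have hc0 : 0 < (10 * v).choose (4 * v) := Nat.choose_pos (by omega)
  have h3 : Real.log (((10 * v).choose (4 * v) : ℕ) : ℝ) ≤ Real.log (((B + C).choose C : ℕ) : ℝ) :=
    Real.log_le_log (by exact_mod_cast hc0) (by exact_mod_cast h2)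
  have h4 : Real.log ((B + C).factorial : ℝ) ≤ Real.log ((10 * k / 11).factorial : ℝ) :=
    Real.log_le_log (by positivity) (by exact_mod_cast Nat.factorial_le hA)
  have h5 : Real.log ((B + C).factorial : ℝ) = Real.log (((B + C).choose C : ℕ) : ℝ) +
      Real.log (C.factorial : ℝ) + Real.log (B.factorial : ℝ) := by
    have : (0 : ℝ) < ((B + C).choose C : ℝ) := by
      exact_mod_cast Nat.choose_pos (by omega)
    rw [← h1, Real.log_mul (by positivity) (by positivity), Real.log_mul (by positivity) (by positivity)]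
  have h6 := log_choose_ge hv1
  have hv0 : (0 : ℝ) < v := by exact_mod_cast hv1
  have hk0 : (0 : ℝ) < k := by exact_mod_cast (by omega : 0 < k)
  have hvk : 6 * (v : ℝ) ≤ k := by
    have : 6 * v ≤ k := by omega
    exact_mod_cast this
  have h7 : Real.log (6 * v) ≤ Real.log k := Real.log_le_log (by positivity) hvk
  have h8 : Real.log (4 * v) ≤ Real.log k := Real.log_le_log (by positivity) (by linarith)
  have h9 : (k : ℝ) / 11 - 1 ≤ v := by
    have : k ≤ 11 * v + 11 := by omega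
    have : (k : ℝ) ≤ 11 * v + 11 := by exact_mod_cast this
    linarith
  have h10 : (0 : ℝ) < Real.log 2 := Real.log_pos (by norm_num)
  nlinarith

theorem drift_sum {k : ℕ} (hk : 11 ≤ k) :
    (19 / 22 - 20 / 49) * Real.log 2 * k - 19 / 2 * Real.log 2 - 2 * Real.log k - 2 - 2 * √k * Real.log k ≤
      100 / 9 * ∑ d ∈ Icc 1 k, Λ d * tt k d := by
  have h1 := fact_diff_ge hk
  rw [log_factorial_eq (n := 10 * k / 11) (B := k) (by omega), log_factorial_eq (n := 6 * k / 11) (B := k) (by omega),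
    log_factorial_eq (n := 4 * k / 11) (B := k) (by omega), ← sum_sub_distrib, ← sum_sub_distrib] at h1
  have hk0 : (0 : ℝ) < k := by exact_mod_cast (by omega : 0 < k)
  have h2 : ∑ d ∈ Icc 1 k, (Λ d * (((10 * k / 11) / d : ℕ) : ℝ) - Λ d * (((6 * k / 11) / d : ℕ) : ℝ) -
      Λ d * (((4 * k / 11) / d : ℕ) : ℝ)) ≤ ∑ d ∈ Icc 1 k, Λ d * (if 49 * d ≤ 10 * k then (1 : ℝ) else 0) +
        100 / 9 * ∑ d ∈ Icc 1 k, Λ d * tt k d := by
    rw [mul_sum, ← sum_add_distrib]
    refine sum_le_sum fun d hd => ?_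
    rw [mem_Icc] at hd
    have h3 := f_le hd.1 hd.2
    have h4 := vonMangoldt_nonneg (n := d)
    have h5 := mul_le_mul_of_nonneg_left h3 h4
    unfold tt
    linarith
  have h3 : ∑ d ∈ Icc 1 k, Λ d * (if 49 * d ≤ 10 * k then (1 : ℝ) else 0) ≤
      20 / 49 * Real.log 2 * k + 2 * √k * Real.log k := by
    have e1 : ∑ d ∈ Icc 1 k, Λ d * (if 49 * d ≤ 10 * k then (1 : ℝ) else 0) = Chebyshev.psi ((10 * k / 49 : ℕ) : ℝ) := by
      rw [psi_nat]
      have : Icc 1 (10 * k / 49) = (Icc 1 k).filter (fun d => 49 * d ≤ 10 * k) := by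
        ext d; simp only [mem_Icc, mem_filter]; omega
      rw [this, sum_filter]
      refine sum_congr rfl fun d _ => ?_
      split_ifs <;> simp
    rw [e1]
    have hx1 : (1 : ℝ) ≤ ((10 * k / 49 : ℕ) : ℝ) := by
      have : 1 ≤ 10 * k / 49 := by omega
      exact_mod_cast this
    have hx2 : ((10 * k / 49 : ℕ) : ℝ) ≤ 10 / 49 * k := by
      have : 49 * (10 * k / 49) ≤ 10 * k := by omega
      have : 49 * ((10 * k / 49 : ℕ) : ℝ) ≤ 10 * k := by exact_mod_cast this
      linarith
    have h4 := Chebyshev.psi_le hx1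
    have h5 : √((10 * k / 49 : ℕ) : ℝ) ≤ √k := Real.sqrt_le_sqrt (by linarith)
    have h6 : Real.log ((10 * k / 49 : ℕ) : ℝ) ≤ Real.log k := Real.log_le_log (by linarith) (by linarith)
    have h7 : 0 ≤ Real.log ((10 * k / 49 : ℕ) : ℝ) := Real.log_nonneg hx1
    have l4 : Real.log 4 = 2 * Real.log 2 := by
      rw [show (4 : ℝ) = 2 ^ 2 by norm_num, Real.log_pow]; norm_num
    have h10 : (0 : ℝ) < Real.log 2 := Real.log_pos (by norm_num)
    have h8 : √((10 * k / 49 : ℕ) : ℝ) * Real.log ((10 * k / 49 : ℕ) : ℝ) ≤ √k * Real.log k :=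
      mul_le_mul h5 h6 h7 (Real.sqrt_nonneg _)
    rw [l4] at h4
    nlinarith
  linarith

theorem drift_ev : ∀ᶠ k : ℕ in atTop, (1 / 50 : ℝ) * k ≤ ∑ d ∈ Icc 1 k, Λ d * tt k d := by
  have h1 : ∀ᶠ x : ℝ in atTop, Real.log x ≤ 1 / 1000 * √x := by
    have := (isLittleO_log_rpow_atTop (r := 1 / 2) (by norm_num)).bound (c := 1 / 1000) (by norm_num)
    filter_upwards [this, eventually_ge_atTop 1] with x hx hx1
    rw [Real.norm_of_nonneg (Real.log_nonneg hx1), Real.norm_of_nonneg (by positivity)] at hx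
    rw [Real.sqrt_eq_rpow]
    exact hx
  have h2 : ∀ᶠ k : ℕ in atTop, Real.log (k : ℝ) ≤ 1 / 1000 * √(k : ℝ) := tendsto_natCast_atTop_atTop.eventually h1
  filter_upwards [h2, eventually_ge_atTop 10000] with k hk hk1
  have h3 := drift_sum (k := k) (by omega)
  have hk0 : (10000 : ℝ) ≤ k := by exact_mod_cast hk1
  have hs : √(k : ℝ) * √(k : ℝ) = k := Real.mul_self_sqrt (by linarith)
  have hs1 : 100 ≤ √(k : ℝ) := by
    rw [show (100 : ℝ) = √(10000 : ℝ) by rw [show (10000 : ℝ) = 100 ^ 2 by norm_num, Real.sqrt_sq (by norm_num)]]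
    exact Real.sqrt_le_sqrt hk0
  have l2 := Real.log_two_gt_d9
  have l2' := Real.log_two_lt_d9
  have h4 : √(k : ℝ) * Real.log k ≤ 1 / 1000 * k := by
    calc √(k : ℝ) * Real.log k ≤ √(k : ℝ) * (1 / 1000 * √(k : ℝ)) := by gcongr
      _ = 1 / 1000 * k := by rw [← hs]; ring_nf; rw [Real.sq_sqrt (by linarith)]
  have h5 : Real.log k ≤ 1 / 1000 * k := by nlinarith [Real.log_nonneg (by linarith : (1 : ℝ) ≤ k)]
  nlinarith

end LCB
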