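import Pool.Agent.LCB.Drf

/-!
# LCB, part J: assembly
-/

set_option autoImplicit false

namespace LCB

open Finset Function ArithmeticFunction Filter Topology

section DecBounds

variable {c j0 K : ℕ}

theorem card_SS (j0 K : ℕ) : (SS j0 K).card ≤ K := by
  unfold SS pr
  refine (card_filter_le _ _).trans ?_
  rw [Nat.card_Ioc]
  exact Nat.sub_le _ _

theorem dec_ps {p : ℕ} (hp : p ∈ SS j0 K) : Dec (QQ j0 K) 1 K (ps p) :=
  Dec.base (q := p) (dvd_prod_of_mem _ hp) (mem_SS.1 hp).1.2 (ps_per p) (ps_abs_le (mem_SS.1 hp).2.pos)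

theorem dec_ze (H : Sys (QQ j0 K) (SS j0 K) (gi c) (sg c) lg) (hK : 1 ≤ K) {γ : ℕ × ℕ} (hγ : γ ∈ (SS j0 K).image (gi c)) :
    Dec (QQ j0 K) K K (ze (SS j0 K) (gi c) (sg c) γ) := by
  have h1 : Dec (QQ j0 K) (∑ p ∈ cl (SS j0 K) (gi c) γ, 1) K (fun n => ∑ p ∈ cl (SS j0 K) (gi c) γ, ps p n) :=
    Dec.sum hK fun p hp => dec_ps (mem_cl.1 hp).1
  have h2 := h1.smul (√(sg c γ : ℝ))⁻¹
  refine h2.mono ?_ (le_refl K)
  have h3 : (1 : ℝ) ≤ √(sg c γ : ℝ) := Real.one_le_sqrt.2 (by exact_mod_cast H.σ_pos hγ)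
  have h4 : |(√(sg c γ : ℝ))⁻¹| ≤ 1 := by
    rw [abs_of_nonneg (by positivity)]
    exact inv_le_one_of_one_le₀ h3
  have h5 : (∑ p ∈ cl (SS j0 K) (gi c) γ, (1 : ℝ)) ≤ K := by
    rw [sum_const, nsmul_eq_mul, mul_one]
    have : (cl (SS j0 K) (gi c) γ).card ≤ K := (card_filter_le _ _).trans (card_SS j0 K)
    exact_mod_cast this
  have h6 : (0 : ℝ) ≤ ∑ p ∈ cl (SS j0 K) (gi c) γ, (1 : ℝ) := sum_nonneg fun _ _ => zero_le_one
  calc |(√(sg c γ : ℝ))⁻¹| * ∑ p ∈ cl (SS j0 K) (gi c) γ, (1 : ℝ) ≤ 1 * K := by gcongr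
    _ = K := one_mul _

theorem dec_T (H : Sys (QQ j0 K) (SS j0 K) (gi c) (sg c) lg) (hK : 1 ≤ K) {γ : ℕ × ℕ} (hγ : γ ∈ (SS j0 K).image (gi c)) :
    Dec (QQ j0 K) ((2 * (K : ℝ) ^ 2) ^ 2) ((2 * K ^ 2) ^ 2) (T (ze (SS j0 K) (gi c) (sg c) γ)) := by
  have h1 := (Dec.add (((Dec.const (QQ j0 K) 1)).mono (le_refl _) hK) (dec_ze H hK hγ)).pow 2
  have hK' : (1 : ℝ) ≤ K := by exact_mod_cast hK
  refine h1.mono ?_ ?_
  · rw [abs_one]
    have : 1 + (K : ℝ) ≤ 2 * (K : ℝ) ^ 2 := by nlinarith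
    exact pow_le_pow_left₀ (by positivity) this 2
  · have : K ≤ 2 * K ^ 2 := by nlinarith
    exact Nat.pow_le_pow_left this 2

theorem dec_W (H : Sys (QQ j0 K) (SS j0 K) (gi c) (sg c) lg) (hK : 1 ≤ K) :
    Dec (QQ j0 K) ((2 * (K : ℝ) ^ 2) ^ (2 * ((SS j0 K).image (gi c)).card)) ((2 * K ^ 2) ^ (2 * ((SS j0 K).image (gi c)).card))
      (Wt (SS j0 K) (gi c) (sg c)) := by
  have h := Dec.prod (s := (SS j0 K).image (gi c)) (fun γ hγ => dec_T H hK hγ)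
  rw [pow_mul, pow_mul]
  exact h

theorem muT_abs (H : Sys (QQ j0 K) (SS j0 K) (gi c) (sg c) lg) (k : ℕ) : |muT c j0 K k| ≤ (K : ℝ) ^ 2 := by
  unfold muT
  calc |∑ γ ∈ (SS j0 K).image (gi c), mug (QQ j0 K) (SS j0 K) (gi c) (sg c) k γ|
      ≤ ∑ γ ∈ (SS j0 K).image (gi c), |mug (QQ j0 K) (SS j0 K) (gi c) (sg c) k γ| := abs_sum_le_sum_abs _ _
    _ ≤ ∑ γ ∈ (SS j0 K).image (gi c), ∑ p ∈ cl (SS j0 K) (gi c) γ, Real.log p := sum_le_sum fun γ hγ => H.mug_abs k hγ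
    _ = ∑ p ∈ SS j0 K, Real.log p := sum_cl (gi c) (fun p : ℕ => Real.log p)
    _ ≤ ∑ p ∈ SS j0 K, (K : ℝ) := by
        refine sum_le_sum fun p hp => ?_
        have h1 := mem_SS.1 hp
        have h2 : (0 : ℝ) < p := by exact_mod_cast h1.2.pos
        have h3 := Real.log_le_sub_one_of_pos h2
        have h4 : (p : ℝ) ≤ K := by exact_mod_cast h1.1.2
        linarith
    _ ≤ (K : ℝ) ^ 2 := by
        rw [sum_const, nsmul_eq_mul, sq]
        have : ((SS j0 K).card : ℝ) ≤ K := by exact_mod_cast card_SS j0 K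
        gcongr

theorem dec_Y (H : Sys (QQ j0 K) (SS j0 K) (gi c) (sg c) lg) (hK : 1 ≤ K) {k : ℕ} (hk : k ≤ K) :
    Dec (QQ j0 K) (2 * (K : ℝ) ^ 2) K (Yk (QQ j0 K) (SS j0 K) (gi c) (sg c) k) := by
  have hK' : (1 : ℝ) ≤ K := by exact_mod_cast hK
  have h1 : Dec (QQ j0 K) (∑ p ∈ pr (2 ^ j0) k, (K : ℝ)) K (fun n => ∑ p ∈ pr (2 ^ j0) k, Real.log p * X p k n) := by
    refine Dec.sum hK fun p hp => ?_
    have hp' := mem_pr.1 hp
    have hpS : p ∈ SS j0 K := mem_SS.2 ⟨⟨hp'.1.1, hp'.1.2.trans hk⟩, hp'.2⟩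
    refine Dec.base (q := p) (dvd_prod_of_mem _ hpS) (hp'.1.2.trans hk) ?_ fun m => ?_
    · exact per_comp (X_per p k) (fun x => Real.log p * x)
    · have h2 : (0 : ℝ) < p := by exact_mod_cast hp'.2.pos
      have h3 := Real.log_le_sub_one_of_pos h2
      have h4 : (p : ℝ) ≤ K := by exact_mod_cast hp'.1.2.trans hk
      have h5 : 0 ≤ Real.log p := Real.log_nonneg (by exact_mod_cast hp'.2.one_lt.le)
      rw [abs_mul, abs_of_nonneg h5]
      have := X_abs_le p k m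
      nlinarith
  have h2 : Dec (QQ j0 K) |-(muT c j0 K k)| K (fun _ => -(muT c j0 K k)) := (Dec.const _ _).mono (le_refl _) hK
  have h3 := Dec.add h1 h2
  have e : (fun n => ∑ p ∈ pr (2 ^ j0) k, Real.log p * X p k n + -(muT c j0 K k)) = Yk (QQ j0 K) (SS j0 K) (gi c) (sg c) k := by
    funext n
    rw [Yk_eq hk]
    ring
  rw [e] at h3
  refine h3.mono ?_ (le_refl K)
  rw [abs_neg]
  have h4 := muT_abs H k
  have h5 : (∑ p ∈ pr (2 ^ j0) k, (K : ℝ)) ≤ (K : ℝ) ^ 2 := by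
    rw [sum_const, nsmul_eq_mul, sq]
    have : ((pr (2 ^ j0) k).card : ℝ) ≤ K := by
      have : (pr (2 ^ j0) k).card ≤ K := by
        unfold pr
        refine (card_filter_le _ _).trans ?_
        rw [Nat.card_Ioc]
        exact (Nat.sub_le _ _).trans hk
      exact_mod_cast this
    gcongr
  linarith

theorem dec_V (H : Sys (QQ j0 K) (SS j0 K) (gi c) (sg c) lg) (hK : 1 ≤ K) {k : ℕ} (hk : k ≤ K) {D : ℝ} (hD : 1 ≤ D) (R : ℕ) :
    Dec (QQ j0 K) ((2 * (K : ℝ) ^ 2) ^ R) ((2 * K ^ 2) ^ R) (fun n => (Yk (QQ j0 K) (SS j0 K) (gi c) (sg c) k n / D) ^ R) := by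
  have hK' : (1 : ℝ) ≤ K := by exact_mod_cast hK
  have h1 := (dec_Y H hK hk).smul D⁻¹
  have h2 : Dec (QQ j0 K) (2 * (K : ℝ) ^ 2) (2 * K ^ 2) (fun n => Yk (QQ j0 K) (SS j0 K) (gi c) (sg c) k n / D) := by
    have e : (fun n => Yk (QQ j0 K) (SS j0 K) (gi c) (sg c) k n / D) =
        (fun n => D⁻¹ * Yk (QQ j0 K) (SS j0 K) (gi c) (sg c) k n) := by
      funext n
      rw [div_eq_inv_mul]
    rw [e]
    refine h1.mono ?_ (by nlinarith)
    have : |D⁻¹| ≤ 1 := by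
      rw [abs_of_nonneg (by positivity)]
      exact inv_le_one_of_one_le₀ hD
    nlinarith
  exact h2.pow R

end DecBounds

theorem tail_sum {y K : ℕ} (hy : 0 < y) : ∑ k ∈ Ioc y K, (1 : ℝ) / (k : ℝ) ^ 2 ≤ 1 / y := by
  rcases le_or_gt K y with h | h
  · rw [Ioc_eq_empty (by omega), sum_empty]; positivity
  · have key : ∀ K : ℕ, y ≤ K → ∑ k ∈ Ioc y K, (1 : ℝ) / (k : ℝ) ^ 2 ≤ 1 / y - 1 / K := by
      intro K hK
      induction K, hK using Nat.le_induction with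
      | base => simp
      | succ K hK ih =>
        have e : Ioc y (K + 1) = insert (K + 1) (Ioc y K) := by
          ext k; simp only [mem_Ioc, mem_insert]; omega
        rw [e, sum_insert (by rw [mem_Ioc]; omega)]
        have hK0 : (0 : ℝ) < K := by exact_mod_cast (by omega : 0 < K)
        have h1 : (1 : ℝ) / ((K + 1 : ℕ) : ℝ) ^ 2 ≤ 1 / K - 1 / ((K + 1 : ℕ) : ℝ) := by
          push_cast
          rw [div_sub_div _ _ hK0.ne' (by positivity), div_le_div_iff₀ (by positivity) (by positivity)]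
          nlinarith
        linarith
    have := key K h.le
    have h2 : (0 : ℝ) ≤ 1 / K := by positivity
    linarith

/-- `n` is good up to `K`. -/
def Gd (K n : ℕ) : Prop := ∀ k, 1 ≤ k → k ≤ K → (Icc (n - k + 1) n).lcm id < (Icc (n + 1) (n + k)).lcm id

open scoped Classical in
theorem count_K : ∃ j0 C : ℕ, ∀ K : ℕ, 2 ^ j0 ≤ K → ∀ w N : ℕ, K ≤ w → 2 ^ (C * (Nat.log 2 K + 1) ^ 3) ≤ N →
    (N : ℝ) / 2 ^ (C * (Nat.log 2 K + 1) ^ 2) ≤ (((Ico w (w + N)).filter (Gd K)).card : ℝ) := by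
  set a := ⌈13 * C0⌉₊ + 1 with ha
  have ha1 : 13 * C0 + 1 ≤ (a : ℝ) := by
    rw [ha]; push_cast; linarith [Nat.le_ceil (13 * C0)]
  have ha0 : 0 < a := by omega
  have har : (1 : ℝ) ≤ a := by exact_mod_cast ha0
  obtain ⟨b, j0, hb, hj2, hj, hmain⟩ := constants (6 * (a : ℝ)) (by positivity)
  set c := b ^ 2 with hc
  have hc0 : 0 < c := by positivity
  set y := 2 ^ j0 with hy
  have hy4 : 4 ≤ y := by
    calc 4 = 2 ^ 2 := by norm_num
      _ ≤ 2 ^ j0 := Nat.pow_le_pow_right (by norm_num) hj2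
  set P := y.factorial with hP
  have hP0 : 0 < P := Nat.factorial_pos y
  obtain ⟨κ, hκ⟩ := pow_unbounded_of_one_lt KT (one_lt_two : (1 : ℝ) < 2)
  set C := (4 + 6 * (100 * c + 2 * a) + 2 * P) + (5 + P + 25 * κ * c) with hC
  refine ⟨j0, C, fun K hK w N hw hN => ?_⟩
  set J := Nat.log 2 K with hJ
  have hK1 : 1 ≤ K := by omega
  have H : Sys (QQ j0 K) (SS j0 K) (gi c) (sg c) lg := sys hc0 hj
  set Q := QQ j0 K with hQ
  set S := SS j0 K with hS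
  set G := S.image (gi c) with hG
  have hKlt : K < 2 ^ (J + 1) := Nat.lt_pow_succ_log_self (by norm_num) K
  have hGJ : ∀ γ ∈ G, γ.1 ≤ J := by
    intro γ hγ
    rw [hG, mem_image] at hγ
    obtain ⟨p, hp, rfl⟩ := hγ
    change Nat.log 2 p ≤ Nat.log 2 K
    exact Nat.log_mono_right (mem_SS.1 hp).1.2
  have hGc : G.card ≤ 25 * c * (J + 1) ^ 2 := (group_sum hc0 hj (subset_refl _) hGJ).1
  set E := 100 * c * (J + 1) ^ 2 + 2 * a * (J + 1) with hE
  set M : ℕ := 2 * K ^ 2 with hM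
  have hM1 : 1 ≤ M := by
    have : 1 ≤ K ^ 2 := Nat.one_le_pow _ _ hK1
    omega
  have hMr : (M : ℝ) = 2 * (K : ℝ) ^ 2 := by rw [hM]; push_cast; ring
  have hMr1 : (1 : ℝ) ≤ M := by exact_mod_cast hM1
  -- the parameters for each k
  set R : ℕ → ℕ := fun k => 2 * a * (Nat.log 2 k + 1) with hR
  set D : ℕ → ℝ := fun k => 6 * (a : ℝ) * √(k : ℝ) * ((Nat.log 2 k : ℝ) + 1) with hD
  set V : ℕ → ℕ → ℝ := fun k n => (Yk Q S (gi c) (sg c) k n / D k) ^ R k with hV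
  have hReven : ∀ k, Even (R k) := fun k => by
    rw [hR]; exact ⟨a * (Nat.log 2 k + 1), by ring⟩
  have hD1 : ∀ k ∈ Ioc y K, 1 ≤ D k := by
    intro k hk
    rw [mem_Ioc] at hk
    have h1 : 1 ≤ √(k : ℝ) := Real.one_le_sqrt.2 (by exact_mod_cast (by omega : 1 ≤ k))
    have h2 : (0 : ℝ) ≤ (Nat.log 2 k : ℝ) := Nat.cast_nonneg _
    have h3 : 1 ≤ 6 * (a : ℝ) := by linarith
    have h4 : 1 ≤ 6 * (a : ℝ) * √(k : ℝ) := by nlinarith
    simp only [hD]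
    nlinarith
  have hRE : ∀ k ∈ Ioc y K, 2 * G.card + R k ≤ E := by
    intro k hk
    rw [mem_Ioc] at hk
    have h1 : Nat.log 2 k ≤ J := Nat.log_mono_right hk.2
    have h2 : 2 * a * (Nat.log 2 k + 1) ≤ 2 * a * (J + 1) := Nat.mul_le_mul_left _ (by omega)
    simp only [hR]
    have h3 : 100 * c * (J + 1) ^ 2 = 4 * (25 * c * (J + 1) ^ 2) := by ring
    omega
  have h4G : 4 * G.card ≤ E := by
    have h3 : 100 * c * (J + 1) ^ 2 = 4 * (25 * c * (J + 1) ^ 2) := by ring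
    omega
  -- Dec bounds
  have monoD : ∀ {m : ℕ} {φ : ℕ → ℝ}, m ≤ E → Dec Q ((2 * (K : ℝ) ^ 2) ^ m) ((2 * K ^ 2) ^ m) φ →
      Dec Q ((M : ℝ) ^ E) (M ^ E) φ := by
    intro m φ hm hφ
    refine hφ.mono ?_ ?_
    · rw [← hMr]; exact pow_le_pow_right₀ hMr1 hm
    · exact Nat.pow_le_pow_right hM1 hm
  have dW0 := dec_W H hK1
  have dW : Dec Q ((M : ℝ) ^ E) (M ^ E) (Wt S (gi c) (sg c)) := monoD (by omega : 2 * G.card ≤ E) dW0
  have dWW : Dec Q ((M : ℝ) ^ E) (M ^ E) (fun n => Wt S (gi c) (sg c) n ^ 2) := by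
    have h1 := dW0.pow 2
    rw [← pow_mul, ← pow_mul] at h1
    exact monoD (by omega : 2 * G.card * 2 ≤ E) h1
  have dV : ∀ k ∈ Ioc y K, Dec Q ((M : ℝ) ^ E) (M ^ E) (fun n => Wt S (gi c) (sg c) n * V k n) := by
    intro k hk
    have h1 := Dec.mul dW0 (dec_V H hK1 (mem_Ioc.1 hk).2 (hD1 k hk) (R k))
    rw [← pow_add, ← pow_add] at h1
    exact monoD (hRE k hk) h1
  -- the tail
  have hTau := H.Tau_ge
  have tk : ∀ k ∈ Ioc y K, av Q (fun n => Wt S (gi c) (sg c) n * V k n) ≤ 2 * Tau Q S (gi c) (sg c) * (1 / (k : ℝ) ^ 2) := by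
    intro k hk
    rw [mem_Ioc] at hk
    have hk0 : 0 < k := by omega
    have hkr : (0 : ℝ) < k := by exact_mod_cast hk0
    have hsk : 0 < √(k : ℝ) := Real.sqrt_pos.2 hkr
    set Jk := Nat.log 2 k with hJk
    have hJk0 : (0 : ℝ) ≤ (Jk : ℝ) := Nat.cast_nonneg _
    have h2J : 2 ^ Jk ≤ k := Nat.pow_log_le_self 2 hk0.ne'
    have h2Jr : (2 : ℝ) ^ Jk ≤ k := by exact_mod_cast h2J
    have m := H.moment k (lam := (√(k : ℝ))⁻¹) (D := D k) (V := 26 * ((Jk : ℝ) + 1)) (R := R k)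
      (G := G.filter (fun γ => γ.1 ≤ Jk)) (filter_subset _ _) (by positivity) (hReven k) ?_ ?_ ?_ ?_ ?_
    · refine m.trans ?_
      have e1 : ((R k : ℕ) : ℝ) = 2 * a * ((Jk : ℝ) + 1) := by simp only [hR]; push_cast; rfl
      have e2 : Real.exp (C0 * (26 * ((Jk : ℝ) + 1)) - (R k : ℝ)) ≤ 1 / (k : ℝ) ^ 2 := by
        have h1 : C0 * (26 * ((Jk : ℝ) + 1)) - (R k : ℝ) ≤ -(2 * ((Jk : ℝ) + 1)) := by
          rw [e1]
          nlinarith
        have h2 : (k : ℝ) ^ 2 ≤ Real.exp (2 * ((Jk : ℝ) + 1)) := by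
          have h3 : (k : ℝ) ≤ Real.exp ((Jk : ℝ) + 1) := by
            have h4 : (k : ℝ) ≤ (2 : ℝ) ^ (Jk + 1) := by
              exact_mod_cast (Nat.lt_pow_succ_log_self (by norm_num : 1 < 2) k).le
            have h5 : (2 : ℝ) ^ (Jk + 1) ≤ Real.exp 1 ^ (Jk + 1) :=
              pow_le_pow_left₀ (by norm_num) (by have := Real.exp_one_gt_d9; linarith) _
            have h6 : Real.exp 1 ^ (Jk + 1) = Real.exp ((Jk : ℝ) + 1) := by
              rw [← Real.exp_nat_mul]; push_cast; ring_nf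
            linarith
          have h7 : Real.exp (2 * ((Jk : ℝ) + 1)) = Real.exp ((Jk : ℝ) + 1) ^ 2 := by
            rw [← Real.exp_nat_mul]; push_cast; rfl
          rw [h7]
          exact pow_le_pow_left₀ hkr.le h3 2
        calc Real.exp (C0 * (26 * ((Jk : ℝ) + 1)) - (R k : ℝ)) ≤ Real.exp (-(2 * ((Jk : ℝ) + 1))) := Real.exp_le_exp.2 h1
          _ = 1 / Real.exp (2 * ((Jk : ℝ) + 1)) := by rw [Real.exp_neg, one_div]
          _ ≤ _ := by gcongr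
      exact mul_le_mul_of_nonneg_left e2 (by linarith)
    · simp only [hR]
      exact Nat.mul_pos (by omega) (Nat.succ_pos _)
    · simp only [hR, hD]
      have h3 := Real.exp_one_lt_d9
      have e3 : (√(k : ℝ))⁻¹ * (6 * (a : ℝ) * √(k : ℝ) * ((Jk : ℝ) + 1)) = 6 * (a : ℝ) * ((Jk : ℝ) + 1) := by
        field_simp
      rw [e3]
      push_cast
      have h4 : 0 ≤ 2 * (a : ℝ) * ((Jk : ℝ) + 1) := by positivity
      nlinarith
    · intro γ hγ
      rw [mem_filter] at hγ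
      rw [inv_mul_le_iff₀ hsk, mul_one]
      have hlg0 : 0 ≤ lg γ := by unfold lg; positivity
      apply Real.le_sqrt_of_sq_le
      rw [mul_pow, Real.sq_sqrt (Nat.cast_nonneg _)]
      have h5 : ss c γ.1 * (γ.1 + 1) ^ 2 ≤ 2 ^ γ.1 := ss_sq_le hc0
      have h6 : 2 ^ γ.1 ≤ 2 ^ Jk := Nat.pow_le_pow_right (by norm_num) hγ.2
      have h7 : ((ss c γ.1 * (γ.1 + 1) ^ 2 : ℕ) : ℝ) ≤ (k : ℝ) := by exact_mod_cast (h5.trans h6).trans h2J
      unfold sg lg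
      push_cast at h7
      exact h7
    · intro p hp hpk
      rw [mem_filter]
      refine ⟨mem_image_of_mem _ hp, ?_⟩
      change Nat.log 2 p ≤ Nat.log 2 k
      exact Nat.log_mono_right hpk
    · have h5 := (group_sum hc0 hj (J := Jk) (G := G.filter (fun γ => γ.1 ≤ Jk)) (filter_subset _ _)
        (fun γ hγ => (mem_filter.1 hγ).2)).2
      have e5 : (√(k : ℝ))⁻¹ ^ 2 = (k : ℝ)⁻¹ := by rw [inv_pow, Real.sq_sqrt hkr.le]
      rw [e5, inv_mul_le_iff₀ hkr]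
      refine h5.trans ?_
      rw [pow_succ]
      nlinarith
  have tV : ∑ k ∈ Ioc y K, av Q (fun n => Wt S (gi c) (sg c) n * V k n) ≤ 1 / 2 * av Q (Wt S (gi c) (sg c)) := by
    rw [H.av_W]
    refine (sum_le_sum tk).trans ?_
    rw [← mul_sum]
    have h1 := tail_sum (y := y) (K := K) (by omega)
    have h2 : (1 : ℝ) / y ≤ 1 / 4 := by
      have : (4 : ℝ) ≤ y := by exact_mod_cast hy4
      gcongr
    nlinarith
  have t1 : 1 ≤ av Q (Wt S (gi c) (sg c)) := by rw [H.av_W]; exact hTau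
  set B : ℝ := (2 : ℝ) ^ (κ * (25 * c * (J + 1) ^ 2)) with hB
  have hB1 : 1 ≤ B := one_le_pow₀ (by norm_num)
  have t2 : av Q (fun n => Wt S (gi c) (sg c) n ^ 2) ≤ B := by
    refine H.av_W2.trans ?_
    calc KT ^ (S.image (gi c)).card ≤ ((2 : ℝ) ^ κ) ^ (S.image (gi c)).card := pow_le_pow_left₀ KT_pos.le hκ.le _
      _ ≤ ((2 : ℝ) ^ κ) ^ (25 * c * (J + 1) ^ 2) := pow_le_pow_right₀ (one_le_pow₀ (by norm_num)) hGc
      _ = B := by rw [hB, ← pow_mul]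
  have hcop : Nat.Coprime P Q := by
    rw [hQ]
    unfold QQ
    refine Nat.Coprime.prod_right fun p hp => ?_
    have h1 := mem_SS.1 hp
    rw [Nat.coprime_comm, Nat.Prime.coprime_iff_not_dvd h1.2, h1.2.dvd_factorial]
    exact not_le.2 h1.1.1
  have hQ0 : 0 < Q := QQ_pos j0 K
  have hV0 : ∀ k ∈ Ioc y K, ∀ n, 0 ≤ V k n := fun k _ n => (hReven k).pow_nonneg _
  have hE2 : E ≤ (100 * c + 2 * a) * (J + 1) ^ 2 := by
    have h1 : J + 1 ≤ (J + 1) ^ 2 := Nat.le_self_pow (by norm_num) _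
    have h2 : 2 * a * (J + 1) ≤ 2 * a * (J + 1) ^ 2 := Nat.mul_le_mul_left _ h1
    calc E = 100 * c * (J + 1) ^ 2 + 2 * a * (J + 1) := hE
      _ ≤ 100 * c * (J + 1) ^ 2 + 2 * a * (J + 1) ^ 2 := Nat.add_le_add_left h2 _
      _ = _ := by ring
  have hNN : 8 * ((Ioc y K).card + 1) * M ^ E * M ^ E * P ^ 2 ≤ N := by
    refine le_trans ?_ hN
    have h1 : (Ioc y K).card + 1 ≤ 2 ^ (J + 1) := by
      rw [Nat.card_Ioc]
      omega
    have h2 : M ≤ 2 ^ (3 * (J + 1)) := by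
      calc M = 2 * K ^ 2 := hM
        _ ≤ 2 * (2 ^ (J + 1)) ^ 2 := Nat.mul_le_mul_left _ (Nat.pow_le_pow_left hKlt.le 2)
        _ = 2 ^ (1 + (J + 1) * 2) := by rw [pow_add 2 1 ((J + 1) * 2), pow_mul, pow_one]
        _ ≤ _ := Nat.pow_le_pow_right (by norm_num) (by omega)
    have h3 : P ≤ 2 ^ P := Nat.lt_two_pow_self.le
    calc 8 * ((Ioc y K).card + 1) * M ^ E * M ^ E * P ^ 2
        ≤ 8 * 2 ^ (J + 1) * (2 ^ (3 * (J + 1))) ^ E * (2 ^ (3 * (J + 1))) ^ E * (2 ^ P) ^ 2 := by gcongr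
      _ = 2 ^ (3 + (J + 1) + 6 * E * (J + 1) + 2 * P) := by
          rw [show (8 : ℕ) = 2 ^ 3 by norm_num, ← pow_mul, ← pow_mul, ← pow_add, ← pow_add, ← pow_add, ← pow_add]
          congr 1
          ring
      _ ≤ 2 ^ (C * (J + 1) ^ 3) := by
          apply Nat.pow_le_pow_right (by norm_num)
          have g1 : 1 ≤ (J + 1) ^ 3 := Nat.one_le_pow _ _ (Nat.succ_pos J)
          have g2 : J + 1 ≤ (J + 1) ^ 3 := Nat.le_self_pow (by norm_num) _
          have g3 : 6 * E * (J + 1) ≤ 6 * (100 * c + 2 * a) * (J + 1) ^ 3 := by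
            calc 6 * E * (J + 1) ≤ 6 * ((100 * c + 2 * a) * (J + 1) ^ 2) * (J + 1) := by gcongr
              _ = _ := by ring
          have g4 : 2 * P ≤ 2 * P * (J + 1) ^ 3 := Nat.le_mul_of_pos_right _ (by positivity)
          have g5 : C * (J + 1) ^ 3 = 4 * (J + 1) ^ 3 + 6 * (100 * c + 2 * a) * (J + 1) ^ 3 + 2 * P * (J + 1) ^ 3 +
            (5 + P + 25 * κ * c) * (J + 1) ^ 3 := by rw [hC]; ring
          rw [g5]
          have g6 : 0 ≤ (5 + P + 25 * κ * c) * (J + 1) ^ 3 := Nat.zero_le _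
          omega
  have hgood : ∀ n, w ≤ n → n < w + N → P ∣ n → (∀ k ∈ Ioc y K, V k n ≤ 1) → n ∈ (Ico w (w + N)).filter (Gd K) := by
    intro n hn1 hn2 hPn hVn
    rw [mem_filter, mem_Ico]
    refine ⟨⟨hn1, hn2⟩, ?_⟩
    have hdv : ∀ d, 1 ≤ d → d ≤ y → d ∣ n := fun d hd hdy => (Nat.dvd_factorial hd hdy).trans hPn
    intro k hk1 hkK
    rcases le_or_gt k y with hky | hky
    · exact good_of_small hdv hk1 hky (by omega)
    · refine good_of_large hdv hky (by omega) ?_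
      have hkm : k ∈ Ioc y K := mem_Ioc.2 ⟨hky, hkK⟩
      have h1 := hVn k hkm
      have hDk := hD1 k hkm
      have h2 : |Yk Q S (gi c) (sg c) k n / D k| ≤ 1 := by
        by_contra hcon
        push Not at hcon
        have h3 : 1 < |Yk Q S (gi c) (sg c) k n / D k| ^ R k := by
          refine one_lt_pow₀ hcon ?_
          simp only [hR]
          exact (Nat.mul_pos (by omega) (Nat.succ_pos _)).ne'
        rw [(hReven k).pow_abs] at h3
        exact absurd h1 (not_le.2 h3)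
      rw [abs_div, abs_of_pos (by linarith : 0 < D k), div_le_one (by linarith)] at h2
      have h3 := (abs_le.1 h2).1
      rw [Yk_eq hkK] at h3
      have h4 := hmain k K hky hkK
      simp only [hD] at h3
      linarith
  have fin := transfer hP0 hQ0 hcop (W := Wt S (gi c) (sg c)) (fun n => Wt_nonneg _ _ _ n) (K := Ioc y K) (V := V) hV0
    (A := (M : ℝ) ^ E) (B := B) (R := M ^ E) (one_le_pow₀ hMr1) (Nat.one_le_pow _ _ hM1) hB1 dW dWW dV t1 tV t2 w (N := N)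
    (by exact_mod_cast hNN) hgood
  refine le_trans ?_ fin
  have hden : 32 * (P : ℝ) * B ≤ 2 ^ (C * (J + 1) ^ 2) := by
    have h1 : (P : ℝ) ≤ 2 ^ P := by exact_mod_cast Nat.lt_two_pow_self.le
    calc 32 * (P : ℝ) * B ≤ 32 * 2 ^ P * 2 ^ (κ * (25 * c * (J + 1) ^ 2)) := by rw [hB]; gcongr
      _ = 2 ^ (5 + P + κ * (25 * c * (J + 1) ^ 2)) := by
          rw [show (32 : ℝ) = 2 ^ 5 by norm_num, ← pow_add, ← pow_add]
      _ ≤ 2 ^ (C * (J + 1) ^ 2) := by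
          apply pow_le_pow_right₀ (by norm_num)
          have g1 : 1 ≤ (J + 1) ^ 2 := Nat.one_le_pow _ _ (Nat.succ_pos J)
          have g2 : P ≤ P * (J + 1) ^ 2 := Nat.le_mul_of_pos_right _ (by positivity)
          have g5 : C * (J + 1) ^ 2 = (4 + 6 * (100 * c + 2 * a) + 2 * P) * (J + 1) ^ 2 + 5 * (J + 1) ^ 2 +
            P * (J + 1) ^ 2 + κ * (25 * c * (J + 1) ^ 2) := by rw [hC]; ring
          rw [g5]
          have g6 : 0 ≤ (4 + 6 * (100 * c + 2 * a) + 2 * P) * (J + 1) ^ 2 := Nat.zero_le _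
          omega
  have hB0 : 0 < B := by linarith
  have hPr : (0 : ℝ) < P := by exact_mod_cast hP0
  gcongr

end LCB
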