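import Pool.Agent.LCB.Avg

/-!
# LCB, part D: the tilt of one group
-/

set_option autoImplicit false

namespace LCB

open Finset Function

theorem pow_le_fact_exp (x : ℝ) {n : ℕ} (hn : Even n) : x ^ n ≤ n.factorial * (Real.exp x + Real.exp (-x)) := by
  have h1 := Real.pow_div_factorial_le_exp |x| (abs_nonneg x) n
  rw [div_le_iff₀ (by positivity)] at h1
  rw [hn.pow_abs] at h1
  have h2 : Real.exp |x| ≤ Real.exp x + Real.exp (-x) := by
    rcases abs_choice x with h | h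
    · rw [h]; linarith [Real.exp_pos (-x)]
    · rw [h]; linarith [Real.exp_pos x]
  have h3 : (0 : ℝ) < n.factorial := by positivity
  nlinarith

theorem exp_abs_le (x : ℝ) : Real.exp |x| ≤ Real.exp x + Real.exp (-x) := by
  rcases abs_choice x with h | h
  · rw [h]; linarith [Real.exp_pos (-x)]
  · rw [h]; linarith [Real.exp_pos x]

theorem exp_le_two (x : ℝ) : Real.exp x ≤ 1 + x + x ^ 2 * Real.exp |x| := by
  have h0 : 1 ≤ Real.exp |x| := Real.one_le_exp (abs_nonneg x)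
  rcases le_or_gt |x| 1 with h | h
  · have h1 := Real.abs_exp_sub_one_sub_id_le h
    have h2 := (abs_le.1 h1).2
    nlinarith [sq_nonneg x]
  · rcases lt_or_ge 0 x with hx | hx
    · rw [abs_of_pos hx] at h h0 ⊢
      have h3 : 1 ≤ x ^ 2 := by nlinarith
      nlinarith
    · rw [abs_of_nonpos hx] at h h0 ⊢
      have h3 : Real.exp x ≤ 1 := Real.exp_le_one_iff.2 hx
      nlinarith [sq_nonneg x]

/-- The hypotheses on a group: `ζ` is the normalised tilting function, `B` the part of the sum. -/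
structure GH (Q : ℕ) (ζ B : ℕ → ℝ) (u : ℝ) : Prop where
  hQ : 0 < Q
  hu : 0 < u
  oz : ∀ m < Q, ζ (Q - 1 - m) = - ζ m
  oB : ∀ m < Q, B (Q - 1 - m) = - B m
  mz : ∀ θ : ℝ, av Q (fun m => Real.exp (θ * ζ m)) ≤ Real.exp (θ ^ 2 / 2)
  mB : ∀ θ : ℝ, |θ| * u ≤ 3 → av Q (fun m => Real.exp (θ * B m)) ≤ Real.exp (θ ^ 2 * u ^ 2 / 2)

/-- The weight of a group. -/
noncomputable def T (ζ : ℕ → ℝ) (m : ℕ) : ℝ := (1 + ζ m) ^ 2

theorem T_nonneg (ζ : ℕ → ℝ) (m : ℕ) : 0 ≤ T ζ m := sq_nonneg _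

theorem av_odd {Q : ℕ} {f : ℕ → ℝ} (h : ∀ m < Q, f (Q - 1 - m) = - f m) : av Q f = 0 := by
  have h1 := av_refl Q f
  rw [av_congr Q h, av_neg] at h1
  linarith

variable {Q : ℕ} {ζ B : ℕ → ℝ} {u : ℝ}

theorem GH.z2 (H : GH Q ζ B u) : av Q (fun m => ζ m ^ 2) ≤ 4 * Real.exp (1 / 2) := by
  have h1 : av Q (fun m => ζ m ^ 2) ≤ av Q (fun m => 2 * (Real.exp (1 * ζ m) + Real.exp (-1 * ζ m))) := by
    refine av_mono Q fun m => ?_
    have := pow_le_fact_exp (ζ m) (n := 2) (by decide)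
    rw [one_mul, neg_one_mul]
    simpa using this
  rw [av_mul_left, av_add] at h1
  have h2 := H.mz 1
  have h3 := H.mz (-1)
  norm_num at h2 h3
  norm_num at h1
  linarith

theorem GH.B2 (H : GH Q ζ B u) : av Q (fun m => B m ^ 2) ≤ 4 * Real.exp (1 / 2) * u ^ 2 := by
  have hu := H.hu
  have h1 : av Q (fun m => B m ^ 2) ≤ av Q (fun m => (2 * u ^ 2) * (Real.exp (u⁻¹ * B m) + Real.exp ((-u⁻¹) * B m))) := by
    refine av_mono Q fun m => ?_
    have := pow_le_fact_exp (u⁻¹ * B m) (n := 2) (by decide)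
    have e : B m ^ 2 = u ^ 2 * (u⁻¹ * B m) ^ 2 := by field_simp
    rw [e, neg_mul]
    have h3 : (Nat.factorial 2 : ℝ) = 2 := by norm_num
    rw [h3] at this
    nlinarith [sq_nonneg u]
  rw [av_mul_left, av_add] at h1
  have hui : |u⁻¹| * u = 1 := by rw [abs_of_pos (inv_pos.2 hu), inv_mul_cancel₀ hu.ne']
  have h2 := H.mB u⁻¹ (by rw [hui]; norm_num)
  have h3 := H.mB (-u⁻¹) (by rw [abs_neg, hui]; norm_num)
  have e1 : u⁻¹ ^ 2 * u ^ 2 / 2 = 1 / 2 := by field_simp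
  have e2 : (-u⁻¹) ^ 2 * u ^ 2 / 2 = 1 / 2 := by field_simp
  rw [e1] at h2
  rw [e2] at h3
  nlinarith [sq_nonneg u]

/-- The normalisation. -/
noncomputable def tau (Q : ℕ) (ζ : ℕ → ℝ) : ℝ := av Q (T ζ)

theorem GH.tau_eq (H : GH Q ζ B u) : tau Q ζ = 1 + av Q (fun m => ζ m ^ 2) := by
  unfold tau T
  have e : av Q (fun m => (1 + ζ m) ^ 2) = av Q (fun m => (1 + 2 * ζ m) + ζ m ^ 2) :=
    av_congr Q fun m _ => by ring
  rw [e, av_add, av_add, av_const H.hQ, av_mul_left, av_odd H.oz]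
  ring

theorem GH.tau_ge (H : GH Q ζ B u) : 1 ≤ tau Q ζ := by
  rw [H.tau_eq]
  have := av_nonneg Q (f := fun m => ζ m ^ 2) fun m => sq_nonneg _
  linarith

theorem GH.tau_le (H : GH Q ζ B u) : tau Q ζ ≤ 8 := by
  rw [H.tau_eq]
  have h1 := H.z2
  have h2 : Real.exp (1 / 2) ≤ 7 / 4 := by
    have h3 : Real.exp (1 / 2) ^ 2 = Real.exp 1 := by
      rw [← Real.exp_nat_mul]; norm_num
    have h4 := Real.exp_one_lt_d9
    have h5 := Real.exp_pos (1 / 2)
    by_contra hcon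
    push Not at hcon
    nlinarith
  linarith

/-- The bound for the second moment of the weight. -/
noncomputable def KT : ℝ := 24 * ((Real.exp 1 + Real.exp (-1)) * Real.exp (1 / 2))

theorem KT_pos : 0 < KT := by unfold KT; positivity

theorem GH.T2 (H : GH Q ζ B u) : av Q (fun m => T ζ m ^ 2) ≤ KT := by
  have h1 : av Q (fun m => T ζ m ^ 2) ≤
      av Q (fun m => 24 * (Real.exp 1 * Real.exp (1 * ζ m) + Real.exp (-1) * Real.exp (-1 * ζ m))) := by
    refine av_mono Q fun m => ?_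
    have h := pow_le_fact_exp (1 + ζ m) (n := 4) (by decide)
    have e : T ζ m ^ 2 = (1 + ζ m) ^ 4 := by unfold T; ring
    rw [e, ← Real.exp_add, ← Real.exp_add]
    have h3 : (Nat.factorial 4 : ℝ) = 24 := by norm_num [Nat.factorial]
    rw [h3] at h
    have e1 : 1 + 1 * ζ m = 1 + ζ m := by ring
    have e2 : -1 + -1 * ζ m = -(1 + ζ m) := by ring
    rw [e1, e2]
    exact h
  rw [av_mul_left, av_add, av_mul_left, av_mul_left] at h1
  have h2 := H.mz 1
  have h3 := H.mz (-1)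
  norm_num at h2 h3
  norm_num at h1
  unfold KT
  have p1 := Real.exp_pos 1
  have p2 := Real.exp_pos (-1)
  nlinarith

/-- The tilted mean of `B`. -/
noncomputable def mu (Q : ℕ) (ζ B : ℕ → ℝ) : ℝ := av Q (fun m => T ζ m * B m) / tau Q ζ

theorem GH.mu_eq (H : GH Q ζ B u) : mu Q ζ B = 2 * av Q (fun m => ζ m * B m) / tau Q ζ := by
  unfold mu
  congr 1
  have e : av Q (fun m => T ζ m * B m) = av Q (fun m => (B m + ζ m ^ 2 * B m) + 2 * (ζ m * B m)) :=
    av_congr Q fun m _ => by unfold T; ring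
  have h1 : av Q (fun m => B m + ζ m ^ 2 * B m) = 0 := by
    refine av_odd fun m hm => ?_
    rw [H.oz m hm, H.oB m hm]
    ring
  rw [e, av_add, h1, av_mul_left]
  ring

/-- The bound for the tilted mean. -/
noncomputable def KM : ℝ := √(KT * (4 * Real.exp (1 / 2)))

theorem KM_nonneg : 0 ≤ KM := Real.sqrt_nonneg _

theorem GH.mu_abs (H : GH Q ζ B u) : |mu Q ζ B| ≤ KM * u := by
  have h1 := av_cs Q (T ζ) B
  have h2 : (av Q (fun m => T ζ m * B m)) ^ 2 ≤ KT * (4 * Real.exp (1 / 2) * u ^ 2) := by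
    refine h1.trans ?_
    have p1 : 0 ≤ av Q (fun m => B m ^ 2) := av_nonneg Q fun m => sq_nonneg _
    exact mul_le_mul H.T2 H.B2 p1 KT_pos.le
  have h3 : |av Q (fun m => T ζ m * B m)| ≤ KM * u := by
    refine abs_le_of_sq_le_sq ?_ (mul_nonneg KM_nonneg H.hu.le)
    unfold KM
    rw [mul_pow, Real.sq_sqrt (mul_nonneg KT_pos.le (by positivity))]
    linarith
  unfold mu
  have h4 := H.tau_ge
  rw [abs_div, abs_of_pos (by linarith : 0 < tau Q ζ), div_le_iff₀ (by linarith)]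
  nlinarith [abs_nonneg (av Q (fun m => T ζ m * B m)), mul_nonneg KM_nonneg H.hu.le]

/-- The bound for the fourth moment. -/
noncomputable def KY : ℝ := 48 * (Real.exp (3 * KM) * (2 * Real.exp (9 / 2)))

theorem KY_pos : 0 < KY := by unfold KY; positivity

/-- The constant in the tilted moment generating function. -/
noncomputable def C0 : ℝ := √(KT * KY)

theorem C0_nonneg : 0 ≤ C0 := Real.sqrt_nonneg _

theorem GH.Y4 (H : GH Q ζ B u) {lam : ℝ} (hl : |lam| * u ≤ 1) :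
    av Q (fun m => ((B m - mu Q ζ B) ^ 2 * Real.exp |lam * (B m - mu Q ζ B)|) ^ 2) ≤ KY * u ^ 4 := by
  have hu := H.hu
  have hmu := H.mu_abs
  have key : ∀ m, ((B m - mu Q ζ B) ^ 2 * Real.exp |lam * (B m - mu Q ζ B)|) ^ 2 ≤
      (48 * u ^ 4 * Real.exp (3 * KM)) * (Real.exp ((3 * u⁻¹) * B m) + Real.exp ((-(3 * u⁻¹)) * B m)) := by
    intro m
    set Y := B m - mu Q ζ B with hY
    have h1 : Y ^ 4 ≤ 24 * u ^ 4 * (2 * Real.exp (u⁻¹ * |Y|)) := by
      have h := pow_le_fact_exp (u⁻¹ * |Y|) (n := 4) (by decide)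
      have h3 : (Nat.factorial 4 : ℝ) = 24 := by norm_num [Nat.factorial]
      rw [h3] at h
      have h4 : Real.exp (-(u⁻¹ * |Y|)) ≤ Real.exp (u⁻¹ * |Y|) := by
        apply Real.exp_le_exp.2
        have : 0 ≤ u⁻¹ * |Y| := by positivity
        linarith
      have e : Y ^ 4 = u ^ 4 * (u⁻¹ * |Y|) ^ 4 := by
        rw [mul_pow, show |Y| ^ 4 = Y ^ 4 from (by decide : Even 4).pow_abs Y]
        field_simp
      rw [e]
      have p4 : 0 ≤ u ^ 4 := by positivity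
      nlinarith
    have h2 : |lam * Y| ≤ u⁻¹ * |Y| := by
      rw [abs_mul]
      have : |lam| ≤ u⁻¹ := by
        rw [← one_div, le_div_iff₀ hu]
        exact hl
      exact mul_le_mul_of_nonneg_right this (abs_nonneg Y)
    have h3 : |Y| ≤ |B m| + KM * u := by
      calc |Y| ≤ |B m| + |mu Q ζ B| := abs_sub _ _
        _ ≤ _ := by linarith
    have h4 : (Y ^ 2 * Real.exp |lam * Y|) ^ 2 = Y ^ 4 * Real.exp (2 * |lam * Y|) := by
      rw [mul_pow, ← pow_mul, ← Real.exp_nat_mul]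
      norm_num
    rw [h4]
    have e9 : (3 * u⁻¹) * B m = 3 * u⁻¹ * B m := rfl
    calc Y ^ 4 * Real.exp (2 * |lam * Y|) ≤ (24 * u ^ 4 * (2 * Real.exp (u⁻¹ * |Y|))) * Real.exp (2 * (u⁻¹ * |Y|)) := by
          gcongr
      _ = 48 * u ^ 4 * Real.exp (3 * (u⁻¹ * |Y|)) := by
          have : Real.exp (3 * (u⁻¹ * |Y|)) = Real.exp (u⁻¹ * |Y|) * Real.exp (2 * (u⁻¹ * |Y|)) := by
            rw [← Real.exp_add]; congr 1; ring
          rw [this]; ring
      _ ≤ 48 * u ^ 4 * Real.exp (3 * KM + |3 * u⁻¹ * B m|) := by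
          gcongr
          rw [abs_mul, abs_of_pos (by positivity : 0 < 3 * u⁻¹)]
          have : u⁻¹ * |Y| ≤ u⁻¹ * (|B m| + KM * u) := by gcongr
          have e5 : u⁻¹ * (|B m| + KM * u) = u⁻¹ * |B m| + KM := by field_simp
          rw [e5] at this
          nlinarith
      _ = 48 * u ^ 4 * Real.exp (3 * KM) * Real.exp |3 * u⁻¹ * B m| := by rw [Real.exp_add]; ring
      _ ≤ 48 * u ^ 4 * Real.exp (3 * KM) * (Real.exp ((3 * u⁻¹) * B m) + Real.exp ((-(3 * u⁻¹)) * B m)) := by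
          gcongr
          have := exp_abs_le (3 * u⁻¹ * B m)
          rwa [← neg_mul] at this
  refine (av_mono Q key).trans ?_
  rw [av_mul_left, av_add]
  have hui : |3 * u⁻¹| * u = 3 := by
    rw [abs_of_pos (by positivity), mul_assoc, inv_mul_cancel₀ hu.ne', mul_one]
  have h5 := H.mB (3 * u⁻¹) hui.le
  have h6 := H.mB (-(3 * u⁻¹)) (by rw [abs_neg]; exact hui.le)
  have e1 : (3 * u⁻¹) ^ 2 * u ^ 2 / 2 = 9 / 2 := by field_simp; norm_num
  have e2 : (-(3 * u⁻¹)) ^ 2 * u ^ 2 / 2 = 9 / 2 := by field_simp; norm_num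
  rw [e1] at h5
  rw [e2] at h6
  calc (48 * u ^ 4 * Real.exp (3 * KM)) * (av Q (fun m => Real.exp ((3 * u⁻¹) * B m)) +
        av Q (fun m => Real.exp ((-(3 * u⁻¹)) * B m)))
      ≤ (48 * u ^ 4 * Real.exp (3 * KM)) * (Real.exp (9 / 2) + Real.exp (9 / 2)) := by gcongr
    _ = KY * u ^ 4 := by unfold KY; ring

/-- The moment generating function of a group under the tilt. -/
theorem GH.mgf (H : GH Q ζ B u) {lam : ℝ} (hl : |lam| * u ≤ 1) :
    av Q (fun m => T ζ m * Real.exp (lam * (B m - mu Q ζ B))) ≤ tau Q ζ * Real.exp (C0 * (lam ^ 2 * u ^ 2)) := by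
  have ht := H.tau_ge
  have hu := H.hu
  have h1 : av Q (fun m => T ζ m * Real.exp (lam * (B m - mu Q ζ B))) ≤
      av Q (fun m => (T ζ m + lam * (T ζ m * B m - mu Q ζ B * T ζ m)) +
        lam ^ 2 * (T ζ m * ((B m - mu Q ζ B) ^ 2 * Real.exp |lam * (B m - mu Q ζ B)|))) := by
    refine av_mono Q fun m => ?_
    have h := exp_le_two (lam * (B m - mu Q ζ B))
    have := mul_le_mul_of_nonneg_left h (T_nonneg ζ m)
    refine this.trans (le_of_eq ?_)
    ring
  have h2 : av Q (fun m => (T ζ m + lam * (T ζ m * B m - mu Q ζ B * T ζ m)) +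
        lam ^ 2 * (T ζ m * ((B m - mu Q ζ B) ^ 2 * Real.exp |lam * (B m - mu Q ζ B)|))) =
      tau Q ζ + lam ^ 2 * av Q (fun m => T ζ m * ((B m - mu Q ζ B) ^ 2 * Real.exp |lam * (B m - mu Q ζ B)|)) := by
    rw [av_add, av_add, av_mul_left, av_sub, av_mul_left, av_mul_left]
    have e : av Q (fun m => T ζ m * B m) = mu Q ζ B * tau Q ζ := by
      unfold mu
      rw [div_mul_cancel₀ _ (by linarith)]
    have e' : av Q (fun m => T ζ m) = tau Q ζ := rfl
    rw [e, e']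
    ring
  have h3 : av Q (fun m => T ζ m * ((B m - mu Q ζ B) ^ 2 * Real.exp |lam * (B m - mu Q ζ B)|)) ≤ C0 * u ^ 2 := by
    have h4 := av_cs Q (T ζ) (fun m => (B m - mu Q ζ B) ^ 2 * Real.exp |lam * (B m - mu Q ζ B)|)
    have h5 : (av Q (fun m => T ζ m * ((B m - mu Q ζ B) ^ 2 * Real.exp |lam * (B m - mu Q ζ B)|))) ^ 2 ≤
        KT * (KY * u ^ 4) := by
      refine h4.trans ?_
      exact mul_le_mul H.T2 (H.Y4 hl) (av_nonneg Q fun m => sq_nonneg _) KT_pos.le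
    refine abs_le_of_sq_le_sq' ?_ (mul_nonneg C0_nonneg (by positivity)) |>.2
    unfold C0
    rw [mul_pow, Real.sq_sqrt (mul_nonneg KT_pos.le KY_pos.le)]
    refine h5.trans (le_of_eq ?_)
    ring
  rw [h2] at h1
  refine h1.trans ?_
  have h6 : 1 + C0 * (lam ^ 2 * u ^ 2) ≤ Real.exp (C0 * (lam ^ 2 * u ^ 2)) := by
    have := Real.add_one_le_exp (C0 * (lam ^ 2 * u ^ 2))
    linarith
  have p1 : 0 ≤ C0 * (lam ^ 2 * u ^ 2) := mul_nonneg C0_nonneg (by positivity)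
  calc tau Q ζ + lam ^ 2 * av Q (fun m => T ζ m * ((B m - mu Q ζ B) ^ 2 * Real.exp |lam * (B m - mu Q ζ B)|))
      ≤ tau Q ζ + lam ^ 2 * (C0 * u ^ 2) := by gcongr
    _ = tau Q ζ + C0 * (lam ^ 2 * u ^ 2) := by ring
    _ ≤ tau Q ζ * (1 + C0 * (lam ^ 2 * u ^ 2)) := by nlinarith
    _ ≤ _ := by gcongr

end LCB
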