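import Pool.Agent.LCB.Tra

/-!
# LCB, part H: the groups
-/

set_option autoImplicit false

namespace LCB

open Finset Function ArithmeticFunction

/-- The size of the groups at scale `j`. -/
def ss (c j : ℕ) : ℕ := 2 ^ j / (c * (j + 1) ^ 2)

/-- The label of a prime. -/
def gi (c p : ℕ) : ℕ × ℕ := (Nat.log 2 p, Nat.primeCounting' p / ss c (Nat.log 2 p))

/-- The size of a group. -/
def sg (c : ℕ) (γ : ℕ × ℕ) : ℕ := ss c γ.1

/-- The bound for `log p` in a group. -/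
noncomputable def lg (γ : ℕ × ℕ) : ℝ := (γ.1 : ℝ) + 1

theorem ss_mul_le (c j : ℕ) : ss c j * (c * (j + 1) ^ 2) ≤ 2 ^ j := Nat.div_mul_le_self _ _

theorem ss_pos {c j : ℕ} (hc : 0 < c) (h : c * (j + 1) ^ 2 ≤ 2 ^ j) : 0 < ss c j :=
  Nat.div_pos h (by positivity)

theorem lt_ss {c j : ℕ} (hc : 0 < c) (h : c * (j + 1) ^ 2 ≤ 2 ^ j) : 2 ^ j ≤ 2 * ss c j * (c * (j + 1) ^ 2) := by
  have h1 : 2 ^ j < (ss c j + 1) * (c * (j + 1) ^ 2) := by
    unfold ss
    exact (Nat.div_lt_iff_lt_mul (by positivity)).1 (Nat.lt_succ_self _)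
  have h2 := ss_pos hc h
  have h3 : (ss c j + 1) * (c * (j + 1) ^ 2) ≤ (2 * ss c j) * (c * (j + 1) ^ 2) := Nat.mul_le_mul_right _ (by omega)
  omega

theorem ss_sq_le {c j : ℕ} (hc : 0 < c) : ss c j * (j + 1) ^ 2 ≤ 2 ^ j := by
  have h := ss_mul_le c j
  calc ss c j * (j + 1) ^ 2 ≤ ss c j * (c * (j + 1) ^ 2) := by
        apply Nat.mul_le_mul_left
        exact Nat.le_mul_of_pos_left _ hc
    _ ≤ _ := h

theorem pc_le (j : ℕ) : Nat.primeCounting' (2 ^ (j + 1)) * (j + 1) ≤ 12 * 2 ^ j := by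
  have h0 : Nat.primeCounting' (2 ^ (j + 1)) ≤ Nat.primeCounting (2 ^ (j + 1)) := by
    unfold Nat.primeCounting
    exact Nat.monotone_primeCounting' (Nat.le_succ _)
  have h1 : (1 : ℝ) < (2 : ℝ) ^ (j + 1) := one_lt_pow₀ (by norm_num) (by omega)
  have h2 := Chebyshev.pi_le_log4_mul_div h1
  have e0 : ⌊(2 : ℝ) ^ (j + 1)⌋₊ = 2 ^ (j + 1) := by
    have : ((2 : ℝ) ^ (j + 1)) = ((2 ^ (j + 1) : ℕ) : ℝ) := by push_cast; rfl
    rw [this, Nat.floor_natCast]
  rw [e0] at h2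
  have hl2 : 0 < Real.log 2 := Real.log_pos (by norm_num)
  have e1 : Real.log √((2 : ℝ) ^ (j + 1)) = ((j : ℝ) + 1) * Real.log 2 / 2 := by
    rw [Real.log_sqrt (by positivity), Real.log_pow]; push_cast; ring
  have e2 : Real.log 4 = 2 * Real.log 2 := by
    rw [show (4 : ℝ) = 2 ^ 2 by norm_num, Real.log_pow]; norm_num
  have hj : (0 : ℝ) < (j : ℝ) + 1 := by positivity
  have e3 : Real.log 4 * 2 ^ (j + 1) / Real.log √((2 : ℝ) ^ (j + 1)) * ((j : ℝ) + 1) = 4 * 2 ^ (j + 1) := by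
    rw [e1, e2]; field_simp; norm_num
  have h3 : √((2 : ℝ) ^ (j + 1)) * ((j : ℝ) + 1) ≤ 2 * 2 ^ (j + 1) := by
    have h4 : ((j : ℝ) + 1) ≤ 2 * √((2 : ℝ) ^ (j + 1)) := by
      have h5 : ((j : ℝ) + 1) ^ 2 ≤ 4 * 2 ^ (j + 1) := by
        have h6 : ∀ n : ℕ, n ^ 2 ≤ 4 * 2 ^ n := by
          intro n
          induction n with
          | zero => norm_num
          | succ n ih =>
            rcases le_or_gt n 2 with hn | hn
            · interval_cases n <;> norm_num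
            · rw [pow_succ 2 n]
              nlinarith
        exact_mod_cast h6 (j + 1)
      have h7 : √(((j : ℝ) + 1) ^ 2) ≤ √(4 * 2 ^ (j + 1)) := Real.sqrt_le_sqrt h5
      rw [Real.sqrt_sq hj.le, Real.sqrt_mul (by norm_num : (0 : ℝ) ≤ 4),
        show (4 : ℝ) = 2 ^ 2 by norm_num, Real.sqrt_sq (by norm_num : (0 : ℝ) ≤ 2)] at h7
      exact h7
    calc √((2 : ℝ) ^ (j + 1)) * ((j : ℝ) + 1) ≤ √((2 : ℝ) ^ (j + 1)) * (2 * √((2 : ℝ) ^ (j + 1))) := by gcongr
      _ = 2 * (√((2 : ℝ) ^ (j + 1)) * √((2 : ℝ) ^ (j + 1))) := by ring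
      _ = 2 * 2 ^ (j + 1) := by rw [Real.mul_self_sqrt (by positivity)]
  have h8 : ((Nat.primeCounting (2 ^ (j + 1)) : ℕ) : ℝ) * ((j : ℝ) + 1) ≤ 6 * 2 ^ (j + 1) := by
    calc ((Nat.primeCounting (2 ^ (j + 1)) : ℕ) : ℝ) * ((j : ℝ) + 1)
        ≤ (Real.log 4 * 2 ^ (j + 1) / Real.log √((2 : ℝ) ^ (j + 1)) + √((2 : ℝ) ^ (j + 1))) * ((j : ℝ) + 1) := by gcongr
      _ = 4 * 2 ^ (j + 1) + √((2 : ℝ) ^ (j + 1)) * ((j : ℝ) + 1) := by rw [add_mul, e3]
      _ ≤ _ := by linarith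
  have h9 : Nat.primeCounting (2 ^ (j + 1)) * (j + 1) ≤ 12 * 2 ^ j := by
    have : ((Nat.primeCounting (2 ^ (j + 1)) * (j + 1) : ℕ) : ℝ) ≤ ((12 * 2 ^ j : ℕ) : ℝ) := by
      push_cast
      refine h8.trans (le_of_eq ?_)
      rw [pow_succ]; ring
    exact_mod_cast this
  exact (Nat.mul_le_mul_right _ h0).trans h9

/-- The primes of the construction. -/
def SS (j0 K : ℕ) : Finset ℕ := pr (2 ^ j0) K

/-- The modulus. -/
def QQ (j0 K : ℕ) : ℕ := ∏ p ∈ SS j0 K, p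

theorem mem_SS {j0 K p : ℕ} : p ∈ SS j0 K ↔ (2 ^ j0 < p ∧ p ≤ K) ∧ p.Prime := by
  unfold SS; exact mem_pr

theorem log_SS {j0 K p : ℕ} (h : p ∈ SS j0 K) : j0 ≤ Nat.log 2 p := by
  rw [mem_SS] at h
  exact (Nat.le_log_iff_pow_le (by norm_num) h.2.ne_zero).2 h.1.1.le

theorem QQ_pos (j0 K : ℕ) : 0 < QQ j0 K := prod_pos fun _ hp => (mem_SS.1 hp).2.pos

theorem log_le_lg {p : ℕ} (hp : 0 < p) : Real.log p ≤ (Nat.log 2 p : ℝ) + 1 := by
  have h1 : (p : ℝ) ≤ (2 : ℝ) ^ (Nat.log 2 p + 1) := by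
    exact_mod_cast (Nat.lt_pow_succ_log_self (by norm_num : 1 < 2) p).le
  have h2 := Real.log_le_log (by exact_mod_cast hp) h1
  rw [Real.log_pow] at h2
  have h3 : Real.log 2 ≤ 1 := by
    have := Real.log_two_lt_d9
    linarith
  push_cast at h2
  have h4 : (0 : ℝ) ≤ (Nat.log 2 p : ℝ) := Nat.cast_nonneg _
  nlinarith

theorem sys {c j0 K : ℕ} (hc : 0 < c) (hj : ∀ j, j0 ≤ j → c * (j + 1) ^ 2 ≤ 2 ^ j) :
    Sys (QQ j0 K) (SS j0 K) (gi c) (sg c) lg := by
  refine ⟨QQ_pos j0 K, fun p hp => (mem_SS.1 hp).2, fun p hp => dvd_prod_of_mem _ hp, ?_, ?_⟩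
  · intro γ hγ
    rw [mem_image] at hγ
    obtain ⟨q, hq, rfl⟩ := hγ
    set j := Nat.log 2 q with hjq
    have hs : 0 < ss c j := ss_pos hc (hj j (log_SS hq))
    set r := Nat.primeCounting' q / ss c j with hr
    have e1 : gi c q = (j, r) := rfl
    have e2 : sg c (gi c q) = ss c j := rfl
    rw [e2, e1]
    have h1 : (cl (SS j0 K) (gi c) (j, r)).card ≤ (Ico (r * ss c j) (r * ss c j + ss c j)).card := by
      refine card_le_card_of_injOn Nat.primeCounting' (fun p hp => ?_) (fun p hp p' hp' h => ?_)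
      · rw [mem_coe, mem_cl] at hp
        rw [mem_coe, mem_Ico]
        have h2 := hp.2
        unfold gi at h2
        rw [Prod.mk.injEq] at h2
        rw [h2.1] at h2
        have h3 := h2.2
        have h4 := Nat.div_add_mod (Nat.primeCounting' p) (ss c j)
        have h5 := Nat.mod_lt (Nat.primeCounting' p) hs
        rw [h3] at h4
        rw [mul_comm r]
        omega
      · rw [mem_coe, mem_cl] at hp hp'
        exact Nat.count_injective (mem_SS.1 hp.1).2 (mem_SS.1 hp'.1).2 h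
    rw [Nat.card_Ico] at h1
    omega
  · intro p hp
    exact log_le_lg (mem_SS.1 hp).2.pos

/-- The labels at scale `j`. -/
theorem fiber {c j0 K : ℕ} (hc : 0 < c) (hj : ∀ j, j0 ≤ j → c * (j + 1) ^ 2 ≤ 2 ^ j) (j : ℕ) {G : Finset (ℕ × ℕ)}
    (hG : G ⊆ (SS j0 K).image (gi c)) :
    (G.filter (fun γ => γ.1 = j)).card ≤ 25 * c * (j + 1) ∧
      (G.filter (fun γ => γ.1 = j)).card * (ss c j * (j + 1) ^ 2) ≤ 13 * 2 ^ j * (j + 1) := by
  by_cases hj0 : j0 ≤ j
  · have hs : 0 < ss c j := ss_pos hc (hj j hj0)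
    have hlt := lt_ss hc (hj j hj0)
    set b := Nat.primeCounting' (2 ^ (j + 1)) with hb
    have hpc := pc_le j
    rw [← hb] at hpc
    have h1 : (G.filter (fun γ => γ.1 = j)).card ≤ b / ss c j + 1 := by
      have h2 : G.filter (fun γ => γ.1 = j) ⊆ (range (b / ss c j + 1)).image (fun r => (j, r)) := by
        intro γ hγ
        rw [mem_filter] at hγ
        have h3 := hG hγ.1
        rw [mem_image] at h3
        obtain ⟨p, hp, rfl⟩ := h3
        have h4 : Nat.log 2 p = j := hγ.2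
        rw [mem_image]
        refine ⟨Nat.primeCounting' p / ss c j, ?_, ?_⟩
        · rw [mem_range]
          have h5 : p ≤ 2 ^ (j + 1) := by
            rw [← h4]
            exact (Nat.lt_pow_succ_log_self (by norm_num : 1 < 2) p).le
          have h6 : Nat.primeCounting' p ≤ b := Nat.monotone_primeCounting' h5
          have := Nat.div_le_div_right (c := ss c j) h6
          omega
        · unfold gi
          rw [h4]
      refine (card_le_card h2).trans (card_image_le.trans ?_)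
      rw [card_range]
    constructor
    · have h2 : b / ss c j ≤ 24 * c * (j + 1) := by
        have h3 : b ≤ 24 * c * (j + 1) * ss c j := by
          have h4 : b * (j + 1) ≤ 24 * c * (j + 1) * ss c j * (j + 1) := by
            calc b * (j + 1) ≤ 12 * 2 ^ j := hpc
              _ ≤ 12 * (2 * ss c j * (c * (j + 1) ^ 2)) := Nat.mul_le_mul_left _ hlt
              _ = _ := by ring
          exact Nat.le_of_mul_le_mul_right h4 (Nat.succ_pos j)
        exact Nat.div_le_of_le_mul (by rw [mul_comm (ss c j)]; exact h3)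
      have h3 : 1 ≤ c * (j + 1) := Nat.mul_pos hc (Nat.succ_pos j)
      calc (G.filter (fun γ => γ.1 = j)).card ≤ b / ss c j + 1 := h1
        _ ≤ 24 * c * (j + 1) + c * (j + 1) := Nat.add_le_add h2 h3
        _ = _ := by ring
    · calc (G.filter (fun γ => γ.1 = j)).card * (ss c j * (j + 1) ^ 2)
          ≤ (b / ss c j + 1) * (ss c j * (j + 1) ^ 2) := Nat.mul_le_mul_right _ h1
        _ = (b / ss c j * ss c j) * (j + 1) ^ 2 + ss c j * (j + 1) ^ 2 := by ring
        _ ≤ b * (j + 1) ^ 2 + 2 ^ j := by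
            refine Nat.add_le_add (Nat.mul_le_mul_right _ (Nat.div_mul_le_self _ _)) (ss_sq_le hc)
        _ = b * (j + 1) * (j + 1) + 2 ^ j := by ring
        _ ≤ 12 * 2 ^ j * (j + 1) + 2 ^ j * (j + 1) := by
            refine Nat.add_le_add (Nat.mul_le_mul_right _ hpc) ?_
            exact Nat.le_mul_of_pos_right _ (Nat.succ_pos j)
        _ = _ := by ring
  · have h0 : G.filter (fun γ => γ.1 = j) = ∅ := by
      rw [filter_eq_empty_iff]
      intro γ hγ h1
      have h3 := hG hγ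
      rw [mem_image] at h3
      obtain ⟨p, hp, rfl⟩ := h3
      have h4 : Nat.log 2 p = j := h1
      have := log_SS hp
      omega
    rw [h0, card_empty]
    constructor
    · exact Nat.zero_le _
    · rw [zero_mul]; exact Nat.zero_le _

theorem sum_two_pow (J : ℕ) : ∑ j ∈ range (J + 1), 2 ^ j ≤ 2 ^ (J + 1) := by
  have := Nat.geomSum_lt (m := 2) (n := J + 1) (s := range (J + 1)) (by norm_num) (fun k hk => mem_range.1 hk)
  exact this.le

theorem group_sum {c j0 K : ℕ} (hc : 0 < c) (hj : ∀ j, j0 ≤ j → c * (j + 1) ^ 2 ≤ 2 ^ j) {J : ℕ} {G : Finset (ℕ × ℕ)}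
    (hG : G ⊆ (SS j0 K).image (gi c)) (hJ : ∀ γ ∈ G, γ.1 ≤ J) :
    G.card ≤ 25 * c * (J + 1) ^ 2 ∧ ∑ γ ∈ G, (sg c γ : ℝ) * lg γ ^ 2 ≤ 13 * 2 ^ (J + 1) * (J + 1) := by
  have hmaps : ∀ γ ∈ G, γ.1 ∈ range (J + 1) := fun γ hγ => mem_range.2 (Nat.lt_succ_of_le (hJ γ hγ))
  constructor
  · rw [card_eq_sum_card_fiberwise hmaps]
    calc ∑ j ∈ range (J + 1), (G.filter (fun γ => γ.1 = j)).card ≤ ∑ j ∈ range (J + 1), 25 * c * (J + 1) := by
          refine sum_le_sum fun j hj' => ((fiber hc hj j hG).1).trans ?_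
          rw [mem_range] at hj'
          exact Nat.mul_le_mul_left _ (by omega)
      _ = _ := by rw [sum_const, card_range, smul_eq_mul]; ring
  · rw [← sum_fiberwise_of_maps_to hmaps]
    have h1 : ∀ j ∈ range (J + 1), ∑ γ ∈ G.filter (fun γ => γ.1 = j), (sg c γ : ℝ) * lg γ ^ 2 ≤ 13 * 2 ^ j * (J + 1) := by
      intro j hj'
      rw [mem_range] at hj'
      have h2 : ∑ γ ∈ G.filter (fun γ => γ.1 = j), (sg c γ : ℝ) * lg γ ^ 2 =
          (((G.filter (fun γ => γ.1 = j)).card * (ss c j * (j + 1) ^ 2) : ℕ) : ℝ) := by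
        have h3 : ∀ γ ∈ G.filter (fun γ => γ.1 = j), (sg c γ : ℝ) * lg γ ^ 2 = ((ss c j * (j + 1) ^ 2 : ℕ) : ℝ) := by
          intro γ hγ
          rw [mem_filter] at hγ
          unfold sg lg
          rw [hγ.2]
          push_cast
          rfl
        rw [sum_congr rfl h3, sum_const, nsmul_eq_mul]
        push_cast
        rfl
      rw [h2]
      have h4 := (fiber hc hj j hG).2
      have h5 : (((G.filter (fun γ => γ.1 = j)).card * (ss c j * (j + 1) ^ 2) : ℕ) : ℝ) ≤ ((13 * 2 ^ j * (j + 1) : ℕ) : ℝ) := by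
        exact_mod_cast h4
      refine h5.trans ?_
      push_cast
      have : (j : ℝ) ≤ J := by exact_mod_cast (by omega : j ≤ J)
      gcongr
    refine (sum_le_sum h1).trans ?_
    rw [← sum_mul, ← mul_sum]
    have h2 : ∑ j ∈ range (J + 1), (2 : ℝ) ^ j ≤ 2 ^ (J + 1) := by exact_mod_cast sum_two_pow J
    gcongr

end LCB
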