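import Pool.Agent.LCB.Ari

/-!
# LCB, part A2: reduction to the sum over large primes
-/

set_option autoImplicit false

namespace LCB

open Finset ArithmeticFunction

/-- The primes in `(y, k]`. -/
def pr (y k : ℕ) : Finset ℕ := (Ioc y k).filter Nat.Prime

theorem mem_pr {y k p : ℕ} : p ∈ pr y k ↔ (y < p ∧ p ≤ k) ∧ p.Prime := by
  unfold pr; rw [mem_filter, mem_Ioc]

theorem X_of_dvd {d k n : ℕ} (hd : 0 < d) (h : d ∣ n) : X d k n = if d ∣ k then 0 else 1 := by
  have h1 : n % d = 0 := Nat.mod_eq_zero_of_dvd h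
  have h2 := Nat.mod_lt k hd
  unfold X
  rw [h1, zero_add, if_neg (by omega : ¬ d ≤ k % d), sub_zero]
  by_cases h3 : d ∣ k
  · rw [if_pos h3, if_neg]
    have := Nat.mod_eq_zero_of_dvd h3
    omega
  · rw [if_neg h3, if_pos]
    rcases Nat.eq_zero_or_pos (k % d) with h4 | h4
    · exact absurd (Nat.dvd_of_mod_eq_zero h4) h3
    · exact h4

theorem small_k {y k n : ℕ} (h : ∀ d, 1 ≤ d → d ≤ y → d ∣ n) (hky : k ≤ y) :
    0 ≤ ∑ d ∈ Icc 1 k, Λ d * X d k n := by
  refine sum_nonneg fun d hd => ?_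
  rw [mem_Icc] at hd
  rw [X_of_dvd (by omega) (h d hd.1 (by omega))]
  have := vonMangoldt_nonneg (n := d)
  split_ifs
  · simp
  · simpa using this

theorem psi_nat (k : ℕ) : Chebyshev.psi (k : ℝ) = ∑ d ∈ Icc 1 k, Λ d := by
  unfold Chebyshev.psi
  rw [Nat.floor_natCast]
  rfl

theorem large_k {y k n : ℕ} (h : ∀ d, 1 ≤ d → d ≤ y → d ∣ n) (hky : y < k) :
    (Chebyshev.psi (y : ℝ) - Real.log k) - (Chebyshev.psi (k : ℝ) - Chebyshev.theta (k : ℝ)) +
      ∑ p ∈ pr y k, Real.log p * X p k n ≤ ∑ d ∈ Icc 1 k, Λ d * X d k n := by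
  have hk : 0 < k := by omega
  have e1 : Icc 1 k = Icc 1 y ∪ Ioc y k := by
    ext d; simp only [mem_union, mem_Icc, mem_Ioc]; omega
  have hdis : Disjoint (Icc 1 y) (Ioc y k) := by
    rw [disjoint_left]
    intro d h1 h2
    rw [mem_Icc] at h1
    rw [mem_Ioc] at h2
    omega
  rw [e1, sum_union hdis]
  have h1 : Chebyshev.psi (y : ℝ) - Real.log k ≤ ∑ d ∈ Icc 1 y, Λ d * X d k n := by
    have e2 : ∑ d ∈ Icc 1 y, Λ d * X d k n = ∑ d ∈ Icc 1 y, Λ d - ∑ d ∈ Icc 1 y, Λ d * (if d ∣ k then (1 : ℝ) else 0) := by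
      rw [← sum_sub_distrib]
      refine sum_congr rfl fun d hd => ?_
      rw [mem_Icc] at hd
      rw [X_of_dvd (by omega) (h d hd.1 hd.2)]
      split_ifs <;> ring
    have e3 : ∑ d ∈ Icc 1 y, Λ d * (if d ∣ k then (1 : ℝ) else 0) ≤ Real.log k := by
      rw [log_eq_sum hk (le_refl k)]
      refine sum_le_sum_of_subset_of_nonneg (Icc_subset_Icc_right hky.le) fun d _ _ => ?_
      exact mul_nonneg vonMangoldt_nonneg (by split_ifs <;> norm_num)
    rw [e2, ← psi_nat]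
    linarith
  have h2 : ∑ p ∈ pr y k, Real.log p * X p k n - (Chebyshev.psi (k : ℝ) - Chebyshev.theta (k : ℝ)) ≤
      ∑ d ∈ Ioc y k, Λ d * X d k n := by
    rw [Chebyshev.psi_sub_theta_eq_sum_not_prime, Nat.floor_natCast,
      ← sum_filter_add_sum_filter_not (Ioc y k) Nat.Prime (fun d => Λ d * X d k n)]
    have e4 : ∑ p ∈ pr y k, Real.log p * X p k n = ∑ d ∈ (Ioc y k).filter Nat.Prime, Λ d * X d k n := by
      unfold pr
      refine sum_congr rfl fun p hp => ?_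
      rw [mem_filter] at hp
      rw [vonMangoldt_apply_prime hp.2]
    have e5 : - ∑ d ∈ (Ioc 0 k).filter (fun d => ¬ d.Prime), Λ d ≤
        ∑ d ∈ (Ioc y k).filter (fun d => ¬ d.Prime), Λ d * X d k n := by
      calc - ∑ d ∈ (Ioc 0 k).filter (fun d => ¬ d.Prime), Λ d
          ≤ - ∑ d ∈ (Ioc y k).filter (fun d => ¬ d.Prime), Λ d := by
            refine neg_le_neg (sum_le_sum_of_subset_of_nonneg ?_ fun _ _ _ => vonMangoldt_nonneg)
            exact filter_subset_filter _ (Ioc_subset_Ioc_left (by omega))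
        _ = ∑ d ∈ (Ioc y k).filter (fun d => ¬ d.Prime), - Λ d := by rw [sum_neg_distrib]
        _ ≤ _ := by
            refine sum_le_sum fun d _ => ?_
            have h3 := (abs_le.1 (X_abs_le d k n)).1
            have h4 := vonMangoldt_nonneg (n := d)
            nlinarith
    rw [e4]
    linarith
  linarith

/-- The reduction: what has to be shown for `k > y`. -/
theorem good_of_large {y k n : ℕ} (h : ∀ d, 1 ≤ d → d ≤ y → d ∣ n) (hky : y < k) (hkn : k ≤ n)
    (hB : Real.log k + (Chebyshev.psi (k : ℝ) - Chebyshev.theta (k : ℝ)) - Chebyshev.psi (y : ℝ) ≤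
      ∑ p ∈ pr y k, Real.log p * X p k n) :
    (Icc (n - k + 1) n).lcm id < (Icc (n + 1) (n + k)).lcm id := by
  refine lcm_lt_of_nonneg (by omega) hkn ?_
  have := large_k h hky
  linarith

theorem good_of_small {y k n : ℕ} (h : ∀ d, 1 ≤ d → d ≤ y → d ∣ n) (hk : 1 ≤ k) (hky : k ≤ y) (hkn : k ≤ n) :
    (Icc (n - k + 1) n).lcm id < (Icc (n + 1) (n + k)).lcm id :=
  lcm_lt_of_nonneg hk hkn (small_k h hky)

end LCB
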