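import Pool.Agent.LCB.Dri
import Pool.Agent.LCB.Grp

/-!
# LCB, part E: the functions attached to a single prime
-/

set_option autoImplicit false

namespace LCB

open Finset Function ArithmeticFunction

/-- The centred residue. -/
noncomputable def ps (p n : ℕ) : ℝ := 1 - (2 * ((n % p : ℕ) : ℝ) + 1) / p

theorem refl_mod {p Q n : ℕ} (hp : p ∣ Q) (hn : n < Q) : (Q - 1 - n) % p = p - 1 - n % p := by
  obtain ⟨t, rfl⟩ := hp
  have hp0 : 0 < p := Nat.pos_of_mul_pos_right (show 0 < p * t by omega)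
  have h1 := Nat.mod_lt n hp0
  have h2 := Nat.div_add_mod n p
  have h3 : n / p < t := by
    rw [Nat.div_lt_iff_lt_mul hp0, mul_comm]
    exact hn
  obtain ⟨s, hs⟩ : ∃ s, t = n / p + 1 + s := ⟨t - (n / p + 1), by omega⟩
  have h4 : p * t - 1 - n = p * s + (p - 1 - n % p) := by
    rw [hs]
    have : p * (n / p + 1 + s) = p * (n / p) + p + p * s := by ring
    rw [this]
    omega
  rw [h4, Nat.mul_add_mod, Nat.mod_eq_of_lt (by omega)]

theorem ps_per (p : ℕ) : Periodic (ps p) p := by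
  intro n
  unfold ps
  rw [Nat.add_mod_right]

theorem X_per (p k : ℕ) : Periodic (X p k) p := by
  intro n
  unfold X
  rw [Nat.add_mod_right]

theorem ps_abs_le {p : ℕ} (hp : 0 < p) (n : ℕ) : |ps p n| ≤ 1 := by
  have hp0 : (0 : ℝ) < p := by exact_mod_cast hp
  have h1 : ((n % p : ℕ) : ℝ) + 1 ≤ p := by exact_mod_cast Nat.mod_lt n hp
  have h2 : (0 : ℝ) ≤ ((n % p : ℕ) : ℝ) := Nat.cast_nonneg _
  unfold ps
  rw [abs_le]
  constructor
  · have : (2 * ((n % p : ℕ) : ℝ) + 1) / p ≤ 2 := by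
      rw [div_le_iff₀ hp0]; linarith
    linarith
  · have : 0 ≤ (2 * ((n % p : ℕ) : ℝ) + 1) / p := by positivity
    linarith

theorem ps_odd {p Q n : ℕ} (hp : p ∣ Q) (hn : n < Q) : ps p (Q - 1 - n) = - ps p n := by
  have hp0 : 0 < p := Nat.pos_of_dvd_of_pos hp (by omega)
  have hp1 : (0 : ℝ) < p := by exact_mod_cast hp0
  unfold ps
  rw [refl_mod hp hn]
  have h1 := Nat.mod_lt n hp0
  have h2 : ((p - 1 - n % p : ℕ) : ℝ) = (p : ℝ) - 1 - ((n % p : ℕ) : ℝ) := by
    rw [Nat.cast_sub (by omega), Nat.cast_sub (by omega)]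
    push_cast
    rfl
  rw [h2]
  field_simp
  ring

theorem X_odd {p Q n : ℕ} (k : ℕ) (hp : p ∣ Q) (hn : n < Q) : X p k (Q - 1 - n) = - X p k n := by
  have hp0 : 0 < p := Nat.pos_of_dvd_of_pos hp (by omega)
  have h1 := Nat.mod_lt n hp0
  have h2 := Nat.mod_lt k hp0
  unfold X
  rw [refl_mod hp hn]
  have e1 : (p - 1 - n % p < k % p) ↔ (p ≤ n % p + k % p) := by omega
  have e2 : (p ≤ p - 1 - n % p + k % p) ↔ (n % p < k % p) := by omega
  simp only [e1, e2]
  ring

/-- The moment generating function bound for a sum of independent odd bounded functions. -/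
theorem mgf_sum {S : Finset ℕ} {Q : ℕ} (hQ : 0 < Q) (hS : ∀ p ∈ S, p.Prime) (hSQ : ∀ p ∈ S, p ∣ Q) {f : ℕ → ℕ → ℝ} {c : ℝ}
    (hper : ∀ p ∈ S, Periodic (f p) p) (hodd : ∀ p ∈ S, ∀ n < Q, f p (Q - 1 - n) = - f p n)
    (hb : ∀ p ∈ S, ∀ n, |f p n| ≤ c) (θ : ℝ) :
    av Q (fun n => Real.exp (θ * ∑ p ∈ S, f p n)) ≤ Real.exp (θ ^ 2 * (S.card * c ^ 2) / 2) := by
  have e1 : ∀ n, Real.exp (θ * ∑ p ∈ S, f p n) = ∏ p ∈ S, Real.exp (θ * f p n) := by
    intro n
    rw [mul_sum, Real.exp_sum]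
  simp only [e1]
  rw [av_prod' (q := fun p => p) hQ (fun p hp => per_comp (hper p hp) (fun x => Real.exp (θ * x))) hSQ
    (fun p hp q hq hpq => (Nat.coprime_primes (hS p hp) (hS q hq)).2 hpq)]
  have e2 : Real.exp (θ ^ 2 * (S.card * c ^ 2) / 2) = ∏ p ∈ S, Real.exp (θ ^ 2 * c ^ 2 / 2) := by
    rw [prod_const, ← Real.exp_nat_mul]
    congr 1
    ring
  rw [e2]
  refine prod_le_prod (fun p _ => av_nonneg Q fun n => (Real.exp_pos _).le) fun p hp => ?_
  have e3 : av Q (fun n => Real.exp (θ * f p n)) = av Q (fun n => Real.cosh (θ * f p n)) := by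
    have h1 := av_refl Q (fun n => Real.exp (θ * f p n))
    have h2 : av Q (fun n => Real.exp (θ * f p (Q - 1 - n))) = av Q (fun n => Real.exp (-(θ * f p n))) := by
      refine av_congr Q fun n hn => ?_
      rw [hodd p hp n hn, mul_neg]
    have h3 : av Q (fun n => Real.cosh (θ * f p n)) =
        av Q (fun n => (1 / 2) * (Real.exp (θ * f p n) + Real.exp (-(θ * f p n)))) := by
      refine av_congr Q fun n _ => ?_
      rw [Real.cosh_eq]
      ring
    rw [h3, av_mul_left, av_add, ← h2, h1]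
    ring
  rw [e3, ← av_const hQ (Real.exp (θ ^ 2 * c ^ 2 / 2))]
  refine av_mono Q fun n => ?_
  refine (Real.cosh_le_exp_half_sq _).trans ?_
  apply Real.exp_le_exp.2
  have h4 : (f p n) ^ 2 ≤ c ^ 2 := by
    rw [← sq_abs]
    exact pow_le_pow_left₀ (abs_nonneg _) (hb p hp n) 2
  have h5 : (θ * f p n) ^ 2 ≤ θ ^ 2 * c ^ 2 := by
    rw [mul_pow]
    exact mul_le_mul_of_nonneg_left h4 (sq_nonneg θ)
  linarith

theorem sum_lin (t : ℕ) : ∑ r ∈ range t, (2 * (r : ℝ) + 1) = (t : ℝ) ^ 2 := by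
  induction t with
  | zero => simp
  | succ t ih => rw [sum_range_succ, ih]; push_cast; ring

theorem av_ps_X {p : ℕ} (hp : 0 < p) (k : ℕ) : av p (fun n => ps p n * X p k n) = 2 * tt k p := by
  have hp0 : (0 : ℝ) < p := by exact_mod_cast hp
  have hk := Nat.mod_lt k hp
  -- split `X = A - A'` with `A'` the reflection of `A`
  set A : ℕ → ℝ := fun n => if n % p < k % p then 1 else 0 with hA
  have h1 : av p (fun n => ps p n * X p k n) = av p (fun n => ps p n * A n) - av p (fun n => ps p n * (if p ≤ n % p + k % p then (1 : ℝ) else 0)) := by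
    rw [← av_sub]
    refine av_congr p fun n _ => ?_
    unfold X
    simp only [hA]
    ring
  have h2 : av p (fun n => ps p n * (if p ≤ n % p + k % p then (1 : ℝ) else 0)) = - av p (fun n => ps p n * A n) := by
    rw [← av_refl, ← av_neg]
    refine av_congr p fun n hn => ?_
    rw [ps_odd (dvd_refl p) hn, refl_mod (dvd_refl p) hn]
    have h3 := Nat.mod_lt n hp
    have e2 : (p ≤ p - 1 - n % p + k % p) ↔ (n % p < k % p) := by omega
    simp only [e2, hA]
    ring
  have h3 : av p (fun n => ps p n * A n) = tt k p := by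
    unfold av
    have e3 : ∑ n ∈ range p, ps p n * A n = ∑ n ∈ range (k % p), (1 - (2 * (n : ℝ) + 1) / p) := by
      have hsub : range (k % p) ⊆ range p := range_subset_range.2 hk.le
      rw [← sum_subset hsub]
      · refine sum_congr rfl fun n hn => ?_
        rw [mem_range] at hn
        have : n % p = n := Nat.mod_eq_of_lt (by omega)
        simp only [hA, this, if_pos hn, mul_one]
        unfold ps
        rw [this]
      · intro n hn hn'
        rw [mem_range] at hn hn'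
        have : n % p = n := Nat.mod_eq_of_lt hn
        simp only [hA, this, if_neg hn', mul_zero]
    rw [e3, sum_sub_distrib, ← sum_div, sum_lin, sum_const, card_range, nsmul_eq_mul, mul_one]
    unfold tt
    field_simp
  rw [h1, h2, h3]
  ring

theorem av_ps {p Q : ℕ} (hp : p ∣ Q) : av Q (ps p) = 0 :=
  av_odd fun _ hm => ps_odd hp hm

theorem av_ps_X_ne {p q Q : ℕ} (hp : p.Prime) (hq : q.Prime) (hpq : p ≠ q) (hpQ : p ∣ Q) (hqQ : q ∣ Q) (hQ : 0 < Q) (k : ℕ) :
    av Q (fun n => ps p n * X q k n) = 0 := by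
  have hc : Nat.Coprime p q := (Nat.coprime_primes hp hq).2 hpq
  have hd : p * q ∣ Q := hc.mul_dvd_of_dvd_of_dvd hpQ hqQ
  have hper : Periodic (fun n => ps p n * X q k n) (p * q) :=
    per_mul (per_of_dvd (ps_per p) (Dvd.intro _ rfl)) (per_of_dvd (X_per q k) (Dvd.intro_left _ rfl))
  rw [av_of_dvd hper hd hQ, av_indep (ps_per p) (X_per q k) hc hp.pos hq.pos, av_ps (dvd_refl p), zero_mul]

end LCB
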