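import Pool.Agent.LCB.Sng

/-!
# LCB, part F: the tilted measure
-/

set_option autoImplicit false

namespace LCB

open Finset Function ArithmeticFunction

variable {ι : Type} [DecidableEq ι]

/-- The primes of `S` with label `γ`. -/
def cl (S : Finset ℕ) (g : ℕ → ι) (γ : ι) : Finset ℕ := S.filter (fun p => g p = γ)

theorem mem_cl {S : Finset ℕ} {g : ℕ → ι} {γ : ι} {p : ℕ} : p ∈ cl S g γ ↔ p ∈ S ∧ g p = γ := by
  unfold cl; rw [mem_filter]

/-- The normalised tilting function of a group. -/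
noncomputable def ze (S : Finset ℕ) (g : ℕ → ι) (σ : ι → ℕ) (γ : ι) (n : ℕ) : ℝ :=
  (√(σ γ : ℝ))⁻¹ * ∑ p ∈ cl S g γ, ps p n

/-- The weight. -/
noncomputable def Wt (S : Finset ℕ) (g : ℕ → ι) (σ : ι → ℕ) (n : ℕ) : ℝ := ∏ γ ∈ S.image g, T (ze S g σ γ) n

/-- The contribution of one prime. -/
noncomputable def xi (k p n : ℕ) : ℝ := if p ≤ k then Real.log p * X p k n else 0

/-- The contribution of one group. -/
noncomputable def be (S : Finset ℕ) (g : ℕ → ι) (k : ℕ) (γ : ι) (n : ℕ) : ℝ := ∑ p ∈ cl S g γ, xi k p n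

theorem xi_per (k p : ℕ) : Periodic (xi k p) p := by
  intro n
  unfold xi
  rw [X_per p k n]

theorem xi_odd {k p Q n : ℕ} (hp : p ∣ Q) (hn : n < Q) : xi k p (Q - 1 - n) = - xi k p n := by
  unfold xi
  rw [X_odd k hp hn]
  split_ifs <;> ring

theorem xi_abs_le {k p : ℕ} (hp : 0 < p) (n : ℕ) : |xi k p n| ≤ Real.log p := by
  have h0 : 0 ≤ Real.log p := Real.log_nonneg (by exact_mod_cast hp)
  unfold xi
  split_ifs
  · rw [abs_mul, abs_of_nonneg h0]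
    have := X_abs_le p k n
    nlinarith
  · rw [abs_zero]; exact h0

/-- The hypotheses on the system of groups. -/
structure Sys (Q : ℕ) (S : Finset ℕ) (g : ℕ → ι) (σ : ι → ℕ) (l : ι → ℝ) : Prop where
  hQ : 0 < Q
  hS : ∀ p ∈ S, p.Prime
  hSQ : ∀ p ∈ S, p ∣ Q
  hσ : ∀ γ ∈ S.image g, (cl S g γ).card ≤ σ γ
  hl : ∀ p ∈ S, Real.log p ≤ l (g p)

variable {Q : ℕ} {S : Finset ℕ} {g : ℕ → ι} {σ : ι → ℕ} {l : ι → ℝ}

theorem Sys.cl_nonempty {γ : ι} (hγ : γ ∈ S.image g) : (cl S g γ).Nonempty := by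
  rw [mem_image] at hγ
  obtain ⟨p, hp, rfl⟩ := hγ
  exact ⟨p, mem_cl.2 ⟨hp, rfl⟩⟩

theorem Sys.σ_pos (H : Sys Q S g σ l) {γ : ι} (hγ : γ ∈ S.image g) : 0 < σ γ :=
  (card_pos.2 (Sys.cl_nonempty hγ)).trans_le (H.hσ γ hγ)

theorem Sys.l_pos (H : Sys Q S g σ l) {γ : ι} (hγ : γ ∈ S.image g) : 0 < l γ := by
  obtain ⟨p, hp⟩ := Sys.cl_nonempty hγ
  rw [mem_cl] at hp
  have h1 := H.hl p hp.1
  rw [hp.2] at h1
  have h2 : 0 < Real.log p := Real.log_pos (by exact_mod_cast (H.hS p hp.1).one_lt)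
  linarith

theorem Sys.gh (H : Sys Q S g σ l) (k : ℕ) {γ : ι} (hγ : γ ∈ S.image g) :
    GH Q (ze S g σ γ) (be S g k γ) (√(σ γ : ℝ) * l γ) := by
  have hσ0 : (0 : ℝ) < σ γ := by exact_mod_cast H.σ_pos hγ
  have hsq : 0 < √(σ γ : ℝ) := Real.sqrt_pos.2 hσ0
  have hl0 := H.l_pos hγ
  have hcard : ((cl S g γ).card : ℝ) ≤ σ γ := by exact_mod_cast H.hσ γ hγ
  have hp1 : ∀ p ∈ cl S g γ, p.Prime := fun p hp => H.hS p (mem_cl.1 hp).1
  have hp2 : ∀ p ∈ cl S g γ, p ∣ Q := fun p hp => H.hSQ p (mem_cl.1 hp).1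
  refine ⟨H.hQ, mul_pos hsq hl0, ?_, ?_, ?_, ?_⟩
  · intro m hm
    unfold ze
    rw [← mul_neg, ← sum_neg_distrib]
    congr 1
    exact sum_congr rfl fun p hp => ps_odd (hp2 p hp) hm
  · intro m hm
    unfold be
    rw [← sum_neg_distrib]
    exact sum_congr rfl fun p hp => xi_odd (hp2 p hp) hm
  · intro θ
    have h := mgf_sum (f := ps) (c := 1) H.hQ hp1 hp2 (fun p _ => ps_per p) (fun p hp n hn => ps_odd (hp2 p hp) hn)
      (fun p hp n => ps_abs_le (hp1 p hp).pos n) (θ * (√(σ γ : ℝ))⁻¹)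
    have e : ∀ m, θ * ze S g σ γ m = θ * (√(σ γ : ℝ))⁻¹ * ∑ p ∈ cl S g γ, ps p m := by
      intro m; unfold ze; ring
    simp only [e]
    refine h.trans (Real.exp_le_exp.2 ?_)
    have h2 : (θ * (√(σ γ : ℝ))⁻¹) ^ 2 = θ ^ 2 * (σ γ : ℝ)⁻¹ := by
      rw [mul_pow, inv_pow, Real.sq_sqrt hσ0.le]
    rw [h2]
    have h3 : (σ γ : ℝ)⁻¹ * ((cl S g γ).card * 1 ^ 2) ≤ 1 := by
      rw [one_pow, mul_one, inv_mul_le_iff₀ hσ0, mul_one]
      exact hcard
    have h4 : θ ^ 2 * (σ γ : ℝ)⁻¹ * ((cl S g γ).card * 1 ^ 2) = θ ^ 2 * ((σ γ : ℝ)⁻¹ * ((cl S g γ).card * 1 ^ 2)) := by ring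
    rw [h4]
    have h5 := mul_le_mul_of_nonneg_left h3 (sq_nonneg θ)
    linarith
  · intro θ _
    have h := mgf_sum (f := xi k) (c := l γ) H.hQ hp1 hp2 (fun p _ => xi_per k p) (fun p hp n hn => xi_odd (hp2 p hp) hn)
      (fun p hp n => (xi_abs_le (hp1 p hp).pos n).trans (by
        have := H.hl p (mem_cl.1 hp).1
        rwa [(mem_cl.1 hp).2] at this)) θ
    refine h.trans (Real.exp_le_exp.2 ?_)
    have h1 : (√(σ γ : ℝ) * l γ) ^ 2 = σ γ * l γ ^ 2 := by rw [mul_pow, Real.sq_sqrt hσ0.le]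
    rw [h1]
    have h2 : ((cl S g γ).card : ℝ) * l γ ^ 2 ≤ σ γ * l γ ^ 2 := by gcongr
    have h3 := mul_le_mul_of_nonneg_left h2 (sq_nonneg θ)
    linarith

/-- The tilted mean of a group. -/
noncomputable def mug (Q : ℕ) (S : Finset ℕ) (g : ℕ → ι) (σ : ι → ℕ) (k : ℕ) (γ : ι) : ℝ :=
  mu Q (ze S g σ γ) (be S g k γ)

/-- The product of the normalisations. -/
noncomputable def Tau (Q : ℕ) (S : Finset ℕ) (g : ℕ → ι) (σ : ι → ℕ) : ℝ := ∏ γ ∈ S.image g, tau Q (ze S g σ γ)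

theorem Sys.Tau_ge (H : Sys Q S g σ l) : 1 ≤ Tau Q S g σ := by
  unfold Tau
  have : ∀ γ ∈ S.image g, 1 ≤ tau Q (ze S g σ γ) := fun γ hγ => (H.gh 0 hγ).tau_ge
  calc (1 : ℝ) = ∏ _γ ∈ S.image g, 1 := by rw [prod_const_one]
    _ ≤ _ := prod_le_prod (fun _ _ => zero_le_one) this

theorem Sys.mug_ge (H : Sys Q S g σ l) (k : ℕ) {γ : ι} (hγ : γ ∈ S.image g) :
    (1 / 2) * (√(σ γ : ℝ))⁻¹ * ∑ p ∈ cl S g γ, (if p ≤ k then Real.log p * tt k p else 0) ≤ mug Q S g σ k γ := by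
  have hσ0 : (0 : ℝ) < σ γ := by exact_mod_cast H.σ_pos hγ
  have hsq : 0 < √(σ γ : ℝ) := Real.sqrt_pos.2 hσ0
  have GHk := H.gh k hγ
  have hp1 : ∀ p ∈ cl S g γ, p.Prime := fun p hp => H.hS p (mem_cl.1 hp).1
  have hp2 : ∀ p ∈ cl S g γ, p ∣ Q := fun p hp => H.hSQ p (mem_cl.1 hp).1
  unfold mug
  rw [GHk.mu_eq]
  have e1 : av Q (fun m => ze S g σ γ m * be S g k γ m) =
      (√(σ γ : ℝ))⁻¹ * ∑ p ∈ cl S g γ, 2 * (if p ≤ k then Real.log p * tt k p else 0) := by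
    have e2 : ∀ m, ze S g σ γ m * be S g k γ m = (√(σ γ : ℝ))⁻¹ * ∑ p ∈ cl S g γ, ∑ q ∈ cl S g γ, ps p m * xi k q m := by
      intro m
      unfold ze be
      rw [mul_assoc, sum_mul_sum]
    simp only [e2]
    rw [av_mul_left, av_sum]
    congr 1
    refine sum_congr rfl fun p hp => ?_
    rw [av_sum, sum_eq_single p]
    · unfold xi
      by_cases hpk : p ≤ k
      · simp only [if_pos hpk]
        have e3 : ∀ m, ps p m * (Real.log p * X p k m) = Real.log p * (ps p m * X p k m) := fun m => by ring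
        simp only [e3]
        rw [av_mul_left, av_of_dvd (per_mul (ps_per p) (X_per p k)) (hp2 p hp) H.hQ, av_ps_X (hp1 p hp).pos]
        ring
      · simp only [if_neg hpk, mul_zero]
        exact av_const H.hQ 0
    · intro q hq hqp
      unfold xi
      by_cases hqk : q ≤ k
      · simp only [if_pos hqk]
        have e3 : ∀ m, ps p m * (Real.log q * X q k m) = Real.log q * (ps p m * X q k m) := fun m => by ring
        simp only [e3]
        rw [av_mul_left, av_ps_X_ne (hp1 p hp) (hp1 q hq) (Ne.symm hqp) (hp2 p hp) (hp2 q hq) H.hQ, mul_zero]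
      · simp only [if_neg hqk, mul_zero]
        exact av_const H.hQ 0
    · intro h
      exact absurd hp h
  rw [e1, ← mul_sum]
  set Z := ∑ p ∈ cl S g γ, (if p ≤ k then Real.log p * tt k p else 0) with hZ
  have hZ0 : 0 ≤ Z := by
    refine sum_nonneg fun p hp => ?_
    split_ifs
    · exact mul_nonneg (Real.log_nonneg (by exact_mod_cast (hp1 p hp).one_lt.le)) (tt_nonneg k p)
    · exact le_refl _
  have ht1 := GHk.tau_ge
  have ht2 := GHk.tau_le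
  rw [le_div_iff₀ (by linarith)]
  have h3 : 0 ≤ (√(σ γ : ℝ))⁻¹ * Z := by positivity
  nlinarith

theorem Sys.mug_abs (H : Sys Q S g σ l) (k : ℕ) {γ : ι} (hγ : γ ∈ S.image g) :
    |mug Q S g σ k γ| ≤ ∑ p ∈ cl S g γ, Real.log p := by
  have GHk := H.gh k hγ
  have hp1 : ∀ p ∈ cl S g γ, p.Prime := fun p hp => H.hS p (mem_cl.1 hp).1
  have ht1 := GHk.tau_ge
  set b := ∑ p ∈ cl S g γ, Real.log p with hb
  have hB : ∀ n, |be S g k γ n| ≤ b := by
    intro n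
    unfold be
    exact (abs_sum_le_sum_abs _ _).trans (sum_le_sum fun p hp => xi_abs_le (hp1 p hp).pos n)
  unfold mug mu
  rw [abs_div, abs_of_pos (by linarith : 0 < tau Q (ze S g σ γ)), div_le_iff₀ (by linarith), abs_le]
  have e : b * tau Q (ze S g σ γ) = av Q (fun m => T (ze S g σ γ) m * b) := by
    rw [av_mul_right, mul_comm]; rfl
  constructor
  · rw [e, ← av_neg]
    refine av_mono Q fun m => ?_
    have := (abs_le.1 (hB m)).1
    have h2 := T_nonneg (ze S g σ γ) m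
    nlinarith
  · rw [e]
    refine av_mono Q fun m => ?_
    have := (abs_le.1 (hB m)).2
    have h2 := T_nonneg (ze S g σ γ) m
    nlinarith

/-- The modulus of a group. -/
def qg (S : Finset ℕ) (g : ℕ → ι) (γ : ι) : ℕ := ∏ p ∈ cl S g γ, p

theorem Sys.qg_dvd (H : Sys Q S g σ l) (γ : ι) : qg S g γ ∣ Q := by
  unfold qg
  refine Finset.prod_dvd_of_isRelPrime ?_ fun p hp => H.hSQ p (mem_cl.1 hp).1
  intro p hp q hq hpq
  exact Nat.coprime_iff_isRelPrime.1 ((Nat.coprime_primes (H.hS p (mem_cl.1 hp).1) (H.hS q (mem_cl.1 hq).1)).2 hpq)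

theorem Sys.qg_coprime (H : Sys Q S g σ l) {γ δ : ι} (h : γ ≠ δ) : Nat.Coprime (qg S g γ) (qg S g δ) := by
  unfold qg
  refine Nat.Coprime.prod_left fun p hp => Nat.Coprime.prod_right fun q hq => ?_
  rw [mem_cl] at hp hq
  refine (Nat.coprime_primes (H.hS p hp.1) (H.hS q hq.1)).2 ?_
  rintro rfl
  exact h (hp.2.symm.trans hq.2)

theorem ze_per (S : Finset ℕ) (g : ℕ → ι) (σ : ι → ℕ) (γ : ι) : Periodic (ze S g σ γ) (qg S g γ) := by
  have h1 : Periodic (fun n => ∑ p ∈ cl S g γ, ps p n) (qg S g γ) :=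
    per_sum fun p hp => per_of_dvd (ps_per p) (dvd_prod_of_mem _ hp)
  exact per_comp h1 (fun x => (√(σ γ : ℝ))⁻¹ * x)

theorem be_per (S : Finset ℕ) (g : ℕ → ι) (k : ℕ) (γ : ι) : Periodic (be S g k γ) (qg S g γ) :=
  per_sum fun p hp => per_of_dvd (xi_per k p) (dvd_prod_of_mem _ hp)

theorem T_per (S : Finset ℕ) (g : ℕ → ι) (σ : ι → ℕ) (γ : ι) : Periodic (T (ze S g σ γ)) (qg S g γ) :=
  per_comp (ze_per S g σ γ) (fun x => (1 + x) ^ 2)

theorem Wt_nonneg (S : Finset ℕ) (g : ℕ → ι) (σ : ι → ℕ) (n : ℕ) : 0 ≤ Wt S g σ n :=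
  prod_nonneg fun _ _ => T_nonneg _ _

theorem Sys.av_prod (H : Sys Q S g σ l) {f : ι → ℕ → ℝ} (hf : ∀ γ ∈ S.image g, Periodic (f γ) (qg S g γ)) :
    av Q (fun n => ∏ γ ∈ S.image g, f γ n) = ∏ γ ∈ S.image g, av Q (f γ) :=
  av_prod' (q := qg S g) H.hQ hf (fun γ _ => H.qg_dvd γ) fun _ _ _ _ h => H.qg_coprime h

theorem Sys.av_W (H : Sys Q S g σ l) : av Q (Wt S g σ) = Tau Q S g σ :=
  H.av_prod fun γ _ => T_per S g σ γ

theorem Sys.av_W2 (H : Sys Q S g σ l) : av Q (fun n => Wt S g σ n ^ 2) ≤ KT ^ (S.image g).card := by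
  have e : ∀ n, Wt S g σ n ^ 2 = ∏ γ ∈ S.image g, T (ze S g σ γ) n ^ 2 := by
    intro n; unfold Wt; rw [prod_pow]
  simp only [e]
  rw [H.av_prod (f := fun γ n => T (ze S g σ γ) n ^ 2) fun γ _ => per_comp (T_per S g σ γ) (fun x => x ^ 2),
    ← prod_const]
  exact prod_le_prod (fun γ _ => av_nonneg Q fun n => sq_nonneg _) fun γ hγ => (H.gh 0 hγ).T2

/-- The centred sum. -/
noncomputable def Yk (Q : ℕ) (S : Finset ℕ) (g : ℕ → ι) (σ : ι → ℕ) (k n : ℕ) : ℝ :=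
  ∑ γ ∈ S.image g, (be S g k γ n - mug Q S g σ k γ)

theorem Sys.mgf_tot (H : Sys Q S g σ l) (k : ℕ) {lam : ℝ} {G : Finset ι} (hG : G ⊆ S.image g)
    (h1 : ∀ γ ∈ G, |lam| * (√(σ γ : ℝ) * l γ) ≤ 1) (h0 : ∀ p ∈ S, p ≤ k → g p ∈ G) :
    av Q (fun n => Wt S g σ n * Real.exp (lam * Yk Q S g σ k n)) ≤
      Tau Q S g σ * Real.exp (C0 * (lam ^ 2 * ∑ γ ∈ G, σ γ * l γ ^ 2)) := by
  have e : ∀ n, Wt S g σ n * Real.exp (lam * Yk Q S g σ k n) =
      ∏ γ ∈ S.image g, (T (ze S g σ γ) n * Real.exp (lam * (be S g k γ n - mug Q S g σ k γ))) := by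
    intro n
    unfold Wt Yk
    rw [mul_sum, Real.exp_sum, prod_mul_distrib]
  simp only [e]
  rw [H.av_prod (f := fun γ n => T (ze S g σ γ) n * Real.exp (lam * (be S g k γ n - mug Q S g σ k γ)))
    fun γ _ => per_mul (T_per S g σ γ) (per_comp (be_per S g k γ) (fun x => Real.exp (lam * (x - mug Q S g σ k γ))))]
  have e2 : Tau Q S g σ * Real.exp (C0 * (lam ^ 2 * ∑ γ ∈ G, σ γ * l γ ^ 2)) =
      ∏ γ ∈ S.image g, (tau Q (ze S g σ γ) * Real.exp (if γ ∈ G then C0 * (lam ^ 2 * (σ γ * l γ ^ 2)) else 0)) := by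
    rw [prod_mul_distrib, ← Real.exp_sum, ← sum_filter, filter_mem_eq_inter, inter_eq_right.2 hG,
      ← mul_sum, ← mul_sum]
    rfl
  rw [e2]
  refine prod_le_prod (fun γ _ => av_nonneg Q fun n => mul_nonneg (T_nonneg _ _) (Real.exp_pos _).le) fun γ hγ => ?_
  by_cases hγG : γ ∈ G
  · rw [if_pos hγG]
    have h := (H.gh k hγ).mgf (h1 γ hγG)
    have hσ0 : (0 : ℝ) ≤ σ γ := Nat.cast_nonneg _
    rw [mul_pow, Real.sq_sqrt hσ0] at h
    exact h
  · rw [if_neg hγG, Real.exp_zero, mul_one]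
    have hbe : ∀ n, be S g k γ n = 0 := by
      intro n
      unfold be
      refine sum_eq_zero fun p hp => ?_
      rw [mem_cl] at hp
      unfold xi
      rw [if_neg]
      intro hpk
      exact hγG (hp.2 ▸ h0 p hp.1 hpk)
    have hmu : mug Q S g σ k γ = 0 := by
      unfold mug mu
      simp only [hbe, mul_zero]
      rw [av_const H.hQ, zero_div]
    simp only [hbe, hmu, sub_zero, mul_zero, Real.exp_zero, mul_one]
    exact le_refl _

theorem Sys.moment (H : Sys Q S g σ l) (k : ℕ) {lam D V : ℝ} {R : ℕ} {G : Finset ι} (hG : G ⊆ S.image g)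
    (hlam : 0 < lam) (hR : Even R) (hR1 : 1 ≤ R) (hD : Real.exp 1 * R ≤ lam * D)
    (h1 : ∀ γ ∈ G, lam * (√(σ γ : ℝ) * l γ) ≤ 1) (h0 : ∀ p ∈ S, p ≤ k → g p ∈ G)
    (hV : lam ^ 2 * ∑ γ ∈ G, σ γ * l γ ^ 2 ≤ V) :
    av Q (fun n => Wt S g σ n * (Yk Q S g σ k n / D) ^ R) ≤ 2 * Tau Q S g σ * Real.exp (C0 * V - R) := by
  have hR0 : (0 : ℝ) < R := by exact_mod_cast hR1
  have hlD : 0 < lam * D := lt_of_lt_of_le (mul_pos (Real.exp_pos 1) hR0) hD
  have hD0 : 0 < D := (pos_iff_pos_of_mul_pos hlD).1 hlam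
  have ht := H.Tau_ge
  have m1 := H.mgf_tot k (lam := lam) hG (by rwa [abs_of_pos hlam]) h0
  have m2 := H.mgf_tot k (lam := -lam) hG (by rwa [abs_neg, abs_of_pos hlam]) h0
  rw [neg_sq] at m2
  have hb : Real.exp (C0 * (lam ^ 2 * ∑ γ ∈ G, σ γ * l γ ^ 2)) ≤ Real.exp (C0 * V) :=
    Real.exp_le_exp.2 (mul_le_mul_of_nonneg_left hV C0_nonneg)
  have hc : (R.factorial : ℝ) / (lam * D) ^ R ≤ Real.exp (-(R : ℝ)) := by
    rw [div_le_iff₀ (pow_pos hlD R)]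
    have h2 : (R.factorial : ℝ) ≤ (R : ℝ) ^ R := by exact_mod_cast Nat.factorial_le_pow R
    have h3 : (Real.exp 1 * R) ^ R ≤ (lam * D) ^ R := pow_le_pow_left₀ (by positivity) hD R
    have h4 : (Real.exp 1 * (R : ℝ)) ^ R = Real.exp R * (R : ℝ) ^ R := by
      rw [mul_pow, ← Real.exp_nat_mul, mul_one]
    rw [h4] at h3
    calc (R.factorial : ℝ) ≤ (R : ℝ) ^ R := h2
      _ = Real.exp (-(R : ℝ)) * (Real.exp R * (R : ℝ) ^ R) := by
          rw [← mul_assoc, ← Real.exp_add, neg_add_cancel, Real.exp_zero, one_mul]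
      _ ≤ _ := by gcongr
  have hc0 : 0 ≤ (R.factorial : ℝ) / (lam * D) ^ R := by positivity
  calc av Q (fun n => Wt S g σ n * (Yk Q S g σ k n / D) ^ R)
      ≤ av Q (fun n => ((R.factorial : ℝ) / (lam * D) ^ R) *
          (Wt S g σ n * Real.exp (lam * Yk Q S g σ k n) + Wt S g σ n * Real.exp (-lam * Yk Q S g σ k n))) := by
        refine av_mono Q fun n => ?_
        have h := pow_le_fact_exp (lam * Yk Q S g σ k n) hR
        have hw := Wt_nonneg S g σ n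
        have e : (Yk Q S g σ k n / D) ^ R = (lam * Yk Q S g σ k n) ^ R / (lam * D) ^ R := by
          rw [← div_pow]
          congr 1
          field_simp
        rw [e, neg_mul, ← mul_add, ← mul_assoc, mul_comm _ (Wt S g σ n), mul_assoc]
        refine mul_le_mul_of_nonneg_left ?_ hw
        rw [div_mul_eq_mul_div]
        exact div_le_div_of_nonneg_right h (pow_pos hlD R).le
    _ = ((R.factorial : ℝ) / (lam * D) ^ R) * (av Q (fun n => Wt S g σ n * Real.exp (lam * Yk Q S g σ k n)) +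
          av Q (fun n => Wt S g σ n * Real.exp (-lam * Yk Q S g σ k n))) := by rw [av_mul_left, av_add]
    _ ≤ ((R.factorial : ℝ) / (lam * D) ^ R) * (Tau Q S g σ * Real.exp (C0 * V) + Tau Q S g σ * Real.exp (C0 * V)) := by
        gcongr
        · exact m1.trans (by gcongr)
        · exact m2.trans (by gcongr)
    _ ≤ Real.exp (-(R : ℝ)) * (Tau Q S g σ * Real.exp (C0 * V) + Tau Q S g σ * Real.exp (C0 * V)) := by
        gcongr
    _ = 2 * Tau Q S g σ * Real.exp (C0 * V - R) := by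
        rw [sub_eq_add_neg, Real.exp_add]; ring

end LCB
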