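import Pool.Agent.LCB.Til

/-!
# LCB, part G: transfer from the uniform measure modulo `Q` to intervals
-/

set_option autoImplicit false

namespace LCB

open Finset Function ArithmeticFunction

theorem Dec.lift {Q Q' : ℕ} (hQQ : Q ∣ Q') {a : ℝ} {R : ℕ} {φ : ℕ → ℝ} (h : Dec Q a R φ) : Dec Q' a R φ := by
  induction h with
  | base hq hR hp hb => exact Dec.base (hq.trans hQQ) hR hp hb
  | add _ _ ih1 ih2 => exact Dec.add ih1 ih2

/-- The indicator of the multiples of `P`. -/
noncomputable def ind (P n : ℕ) : ℝ := if P ∣ n then 1 else 0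

theorem ind_nonneg (P n : ℕ) : 0 ≤ ind P n := by unfold ind; split_ifs <;> norm_num

theorem ind_le (P n : ℕ) : ind P n ≤ 1 := by unfold ind; split_ifs <;> norm_num

theorem ind_sq (P n : ℕ) : ind P n ^ 2 = ind P n := by unfold ind; split_ifs <;> norm_num

theorem ind_per (P : ℕ) : Periodic (ind P) P := by
  intro n
  unfold ind
  have : (P ∣ n + P) ↔ P ∣ n := Nat.dvd_add_self_right
  simp only [this]

theorem av_ind {P : ℕ} (hP : 0 < P) : av P (ind P) = 1 / P := by
  unfold av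
  congr 1
  rw [sum_eq_single 0]
  · unfold ind; rw [if_pos (dvd_zero P)]
  · intro m hm hm0
    unfold ind
    rw [if_neg]
    intro h
    have := Nat.le_of_dvd (Nat.pos_of_ne_zero hm0) h
    rw [mem_range] at hm
    omega
  · intro h
    exact absurd (mem_range.2 hP) h

theorem Dec.ind {P Q : ℕ} (_hP : 0 < P) : Dec (P * Q) 1 P (ind P) :=
  Dec.base (q := P) (Dvd.intro _ rfl) (le_refl P) (ind_per P) fun m => by
    rw [abs_of_nonneg (ind_nonneg P m)]; exact ind_le P m

/-- The average over a window. -/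
noncomputable def wa (c N : ℕ) (f : ℕ → ℝ) : ℝ := (∑ m ∈ range N, f (c + m)) / N

theorem ind_window {P Q : ℕ} (hP : 0 < P) (hQ : 0 < Q) (hc : Nat.Coprime P Q) {a : ℝ} {R : ℕ} {φ : ℕ → ℝ}
    (h : Dec Q a R φ) (c : ℕ) {N : ℕ} (hN : 0 < N) :
    |wa c N (fun n => ind P n * φ n) - av Q φ / P| ≤ 2 * a * R * P / N := by
  have h1 : Dec (P * Q) (1 * a) (P * R) (fun n => LCB.ind P n * φ n) := Dec.mul (Dec.ind hP) (h.lift (Dvd.intro_left _ rfl))
  have h2 := h1.sample (Nat.mul_pos hP hQ) c hN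
  have h3 : av (P * Q) (fun n => LCB.ind P n * φ n) = av Q φ / P := by
    rw [av_indep (ind_per P) h.periodic hc hP hQ, av_ind hP]
    ring
  rw [h3] at h2
  unfold wa
  refine h2.trans (le_of_eq ?_)
  push_cast
  ring

theorem transfer {P Q : ℕ} (hP : 0 < P) (hQ : 0 < Q) (hcop : Nat.Coprime P Q) {W : ℕ → ℝ} (hW : ∀ n, 0 ≤ W n)
    {κ : Type} {K : Finset κ} {V : κ → ℕ → ℝ} (hV : ∀ k ∈ K, ∀ n, 0 ≤ V k n) {A B : ℝ} {R : ℕ} (hA : 1 ≤ A) (hR : 1 ≤ R) (hB : 1 ≤ B)
    (dW : Dec Q A R W) (dWW : Dec Q A R (fun n => W n ^ 2)) (dV : ∀ k ∈ K, Dec Q A R (fun n => W n * V k n))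
    (t1 : 1 ≤ av Q W) (tV : ∑ k ∈ K, av Q (fun n => W n * V k n) ≤ 1 / 2 * av Q W) (t2 : av Q (fun n => W n ^ 2) ≤ B)
    (c : ℕ) {N : ℕ} (hN : 8 * (K.card + 1) * A * R * P ^ 2 ≤ N) {𝒢 : Finset ℕ}
    (h𝒢 : ∀ n, c ≤ n → n < c + N → P ∣ n → (∀ k ∈ K, V k n ≤ 1) → n ∈ 𝒢) :
    (N : ℝ) / (32 * P * B) ≤ 𝒢.card := by
  classical
  have hP0 : (0 : ℝ) < P := by exact_mod_cast hP
  have hP1 : (1 : ℝ) ≤ P := by exact_mod_cast hP
  have hR1 : (1 : ℝ) ≤ R := by exact_mod_cast hR
  have hK0 : (0 : ℝ) ≤ K.card := Nat.cast_nonneg _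
  have hAR : 1 ≤ A * R := by nlinarith
  have hN0 : (0 : ℝ) < N := by
    have h1 : 0 < 8 * ((K.card : ℝ) + 1) * A * R * P ^ 2 := by positivity
    linarith
  have hN1 : 0 < N := by exact_mod_cast hN0
  set ε := 2 * A * R * P / N with hε
  have hε1 : ((K.card : ℝ) + 1) * ε ≤ 1 / (4 * P) := by
    rw [hε, ← mul_div_assoc, div_le_div_iff₀ hN0 (by positivity)]
    nlinarith
  have hε0 : 0 ≤ ε := by rw [hε]; positivity
  have hε2 : ε ≤ B / P := by
    have h1 : ε ≤ ((K.card : ℝ) + 1) * ε := by nlinarith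
    have h2 : 1 / (4 * (P : ℝ)) ≤ B / P := by
      rw [div_le_div_iff₀ (by positivity) hP0]
      nlinarith
    linarith
  have a1 := (abs_le.1 (ind_window hP hQ hcop dW c hN1)).1
  have a2 := (abs_le.1 (ind_window hP hQ hcop dWW c hN1)).2
  have a3 : ∀ k ∈ K, wa c N (fun n => ind P n * (W n * V k n)) ≤ av Q (fun n => W n * V k n) / P + ε := by
    intro k hk
    have := (abs_le.1 (ind_window hP hQ hcop (dV k hk) c hN1)).2
    linarith
  -- the good indicator
  set gd : ℕ → ℝ := fun n => if P ∣ n ∧ ∀ k ∈ K, V k n ≤ 1 then 1 else 0 with hgd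
  have b1 : wa c N (fun n => ind P n * W n) ≤
      wa c N (fun n => ind P n * W n * gd n) + ∑ k ∈ K, wa c N (fun n => ind P n * (W n * V k n)) := by
    unfold wa
    rw [← sum_div, ← add_div, sum_comm, ← sum_add_distrib]
    refine div_le_div_of_nonneg_right (sum_le_sum fun m _ => ?_) hN0.le
    beta_reduce
    have hs0 : ∀ k ∈ K, 0 ≤ ind P (c + m) * (W (c + m) * V k (c + m)) := fun k hk =>
      mul_nonneg (ind_nonneg _ _) (mul_nonneg (hW _) (hV k hk _))
    by_cases h1 : P ∣ (c + m)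
    · by_cases h2 : ∀ k ∈ K, V k (c + m) ≤ 1
      · have : gd (c + m) = 1 := if_pos ⟨h1, h2⟩
        rw [this, mul_one]
        have := sum_nonneg hs0
        linarith
      · push Not at h2
        obtain ⟨k, hk, hk1⟩ := h2
        have h3 := single_le_sum hs0 hk
        have h4 : ind P (c + m) * W (c + m) ≤ ind P (c + m) * (W (c + m) * V k (c + m)) := by
          have := hW (c + m)
          have h5 : W (c + m) ≤ W (c + m) * V k (c + m) := by nlinarith
          exact mul_le_mul_of_nonneg_left h5 (ind_nonneg _ _)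
        have h6 : 0 ≤ ind P (c + m) * W (c + m) * gd (c + m) := by
          refine mul_nonneg (mul_nonneg (ind_nonneg _ _) (hW _)) ?_
          simp only [hgd]
          split_ifs <;> norm_num
        linarith
    · have h0 : ind P (c + m) = 0 := if_neg h1
      rw [h0]
      simp
  have b2 : ∑ k ∈ K, wa c N (fun n => ind P n * (W n * V k n)) ≤ 1 / 2 * av Q W / P + K.card * ε := by
    calc ∑ k ∈ K, wa c N (fun n => ind P n * (W n * V k n)) ≤ ∑ k ∈ K, (av Q (fun n => W n * V k n) / P + ε) :=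
          sum_le_sum a3
      _ = (∑ k ∈ K, av Q (fun n => W n * V k n)) / P + K.card * ε := by
          rw [sum_add_distrib, ← sum_div, sum_const, nsmul_eq_mul]
      _ ≤ _ := by gcongr
  have b3 : 1 / (4 * P) ≤ wa c N (fun n => ind P n * W n * gd n) := by
    have h1 : av Q W / P - 1 / 2 * av Q W / P - ((K.card : ℝ) + 1) * ε ≤ wa c N (fun n => ind P n * W n * gd n) := by
      linarith
    have h2 : 1 / (2 * (P : ℝ)) ≤ av Q W / P - 1 / 2 * av Q W / P := by
      have e : av Q W / P - 1 / 2 * av Q W / P = av Q W / (2 * P) := by field_simp; ring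
      rw [e]
      gcongr
    have h3 : 1 / (2 * (P : ℝ)) - 1 / (4 * P) = 1 / (4 * P) := by field_simp; norm_num
    linarith
  -- Cauchy-Schwarz
  have b4 : (wa c N (fun n => ind P n * W n * gd n)) ^ 2 ≤ wa c N (fun n => ind P n * W n ^ 2) * wa c N gd := by
    unfold wa
    rw [div_pow, div_mul_div_comm, ← sq]
    refine div_le_div_of_nonneg_right ?_ (by positivity)
    have h1 := sum_mul_sq_le_sq_mul_sq (range N) (fun m => ind P (c + m) * W (c + m)) (fun m => gd (c + m))
    have h2 : ∀ m, (ind P (c + m) * W (c + m)) ^ 2 = ind P (c + m) * W (c + m) ^ 2 := by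
      intro m; rw [mul_pow, ind_sq]
    have h3 : ∀ m, gd (c + m) ^ 2 = gd (c + m) := by
      intro m
      simp only [hgd]
      split_ifs <;> norm_num
    simp only [h2, h3] at h1
    exact h1
  have b5 : wa c N (fun n => ind P n * W n ^ 2) ≤ 2 * B / P := by
    have h1 : av Q (fun n => W n ^ 2) / P ≤ B / P := by gcongr
    have h2 : 2 * B / P = B / P + B / P := by ring
    rw [h2]
    linarith
  have b6 : 0 ≤ wa c N gd := by
    unfold wa
    refine div_nonneg (sum_nonneg fun m _ => ?_) hN0.le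
    simp only [hgd]
    split_ifs <;> norm_num
  have b7 : 1 / (32 * P * B) ≤ wa c N gd := by
    have h1 : (1 / (4 * (P : ℝ))) ^ 2 ≤ (wa c N (fun n => ind P n * W n * gd n)) ^ 2 :=
      pow_le_pow_left₀ (by positivity) b3 2
    have h2 : wa c N (fun n => ind P n * W n ^ 2) * wa c N gd ≤ 2 * B / P * wa c N gd :=
      mul_le_mul_of_nonneg_right b5 b6
    have h3 : (1 / (4 * (P : ℝ))) ^ 2 ≤ 2 * B / P * wa c N gd := (h1.trans b4).trans h2
    rw [div_le_iff₀ (by positivity)]
    have h4 : (1 / (4 * (P : ℝ))) ^ 2 * (16 * P ^ 2) = 1 := by field_simp; norm_num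
    have h5 : (1 / (4 * (P : ℝ))) ^ 2 * (16 * P ^ 2) ≤ 2 * B / P * wa c N gd * (16 * P ^ 2) :=
      mul_le_mul_of_nonneg_right h3 (by positivity)
    have h6 : 2 * B / P * wa c N gd * (16 * P ^ 2) = wa c N gd * (32 * P * B) := by field_simp; ring
    linarith
  have b8 : wa c N gd ≤ (𝒢.card : ℝ) / N := by
    unfold wa
    refine div_le_div_of_nonneg_right ?_ hN0.le
    have h1 : ∑ m ∈ range N, gd (c + m) = (((range N).filter fun m => P ∣ c + m ∧ ∀ k ∈ K, V k (c + m) ≤ 1).card : ℝ) := by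
      rw [card_filter]
      push_cast
      rfl
    rw [h1]
    have h2 : ((range N).filter fun m => P ∣ c + m ∧ ∀ k ∈ K, V k (c + m) ≤ 1).card ≤ 𝒢.card := by
      refine card_le_card_of_injOn (fun m => c + m) (fun m hm => ?_) (fun m _ m' _ h => ?_)
      · rw [mem_coe, mem_filter, mem_range] at hm
        exact h𝒢 (c + m) (by omega) (by omega) hm.2.1 hm.2.2
      · have h' : c + m = c + m' := h
        omega
    exact_mod_cast h2
  have b9 := b7.trans b8
  rw [le_div_iff₀ hN0] at b9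
  calc (N : ℝ) / (32 * P * B) = 1 / (32 * P * B) * N := by ring
    _ ≤ _ := b9

end LCB
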